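import Pool.Agent.Q255.MK.Stm

/-!
# Project MK: bounds of `D k N`
-/

set_option autoImplicit false

open MeasureTheory Finset

namespace Pool.Agent.Q255.MK

open Q289.PAM Pool.Agent.Q255.RM

lemma db (h : S_SQ) (k N : ℕ) (hk : 1 ≤ k) (hN : 3 ≤ N) :
    D k N ≤ (Real.exp 1 * (1 + Real.log N / k)) ^ (k ^ 2) := by
  have hk0 : (0 : ℝ) < k := by exact_mod_cast (by omega : 0 < k)
  have hN1 : (1 : ℝ) < N := by exact_mod_cast (by omega : 1 < N)
  have hN0 : (0 : ℝ) < N := by linarith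
  have hL : 0 < Real.log N := Real.log_pos hN1
  set L := Real.log N with hLd
  set α : ℝ := k / L with hα
  have hα0 : 0 < α := by positivity
  have hterm : ∀ m ∈ Icc 1 (N ^ k), (dk k N m : ℝ) ^ 2 / m ≤
      Real.exp ((k : ℝ) ^ 2) * ((ak k m : ℝ) ^ 2 * (m : ℝ) ^ (-(1 + α))) := by
    intro m hm
    rw [Finset.mem_Icc] at hm
    have hm0 : (0 : ℝ) < m := by exact_mod_cast (by omega : 0 < m)
    have h1 : (dk k N m : ℝ) ^ 2 ≤ (ak k m : ℝ) ^ 2 :=
      pow_le_pow_left₀ (Nat.cast_nonneg _) (by exact_mod_cast h.1 k N m hm.1) 2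
    have h2 : (1 : ℝ) / m = (m : ℝ) ^ α * (m : ℝ) ^ (-(1 + α)) := by
      rw [← Real.rpow_add hm0, show α + -(1 + α) = -1 by ring, Real.rpow_neg_one, one_div]
    have h3 : (m : ℝ) ^ α ≤ Real.exp ((k : ℝ) ^ 2) := by
      have h4 : (m : ℝ) ≤ (N : ℝ) ^ k := by exact_mod_cast hm.2
      calc (m : ℝ) ^ α ≤ ((N : ℝ) ^ k) ^ α := Real.rpow_le_rpow hm0.le h4 hα0.le
        _ = Real.exp ((k : ℝ) ^ 2) := by
          rw [← Real.rpow_natCast, ← Real.rpow_mul hN0.le, Real.rpow_def_of_pos hN0]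
          congr 1
          rw [hα, ← hLd]
          field_simp
    calc (dk k N m : ℝ) ^ 2 / m = (dk k N m : ℝ) ^ 2 * (1 / m) := by ring
      _ ≤ (ak k m : ℝ) ^ 2 * (Real.exp ((k : ℝ) ^ 2) * (m : ℝ) ^ (-(1 + α))) := by
          rw [h2]
          gcongr
      _ = _ := by ring
  have hs := h.2 k (N ^ k) (1 + α) (by linarith)
  calc D k N ≤ ∑ m ∈ Icc 1 (N ^ k), Real.exp ((k : ℝ) ^ 2) * ((ak k m : ℝ) ^ 2 * (m : ℝ) ^ (-(1 + α))) :=
        Finset.sum_le_sum hterm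
    _ = Real.exp ((k : ℝ) ^ 2) * ∑ m ∈ Icc 1 (N ^ k), (ak k m : ℝ) ^ 2 * (m : ℝ) ^ (-(1 + α)) := by
        rw [Finset.mul_sum]
    _ ≤ Real.exp ((k : ℝ) ^ 2) * (1 + 1 / (1 + α - 1)) ^ (k ^ 2) := by gcongr
    _ = (Real.exp 1 * (1 + L / k)) ^ (k ^ 2) := by
        rw [mul_pow, ← Real.exp_nat_mul]
        congr 2
        · push_cast
          ring
        · have e1 : 1 + α - 1 = k / L := by rw [hα]; ring
          rw [e1, one_div_div]

/-- `D k N ≤ 0.9 L^(k²)` for `k ≥ 2` -/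
lemma dL (h : S_SQ) (h2 : S_D2) : ∃ N₀ : ℕ, ∀ N : ℕ, N₀ ≤ N → ∀ k : ℕ, 2 ≤ k →
    D k N ≤ 9 / 10 * Real.log N ^ (k ^ 2) := by
  obtain ⟨N₁, hN₁⟩ := h2
  have t : Filter.Tendsto (fun N : ℕ => Real.log (N : ℝ)) Filter.atTop Filter.atTop :=
    Real.tendsto_log_atTop.comp tendsto_natCast_atTop_atTop
  obtain ⟨N₂, hN₂⟩ := Filter.eventually_atTop.1 (t.eventually_ge_atTop 1000)
  refine ⟨max (max N₁ N₂) 3, fun N hN k hk => ?_⟩
  have hL := hN₂ N (by omega)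
  set L := Real.log N with hLd
  have hL0 : 0 < L := by linarith
  rcases Nat.lt_or_ge k 3 with hk3 | hk3
  · have hk2 : k = 2 := by omega
    subst hk2
    refine (hN₁ N (by omega)).trans ?_
    norm_num
    have : 0 < L ^ 4 := by positivity
    nlinarith
  · refine (db h k N (by omega) (by omega)).trans ?_
    have hk0 : (3 : ℝ) ≤ k := by exact_mod_cast hk3
    have he := Real.exp_one_lt_d9
    have h1 : Real.exp 1 * (1 + L / k) ≤ 95 / 100 * L := by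
      have h3 : L / k ≤ L / 3 := by gcongr
      have h4 : 0 < 1 + L / 3 := by positivity
      calc Real.exp 1 * (1 + L / k) ≤ 2.7182818286 * (1 + L / 3) := by
            refine mul_le_mul he.le (by linarith) (by positivity) (by norm_num)
        _ ≤ 95 / 100 * L := by nlinarith
    have h5 : (95 / 100 : ℝ) ^ (k ^ 2) ≤ 9 / 10 := by
      calc (95 / 100 : ℝ) ^ (k ^ 2) ≤ (95 / 100 : ℝ) ^ 9 := by
            refine pow_le_pow_of_le_one (by norm_num) (by norm_num) ?_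
            nlinarith
        _ ≤ 9 / 10 := by norm_num
    calc (Real.exp 1 * (1 + L / k)) ^ (k ^ 2) ≤ (95 / 100 * L) ^ (k ^ 2) :=
          pow_le_pow_left₀ (by positivity) h1 _
      _ = (95 / 100) ^ (k ^ 2) * L ^ (k ^ 2) := by rw [mul_pow]
      _ ≤ 9 / 10 * L ^ (k ^ 2) := by gcongr

end Pool.Agent.Q255.MK
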