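import Pool.Agent.Q255.MK.Stm2

/-!
# Project MK: many members of the family `n^(-ij)`, `N < j ≤ 2N`, have a large Euler product
-/

set_option autoImplicit false

open MeasureTheory Finset Filter Topology

namespace Pool.Agent.Q255.MK

open Q289.PAM Pool.Agent.Q255.RM Pool.Agent.Q255.FG

lemma tw_exp (t : ℝ) {n : ℕ} (hn : n ≠ 0) : tw t n = Complex.exp ((-(t * Real.log n) : ℝ) * Complex.I) := by
  unfold tw
  rw [Complex.cpow_def_of_ne_zero (by exact_mod_cast hn)]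
  congr 1
  rw [← Complex.natCast_log]
  push_cast
  ring

lemma norm_tw (t : ℝ) {n : ℕ} (hn : n ≠ 0) : ‖tw t n‖ = 1 := by
  rw [tw_exp t hn, Complex.norm_exp_ofReal_mul_I]

lemma norm_tw_le (t : ℝ) (n : ℕ) : ‖tw t n‖ ≤ 1 := by
  rcases Nat.eq_zero_or_pos n with h | h
  · subst h
    unfold tw
    rcases eq_or_ne (-(t * Complex.I) : ℂ) 0 with h0 | h0
    · rw [h0]; simp
    · rw [Nat.cast_zero, Complex.zero_cpow h0]; simp
  · rw [norm_tw t (by omega)]

lemma tw_cm (t : ℝ) : CM (tw t) := by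
  refine ⟨by simp [tw], fun m n => ?_, norm_tw_le t⟩
  unfold tw
  rw [Nat.cast_mul]
  exact Complex.natCast_mul_natCast_cpow m n _

lemma tw_star (s t : ℝ) {n : ℕ} (hn : n ≠ 0) : tw s n * star (tw t n) = tw (s - t) n := by
  rw [tw_exp s hn, tw_exp t hn, tw_exp (s - t) hn, Complex.star_def, ← Complex.exp_conj, ← Complex.exp_add]
  congr 1
  rw [map_mul, Complex.conj_ofReal, Complex.conj_I]
  push_cast
  ring

lemma tw_neg (t : ℝ) {n : ℕ} (hn : n ≠ 0) : tw (-t) n = star (tw t n) := by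
  have h := tw_star 0 t hn
  rw [zero_sub] at h
  rw [← h]
  have : tw 0 n = 1 := by simp [tw]
  rw [this, one_mul]

lemma tw_inj {i j : ℕ} (h : tw i = tw j) : i = j := by
  by_contra hne
  set d : ℝ := (i : ℝ) - j with hd
  have hd0 : d ≠ 0 := by
    rw [hd, sub_ne_zero]
    exact_mod_cast hne
  have h1 : ∀ n : ℕ, n ≠ 0 → tw d n = 1 := by
    intro n hn
    rw [hd, ← tw_star (i : ℝ) (j : ℝ) hn, h, Complex.star_def, Complex.mul_conj, Complex.normSq_eq_norm_sq,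
      norm_tw _ hn]
    norm_num
  obtain ⟨n, hn⟩ := exists_nat_gt (|d| + 1)
  have hn0 : n ≠ 0 := by
    rintro rfl
    have := abs_nonneg d
    norm_num at hn
    linarith
  have hnp : (0 : ℝ) < n := by exact_mod_cast Nat.pos_of_ne_zero hn0
  have h2 := h1 n hn0
  have h3 := h1 (n + 1) (by omega)
  rw [tw_exp d hn0, Complex.exp_eq_one_iff] at h2
  rw [tw_exp d (by omega), Complex.exp_eq_one_iff] at h3
  obtain ⟨a, ha⟩ := h2
  obtain ⟨b, hb⟩ := h3
  have h4 : d * (Real.log ((n + 1 : ℕ) : ℝ) - Real.log n) = 2 * Real.pi * (a - b) := by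
    have hre : ∀ (y : ℝ) (c : ℤ), ((y : ℝ) : ℂ) * Complex.I = c * (2 * Real.pi * Complex.I) → y = c * (2 * Real.pi) := by
      intro y c hyc
      have h13 : ((y : ℝ) : ℂ) = ((c * (2 * Real.pi) : ℝ) : ℂ) := by
        have h14 : ((y : ℝ) : ℂ) * Complex.I = ((c * (2 * Real.pi) : ℝ) : ℂ) * Complex.I := by
          rw [hyc]
          push_cast
          ring
        exact mul_right_cancel₀ Complex.I_ne_zero h14
      exact_mod_cast h13
    have ha' := hre _ a ha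
    have hb' := hre _ b hb
    linarith
  have h5 : Real.log ((n + 1 : ℕ) : ℝ) - Real.log n = Real.log (1 + 1 / n) := by
    rw [← Real.log_div (by positivity) hnp.ne']
    congr 1
    push_cast
    field_simp
  have h6 : 0 < Real.log (1 + 1 / (n : ℝ)) := Real.log_pos (by
    have : 0 < 1 / (n : ℝ) := by positivity
    linarith)
  have h7 : Real.log (1 + 1 / (n : ℝ)) ≤ 1 / n := by
    have := Real.log_le_sub_one_of_pos (show 0 < 1 + 1 / (n : ℝ) by positivity)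
    linarith
  rw [h5] at h4
  have h8 : |d * Real.log (1 + 1 / (n : ℝ))| < 1 := by
    rw [abs_mul, abs_of_pos h6]
    calc |d| * Real.log (1 + 1 / (n : ℝ)) ≤ |d| * (1 / n) := by gcongr
      _ = |d| / n := by ring
      _ < 1 := by
        rw [div_lt_one hnp]
        linarith
  rw [h4] at h8
  have h9 : (a : ℝ) - b = 0 := by
    by_contra h10
    have h11 : (1 : ℝ) ≤ |(a : ℝ) - b| := by
      have h12 : (a - b : ℤ) ≠ 0 := by
        intro h13
        apply h10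
        have : ((a - b : ℤ) : ℝ) = 0 := by rw [h13]; simp
        push_cast at this
        exact this
      have := Int.one_le_abs h12
      have h14 : (1 : ℝ) ≤ ((|a - b| : ℤ) : ℝ) := by exact_mod_cast this
      push_cast at h14
      exact h14
    rw [abs_mul, abs_of_pos (by positivity)] at h8
    have := Real.pi_gt_three
    nlinarith
  rw [h9, mul_zero] at h4
  exact (mul_ne_zero hd0 h6.ne') h4

open Classical in
/-- the members with large correlation with a given one are few -/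
lemma bad_card (h : S_BAD) {η : ℝ} (hη : 0 < η) (hη1 : η < 1 / 8) {ε : ℝ} (hε : 0 < ε) :
    ∃ N₀ : ℕ, ∀ N : ℕ, N₀ ≤ N → ∀ j ∈ Ioc N (2 * N),
      ((((Ioc N (2 * N)).image fun i : ℕ => tw i).filter fun b =>
        Real.exp (-(Real.log N ^ (η / 2))) < corr N η (tw j) b).card : ℝ) ≤ 1 + 2 * (N : ℝ) ^ ε := by
  obtain ⟨N₀, hN₀⟩ := h η hη hη1 ε hε
  refine ⟨N₀, fun N hN j hj => ?_⟩
  have hB := hN₀ N hN
  set B := (Icc 1 N).filter fun d : ℕ => Real.exp (-(Real.log N ^ (η / 2))) <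
      ‖∑ p ∈ mid N η, (((p : ℝ) ^ (-(1 + 2 * dl N)) : ℝ) : ℂ) * tw d p‖ with hBd
  rw [Finset.mem_Ioc] at hj
  have hcorr : ∀ x y : ℝ, corr N η (tw x) (tw y) ≤
      ‖∑ p ∈ mid N η, (((p : ℝ) ^ (-(1 + 2 * dl N)) : ℝ) : ℂ) * tw (x - y) p‖ := by
    intro x y
    have e1 : corr N η (tw x) (tw y) =
        (∑ p ∈ mid N η, (((p : ℝ) ^ (-(1 + 2 * dl N)) : ℝ) : ℂ) * tw (x - y) p).re := by
      unfold corr
      rw [Complex.re_sum]
      refine Finset.sum_congr rfl fun p hp => ?_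
      rw [tw_star x y (mid_prime hp).ne_zero, Complex.re_ofReal_mul]
    rw [e1]
    exact Complex.re_le_norm _
  have hneg : ∀ x : ℝ, ‖∑ p ∈ mid N η, (((p : ℝ) ^ (-(1 + 2 * dl N)) : ℝ) : ℂ) * tw (-x) p‖ =
      ‖∑ p ∈ mid N η, (((p : ℝ) ^ (-(1 + 2 * dl N)) : ℝ) : ℂ) * tw x p‖ := by
    intro x
    rw [← norm_star (∑ p ∈ mid N η, (((p : ℝ) ^ (-(1 + 2 * dl N)) : ℝ) : ℂ) * tw x p), star_sum]
    congr 1
    refine Finset.sum_congr rfl fun p hp => ?_
    rw [tw_neg x (mid_prime hp).ne_zero, star_mul, Complex.star_def, Complex.conj_ofReal]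
    ring
  have hsub : (((Ioc N (2 * N)).image fun i : ℕ => tw i).filter fun b =>
        Real.exp (-(Real.log N ^ (η / 2))) < corr N η (tw j) b) ⊆
      {tw j} ∪ (B.image (fun d : ℕ => tw ((j : ℝ) - d)) ∪ B.image (fun d : ℕ => tw ((j : ℝ) + d))) := by
    intro b hb
    rw [Finset.mem_filter, Finset.mem_image] at hb
    obtain ⟨⟨i, hi, rfl⟩, hb2⟩ := hb
    rw [Finset.mem_Ioc] at hi
    have h1 := hb2.trans_le (hcorr j i)
    rcases lt_trichotomy i j with hij | hij | hij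
    · refine Finset.mem_union_right _ (Finset.mem_union_left _ (Finset.mem_image.2 ⟨j - i, ?_, ?_⟩))
      · rw [hBd, Finset.mem_filter, Finset.mem_Icc]
        refine ⟨⟨by omega, by omega⟩, ?_⟩
        rw [Nat.cast_sub hij.le]
        exact h1
      · rw [Nat.cast_sub hij.le]
        congr 1
        ring
    · subst hij
      exact Finset.mem_union_left _ (Finset.mem_singleton_self _)
    · refine Finset.mem_union_right _ (Finset.mem_union_right _ (Finset.mem_image.2 ⟨i - j, ?_, ?_⟩))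
      · rw [hBd, Finset.mem_filter, Finset.mem_Icc]
        refine ⟨⟨by omega, by omega⟩, ?_⟩
        rw [← hneg, Nat.cast_sub hij.le, neg_sub]
        exact h1
      · rw [Nat.cast_sub hij.le]
        congr 1
        ring
  have hc := Finset.card_le_card hsub
  have h2 : (((Ioc N (2 * N)).image fun i : ℕ => tw i).filter fun b =>
        Real.exp (-(Real.log N ^ (η / 2))) < corr N η (tw j) b).card ≤ 1 + (B.card + B.card) := by
    refine hc.trans ((Finset.card_union_le _ _).trans ?_)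
    rw [Finset.card_singleton]
    refine Nat.add_le_add_left ((Finset.card_union_le _ _).trans ?_) _
    exact Nat.add_le_add Finset.card_image_le Finset.card_image_le
  have h3 : ((1 + (B.card + B.card) : ℕ) : ℝ) ≤ 1 + 2 * (N : ℝ) ^ ε := by
    push_cast
    linarith
  exact (Nat.cast_le.2 h2).trans h3

open Classical in
theorem famz (hLG : S_LG) (hA : S_A1) (hE : S_EXPM) (hLS : S_LS) (hBAD : S_BAD) :
    ∀ ε : ℝ, 0 < ε → ε ≤ 1 → ∃ c : ℝ, 0 < c ∧ ∃ N₀ : ℕ, ∀ N : ℕ, N₀ ≤ N → ∀ v : ℝ, ε ≤ v → v ≤ 2 →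
      2 * v ^ 2 + ε ≤ 1 →
      PT.real {ω | (((Ioc N (2 * N)).filter fun j : ℕ => big v N ≤ ‖EP ω N (tw j) (dl N)‖).card : ℝ) <
        (N : ℝ) ^ (1 - 2 * v ^ 2 - ε)} ≤ Real.exp (-(Real.log N ^ c)) := by
  intro ε hε hε1
  obtain ⟨e, he⟩ : ∃ e, e = ε / 400 := ⟨_, rfl⟩
  obtain ⟨η, hη⟩ : ∃ η, η = e / 6 := ⟨_, rfl⟩
  have he0 : 0 < e := by rw [he]; positivity
  have he1 : e ≤ 1 / 400 := by rw [he]; linarith
  have hη0 : 0 < η := by rw [hη]; positivity
  have hη1 : η < 1 / 8 := by rw [hη]; linarith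
  obtain ⟨N₁, hN₁⟩ := ev_params hA hε hε1 he hη
  obtain ⟨N₂, hN₂⟩ := bad_card hBAD hη0 hη1 (show 0 < ε / 16 by positivity)
  have hpow : Tendsto (fun N : ℕ => (N : ℝ) ^ (ε / 16)) atTop atTop :=
    (tendsto_rpow_atTop (show 0 < ε / 16 by positivity)).comp tendsto_natCast_atTop_atTop
  obtain ⟨N₃, hN₃⟩ := eventually_atTop.1 (hpow.eventually_ge_atTop 3)
  refine ⟨η / 4, by positivity, max (max N₁ N₂) N₃, fun N hN v hv1 hv2 hv3 => ?_⟩
  obtain ⟨hL1, hl1, hs1, hs2, hsm, hml, hθ0, hc0, hl2, h4⟩ :=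
    hN₁ N (le_trans (le_max_left _ _) ((le_max_left _ _).trans hN))
  have hL0' : 0 ≤ Real.log N := by linarith
  have hNpos : 0 < N := by
    rcases Nat.eq_zero_or_pos N with h | h
    · subst h
      rw [Nat.cast_zero, Real.log_zero] at hL1
      linarith
    · exact h
  have hN0 : (0 : ℝ) < N := by exact_mod_cast hNpos
  obtain ⟨lam, hlam⟩ : ∃ lam, lam = Real.exp (-(Real.log N ^ (η / 2))) := ⟨_, rfl⟩
  obtain ⟨mu, hmu⟩ : ∃ mu, mu = Real.exp (-(Real.log N ^ η) / 2) := ⟨_, rfl⟩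
  obtain ⟨g, hg⟩ : ∃ g, g = Real.exp (-(Real.log N ^ (η / 4))) := ⟨_, rfl⟩
  obtain ⟨s, hs⟩ : ∃ s, s = ss N η := ⟨_, rfl⟩
  rw [← hs] at hs1 hs2
  rw [← hlam, ← hmu] at hml
  rw [← hmu] at hsm
  rw [← hlam, ← hg] at hθ0
  rw [← hg] at hc0 ⊢
  obtain ⟨k, κ, hk0, hs0, hκ0, hκe, hk2s, hk2, hk5, hk3, hmain, hR0, hK⟩ :=
    par hε hε1 he hη hL1 hl1 hs1 hv1 hv2 hl2
  have hmu0 : 0 < mu := by rw [hmu]; exact Real.exp_pos _
  have hlam0 : 0 < lam := by rw [hlam]; exact Real.exp_pos _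
  have hg0 : 0 < g := by rw [hg]; exact Real.exp_pos _
  have hg1 : g ≤ 1 := by
    rw [hg]
    apply Real.exp_le_one_iff.2
    have : 0 ≤ Real.log N ^ (η / 4) := by positivity
    linarith
  have hsp : 0 < s := by linarith
  have hsm4 : 4 * k * Real.exp (-(Real.log N ^ η) / 2) ≤ 1 := by
    rw [← hmu]
    have : 4 * k * mu ≤ 20 * Real.sqrt (Real.log N) * mu := mul_le_mul_of_nonneg_right (by linarith) hmu0.le
    linarith
  obtain ⟨θ, hθ⟩ : ∃ θ, θ = 2 * k ^ 2 * lam + 256 * k ^ 3 * mu := ⟨_, rfl⟩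
  have hθle : 800 * θ ≤ g := by
    rw [hθ]
    exact thb hk0 hL1 hk2 hk3 hmu0 hlam0 hml hθ0
  have hθ4 : θ ≤ 1 / 4 := by linarith
  have hd0 : 0 < dl N := by
    unfold dl
    have h1 : 0 < Real.log N := by linarith
    have h2 : 0 < Real.log (Real.log N) := by linarith
    positivity
  have hB := Bb (N := N) rfl rfl hL1 hl1 hθ4
  have hNp : ∀ x : ℝ, (N : ℝ) ^ x = Real.exp (Real.log N * x) := fun x => by
    rw [Real.rpow_def_of_pos hN0]
  -- the family
  obtain ⟨I, hId⟩ : ∃ I, I = (Ioc N (2 * N)).image fun i : ℕ => tw i := ⟨_, rfl⟩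
  have hinj : Set.InjOn (fun i : ℕ => tw (i : ℝ)) (Ioc N (2 * N) : Finset ℕ) := fun i _ j _ hij => tw_inj hij
  have hIcard : I.card = N := by
    rw [hId, Finset.card_image_of_injOn hinj, Nat.card_Ioc]
    omega
  have hIR : (I.card : ℝ) = N := by rw [hIcard]
  have hM : Real.exp (Real.log N * (2 * v ^ 2 + ε)) ≤ I.card := by
    rw [hIR, ← hNp]
    calc (N : ℝ) ^ (2 * v ^ 2 + ε) ≤ (N : ℝ) ^ (1 : ℝ) :=
          Real.rpow_le_rpow_of_exponent_le (by exact_mod_cast hNpos) hv3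
      _ = N := Real.rpow_one _
  have hM0 : (0 : ℝ) < I.card := lt_of_lt_of_le (Real.exp_pos _) hM
  have hIne : I.Nonempty := by
    rw [← Finset.card_pos]
    exact_mod_cast hM0
  have hI : ∀ a ∈ I, CM a ∧ ∀ p ∈ mid N η, ‖a p‖ = 1 := by
    intro a ha
    rw [hId, Finset.mem_image] at ha
    obtain ⟨i, -, rfl⟩ := ha
    exact ⟨tw_cm i, fun p hp => norm_tw i (mid_prime hp).ne_zero⟩
  have hbad' : ∀ a ∈ I, ((I.filter fun b => Real.exp (-(Real.log N ^ (η / 2))) < corr N η a b).card : ℝ) ≤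
      Real.exp (Real.log N * (ε / 8)) := by
    intro a ha
    rw [hId, Finset.mem_image] at ha
    obtain ⟨i, hi, rfl⟩ := ha
    have h5 := hN₂ N (le_trans (le_max_right _ _) ((le_max_left _ _).trans hN)) i hi
    rw [hId]
    have h6 := hN₃ N ((le_max_right _ _).trans hN)
    have h7 : 1 + 2 * (N : ℝ) ^ (ε / 16) ≤ (N : ℝ) ^ (ε / 16) * (N : ℝ) ^ (ε / 16) := by nlinarith
    rw [← Real.rpow_add hN0, show ε / 16 + ε / 16 = ε / 8 by ring, hNp (ε / 8)] at h7
    refine le_trans (le_of_eq ?_) (h5.trans h7)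
    congr!
  obtain ⟨Λ, hΛ⟩ : ∃ Λ, Λ = Real.exp (2 * e * (k * s)) := ⟨_, rfl⟩
  have hΛ0 : 0 < Λ := by rw [hΛ]; exact Real.exp_pos _
  have key := ls_app hA hE hLS hIne hk0 hsp he0 (by linarith) hlam hmu hθ hθ4
    (show 0 < 2 * Real.log N by linarith) hΛ0 (Real.exp_pos (Real.log N * (ε / 8))).le hs hL0' hsm4 hd0 hB hI hbad'
  obtain ⟨q1, q2, q3, q4⟩ := fin_num hε hε1 he hL1 hκ0 hκe hk2s hK hM hc0
  rw [← hΛ] at q2
  obtain ⟨E₁, hE₁⟩ : ∃ E₁ : Set Om, E₁ = {ω | ((I.filter fun i => (1 - e) * k * s ≤ XX N η i ω ∧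
    YY N η i ω ≤ Λ).card : ℝ) < (I.card : ℝ) / 4 * Real.exp (-((1 + 2 * e) * (k ^ 2 * s)))} := ⟨_, rfl⟩
  rw [← hE₁] at key
  have hbigv : big v N = Real.exp (v * Real.sqrt (Real.log N * Real.log (Real.log N))) := rfl
  have hsqΛ : (Real.sqrt Λ)⁻¹ = Real.exp (-(e * (k * s))) := by
    rw [hΛ, show 2 * e * (k * s) = e * (k * s) + e * (k * s) by ring, Real.exp_add,
      Real.sqrt_mul_self (Real.exp_pos _).le, Real.exp_neg]
  have hgood : ∀ ω : Om, ∀ a ∈ I, (1 - e) * k * s ≤ XX N η a ω → YY N η a ω ≤ Λ →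
      big v N ≤ ‖EP ω N a (dl N)‖ := by
    intro ω a ha hX hY
    have h3 := prod_lower hLG N η a (hI a ha).1.2.2 ω Λ hΛ0 hY
    refine le_trans ?_ h3
    rw [hsqΛ, ← Real.exp_add, hbigv]
    apply Real.exp_le_exp.2
    have h5 : ∑ p ∈ mid N η, (p : ℝ) ^ (-(1 + 2 * dl N)) = s := by rw [hs]; rfl
    rw [h5]
    have h6 : (1 - e) * k * s = (1 - e) * (k * s) := by ring
    rw [h6] at hX
    linarith
  have hsub : {ω | (((Ioc N (2 * N)).filter fun j : ℕ => big v N ≤ ‖EP ω N (tw j) (dl N)‖).card : ℝ) <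
        (N : ℝ) ^ (1 - 2 * v ^ 2 - ε)} ⊆ E₁ := by
    intro ω hω
    by_contra hn1
    rw [hE₁, Set.mem_ofPred_eq, not_lt] at hn1
    apply absurd hω
    rw [Set.mem_ofPred_eq, not_lt]
    have hcard : ((I.filter fun i => (1 - e) * k * s ≤ XX N η i ω ∧ YY N η i ω ≤ Λ).card : ℝ) ≤
        (((Ioc N (2 * N)).filter fun j : ℕ => big v N ≤ ‖EP ω N (tw j) (dl N)‖).card : ℝ) := by
      apply Nat.cast_le.2
      have h8 : (I.filter fun i => (1 - e) * k * s ≤ XX N η i ω ∧ YY N η i ω ≤ Λ) ⊆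
          (((Ioc N (2 * N)).filter fun j : ℕ => big v N ≤ ‖EP ω N (tw j) (dl N)‖).image fun i : ℕ => tw i) := by
        intro a ha
        rw [Finset.mem_filter] at ha
        have ha1 := ha.1
        rw [hId, Finset.mem_image] at ha1
        obtain ⟨i, hi, rfl⟩ := ha1
        exact Finset.mem_image.2 ⟨i, Finset.mem_filter.2 ⟨hi, hgood ω _ ha.1 ha.2.1 ha.2.2⟩, rfl⟩
      exact (Finset.card_le_card h8).trans Finset.card_image_le
    refine le_trans ?_ (hn1.trans hcard)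
    rw [hNp, hk2s, hIR]
    have h1 : Real.exp (Real.log N * -(2 * v ^ 2 + ε)) * 4 ≤ Real.exp (-((1 + 2 * e) * (κ * Real.log N))) := by
      have h2 : Real.exp (Real.log N * -(2 * v ^ 2 + ε)) * 4 ≤
          Real.exp (Real.log N * -(2 * v ^ 2 + ε)) * Real.exp (0.6 * ε * Real.log N) :=
        mul_le_mul_of_nonneg_left h4 (Real.exp_pos _).le
      refine h2.trans ?_
      rw [← Real.exp_add]
      apply Real.exp_le_exp.2
      have h3 : (1 + 2 * e) * κ * Real.log N ≤ (2 * v ^ 2 + 0.4 * ε) * Real.log N :=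
        mul_le_mul_of_nonneg_right hκe hL0'
      linarith
    have h9 : Real.exp (Real.log N * (1 - 2 * v ^ 2 - ε)) = N * Real.exp (Real.log N * -(2 * v ^ 2 + ε)) := by
      conv_rhs => rw [← Real.exp_log hN0]
      rw [← Real.exp_add, Real.exp_log hN0]
      congr 1
      ring
    rw [h9]
    calc (N : ℝ) * Real.exp (Real.log N * -(2 * v ^ 2 + ε)) =
        (N : ℝ) / 4 * (Real.exp (Real.log N * -(2 * v ^ 2 + ε)) * 4) := by ring
      _ ≤ _ := mul_le_mul_of_nonneg_left h1 (by positivity)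
  calc PT.real _ ≤ PT.real E₁ := measureReal_mono hsub (measure_ne_top _ _)
    _ ≤ 100 * (θ + Real.exp (-(e ^ 2 * (k ^ 2 * s))) + 2 * Real.log N / Λ +
        Real.exp (Real.log N * (ε / 8)) * Real.exp ((1 + 2 * e) * (k ^ 2 * s)) / I.card) := key
    _ ≤ g := by linarith

end Pool.Agent.Q255.MK
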