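import Pool.Agent.Q255.MK.Large
import Pool.Agent.Q255.FG.U0

/-!
# Project MK: all integers `k`
-/

set_option autoImplicit false

open MeasureTheory Finset Filter Topology

namespace Pool.Agent.Q255.MK

open Q289.PAM Pool.Agent.Q255.RM

lemma norm_Z_le (ω : Om) (t : ℝ) (ht : 0 ≤ t) : ‖Z ω t‖ ≤ 2 * Real.sqrt t := by
  unfold Z
  calc ‖∑ n ∈ Icc 1 ⌊t⌋₊, f ω n * g t n‖ ≤ ∑ n ∈ Icc 1 ⌊t⌋₊, (Real.sqrt (n : ℕ))⁻¹ := by
        refine (norm_sum_le _ _).trans (Finset.sum_le_sum fun n hn => ?_)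
        rw [Finset.mem_Icc] at hn
        rw [norm_mul, norm_f, one_mul, norm_g t (by omega)]
    _ ≤ 2 * Real.sqrt (⌊t⌋₊ : ℕ) := Pool.Agent.Q255.FG.sum_inv_sqrt _
    _ ≤ 2 * Real.sqrt t := by
        have := Real.sqrt_le_sqrt (Nat.floor_le ht)
        linarith

lemma intZ_real (k : ℕ) (ω : Om) (T : ℝ) (hT : 0 ≤ T) :
    IntervalIntegrable (fun t => ‖Z ω t‖ ^ (2 * k)) volume 0 T := by
  refine (intZ k ω ⌈T⌉₊).mono_set ?_
  rw [Set.uIcc_of_le hT, Set.uIcc_of_le (Nat.cast_nonneg _)]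
  exact Set.Icc_subset_Icc_right (Nat.le_ceil T)

lemma int_mono (k : ℕ) (ω : Om) {T U : ℝ} (hT : 0 ≤ T) (h : T ≤ U) :
    ∫ t in (0 : ℝ)..T, ‖Z ω t‖ ^ (2 * k) ≤ ∫ t in (0 : ℝ)..U, ‖Z ω t‖ ^ (2 * k) := by
  refine intervalIntegral.integral_mono_interval le_rfl hT h ?_ (intZ_real k ω U (hT.trans h))
  exact Eventually.of_forall fun t => by positivity

lemma trivial_bound (k : ℕ) (ω : Om) (T : ℝ) (hT : 0 ≤ T) :
    ∫ t in (0 : ℝ)..T, ‖Z ω t‖ ^ (2 * k) ≤ T * (4 * T) ^ k := by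
  calc ∫ t in (0 : ℝ)..T, ‖Z ω t‖ ^ (2 * k) ≤ ∫ _t in (0 : ℝ)..T, (4 * T) ^ k := by
        refine intervalIntegral.integral_mono_on hT (intZ_real k ω T hT) intervalIntegrable_const
          fun t ht => ?_
        have h1 : ‖Z ω t‖ ≤ 2 * Real.sqrt T :=
          (norm_Z_le ω t ht.1).trans (by have := Real.sqrt_le_sqrt ht.2; linarith)
        calc ‖Z ω t‖ ^ (2 * k) ≤ (2 * Real.sqrt T) ^ (2 * k) := pow_le_pow_left₀ (norm_nonneg _) h1 _
          _ = (4 * T) ^ k := by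
              rw [pow_mul, mul_pow, Real.sq_sqrt hT]
              norm_num
    _ = T * (4 * T) ^ k := by
        rw [intervalIntegral.integral_const, smul_eq_mul, sub_zero]

lemma kk_mono {x y : ℝ} (hx : 3 ≤ x) (h : x ≤ y) : kk x ≤ kk y := by
  unfold kk
  have h0 : 1 < Real.log x := by
    rw [Real.lt_log_iff_exp_lt (by linarith)]
    have := Real.exp_one_lt_d9
    linarith
  have h1 : Real.log x ≤ Real.log y := Real.log_le_log (by linarith) h
  have h2 : Real.log (Real.log x) ≤ Real.log (Real.log y) := Real.log_le_log (by linarith) h1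
  have := Real.sqrt_le_sqrt h2
  linarith

lemma kk_double {x : ℝ} (hx : 3 ≤ x) : kk (2 * x) ≤ kk x + 2 := by
  unfold kk
  have h0 : 1 < Real.log x := by
    rw [Real.lt_log_iff_exp_lt (by linarith)]
    have := Real.exp_one_lt_d9
    linarith
  have hl2 : Real.log 2 ≤ 1 := by
    have := Real.log_two_lt_d9
    linarith
  have h1 : Real.log (2 * x) ≤ 2 * Real.log x := by
    rw [Real.log_mul (by norm_num) (by linarith)]
    linarith
  have hp : 0 < Real.log (2 * x) := by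
    rw [Real.log_mul (by norm_num) (by linarith)]
    have := Real.log_two_gt_d9
    linarith
  have h2 : Real.log (Real.log (2 * x)) ≤ Real.log (Real.log x) + 1 := by
    refine (Real.log_le_log hp h1).trans ?_
    rw [Real.log_mul (by norm_num) (by linarith)]
    linarith
  have h3 : 0 ≤ Real.log (Real.log x) := Real.log_nonneg h0.le
  have h4 : Real.sqrt (Real.log (Real.log (2 * x))) ≤ Real.sqrt (Real.log (Real.log x)) + 1 := by
    rw [Real.sqrt_le_left (by positivity)]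
    have := Real.sq_sqrt h3
    nlinarith [Real.sqrt_nonneg (Real.log (Real.log x))]
  linarith

/-- elementary comparisons for large `T` -/
lemma ev_T : ∀ᶠ T : ℝ in atTop, 10000 ≤ T ∧ 1000 ≤ Real.log T ∧
    (Real.log T + 1) ^ 2 * (3 / Real.sqrt T) ≤ 1 / 100 ∧ (2 * T) ^ (9 / 10 : ℝ) ≤ 1 / 100 * T := by
  have t1 : Tendsto (fun T : ℝ => Real.log T) atTop atTop := Real.tendsto_log_atTop
  have o1 := (isLittleO_log_rpow_atTop (show (0 : ℝ) < 1 / 8 by norm_num)).bound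
    (show (0 : ℝ) < 1 / 1000 by norm_num)
  have t2 := tendsto_rpow_atTop (show (0 : ℝ) < 1 / 10 by norm_num)
  have t3 := tendsto_rpow_atTop (show (0 : ℝ) < 1 / 8 by norm_num)
  filter_upwards [t1.eventually_ge_atTop 1000, o1, t2.eventually_ge_atTop 200,
    t3.eventually_ge_atTop 1000, eventually_ge_atTop (10000 : ℝ)] with T h1 h2 h3 h4 h5
  have hT0 : 0 < T := by linarith
  rw [Real.norm_of_nonneg (by linarith), Real.norm_of_nonneg (by positivity)] at h2
  refine ⟨h5, h1, ?_, ?_⟩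
  · have hs : Real.sqrt T = (T ^ (1 / 8 : ℝ)) ^ 4 := by
      rw [← Real.rpow_natCast, ← Real.rpow_mul hT0.le, Real.sqrt_eq_rpow]
      norm_num
    rw [hs]
    set u := T ^ (1 / 8 : ℝ) with hu
    have h6 : Real.log T + 1 ≤ 2 / 1000 * u := by linarith
    have h7 : (Real.log T + 1) ^ 2 ≤ (2 / 1000 * u) ^ 2 := pow_le_pow_left₀ (by linarith) h6 2
    have hu0 : 0 < u := by linarith
    rw [mul_div_assoc', div_le_iff₀ (by positivity)]
    have h8 : u ^ 2 ≤ u ^ 4 := by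
      have : 1 ≤ u ^ 2 := one_le_pow₀ (by linarith)
      nlinarith [sq_nonneg u]
    nlinarith
  · have h6 : (2 * T) ^ (9 / 10 : ℝ) ≤ 2 * T ^ (9 / 10 : ℝ) := by
      rw [Real.mul_rpow (by norm_num) hT0.le]
      have : (2 : ℝ) ^ (9 / 10 : ℝ) ≤ 2 ^ (1 : ℝ) := Real.rpow_le_rpow_of_exponent_le (by norm_num) (by norm_num)
      rw [Real.rpow_one] at this
      gcongr
    have h7 : T = T ^ (9 / 10 : ℝ) * T ^ (1 / 10 : ℝ) := by
      rw [← Real.rpow_add hT0]
      norm_num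
    have h8 : 0 < T ^ (9 / 10 : ℝ) := by positivity
    calc (2 * T) ^ (9 / 10 : ℝ) ≤ 2 * T ^ (9 / 10 : ℝ) := h6
      _ ≤ 1 / 100 * (T ^ (9 / 10 : ℝ) * T ^ (1 / 10 : ℝ)) := by nlinarith
      _ = 1 / 100 * T := by rw [← h7]

/-- powers at `N`, `T ≤ N ≤ T + 3 √T` -/
lemma pow_cmp {T N x x' : ℝ} {k : ℕ} (hx : 1 ≤ x) (hx' : x' ≤ x + 3 / Real.sqrt T)
    (hT : 0 < T) (hk : (k : ℝ) ^ 2 * (3 / Real.sqrt T) ≤ 1 / 100) (hx0 : 0 ≤ x') :
    x' ^ (k ^ 2) ≤ 102 / 100 * x ^ (k ^ 2) := by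
  set y := 3 / Real.sqrt T with hy
  have hy0 : 0 ≤ y := by positivity
  have h1 : x' ≤ x * Real.exp y := by
    have := Real.add_one_le_exp y
    nlinarith
  calc x' ^ (k ^ 2) ≤ (x * Real.exp y) ^ (k ^ 2) := pow_le_pow_left₀ hx0 h1 _
    _ = x ^ (k ^ 2) * Real.exp ((k : ℝ) ^ 2 * y) := by
        rw [mul_pow, ← Real.exp_nat_mul]
        push_cast
        ring_nf
    _ ≤ x ^ (k ^ 2) * (102 / 100) := by
        have h2 : Real.exp ((k : ℝ) ^ 2 * y) ≤ 102 / 100 := by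
          calc Real.exp ((k : ℝ) ^ 2 * y) ≤ Real.exp (1 / 100) := Real.exp_le_exp.2 hk
            _ ≤ 102 / 100 := by
              have := Real.exp_bound' (x := 1 / 100) (by norm_num) (by norm_num) (n := 1) (by norm_num)
              norm_num at this
              linarith
        have : 0 ≤ x ^ (k ^ 2) := by positivity
        gcongr
    _ = 102 / 100 * x ^ (k ^ 2) := by ring

theorem ints (h : S_SQ) (h2 : S_D2) (hK : S_DKB) (hF : S_FUB) : ∀ᵐ ω ∂PT, ∃ T₀ : ℝ, 3 ≤ T₀ ∧ ∀ T : ℝ, T₀ ≤ T →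
    ∀ k : ℕ, 1 ≤ k → ∫ t in (0 : ℝ)..T, ‖Z ω t‖ ^ (2 * k) ≤ T * bs T k ^ (k ^ 2) ∧
      (2 ≤ k → ∫ t in (0 : ℝ)..T, ‖Z ω t‖ ^ (2 * k) ≤ T * Real.log T ^ (k ^ 2)) := by
  obtain ⟨N₁, hN₁⟩ := dL h h2
  obtain ⟨N₂, hN₂⟩ := eventually_atTop.1 (tL.eventually (ev_L 1 one_pos))
  obtain ⟨T₁, hT₁⟩ := eventually_atTop.1 ev_T
  obtain ⟨r₁, hr₁⟩ := eventually_atTop.1 ev_r
  have hkkbig : Tendsto (fun x : ℝ => kk x) atTop atTop := by
    unfold kk
    refine Tendsto.const_mul_atTop (by norm_num) ?_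
    exact Real.tendsto_sqrt_atTop.comp (Real.tendsto_log_atTop.comp Real.tendsto_log_atTop)
  obtain ⟨T₂, hT₂⟩ := eventually_atTop.1 (hkkbig.eventually_ge_atTop 20)
  filter_upwards [small_as hK, large_as h hF] with ω hs hl
  obtain ⟨i₀, hi₀⟩ := eventually_atTop.1 hs
  obtain ⟨r₂, hr₂⟩ := eventually_atTop.1 hl
  refine ⟨max (max (max T₁ T₂) (max ((i₀ : ℝ) ^ 2) (2 ^ (max r₁ r₂ + 1)))) (max (max N₁ N₂) 3), ?_, ?_⟩
  · exact le_max_of_le_right (le_max_right _ _)
  intro T hT k hk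
  have hT1 : T₁ ≤ T := le_trans (le_trans (le_trans (le_max_left _ _) (le_max_left _ _)) (le_max_left _ _)) hT
  have hT2 : T₂ ≤ T := le_trans (le_trans (le_trans (le_max_right _ _) (le_max_left _ _)) (le_max_left _ _)) hT
  have hTi : (i₀ : ℝ) ^ 2 ≤ T := le_trans (le_trans (le_trans (le_max_left _ _) (le_max_right _ _)) (le_max_left _ _)) hT
  have hTr : (2 : ℝ) ^ (max r₁ r₂ + 1) ≤ T := le_trans (le_trans (le_trans (le_max_right _ _) (le_max_right _ _)) (le_max_left _ _)) hT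
  have hTN1 : (N₁ : ℝ) ≤ T := le_trans (le_trans (le_trans (by exact_mod_cast le_max_left _ _) (le_max_left _ _)) (le_max_right _ _)) hT
  have hTN2 : (N₂ : ℝ) ≤ T := le_trans (le_trans (le_trans (by exact_mod_cast le_max_right _ _) (le_max_left _ _)) (le_max_right _ _)) hT
  obtain ⟨hTa, hTb, hTc, hTd⟩ := hT₁ T hT1
  have hT0 : 0 < T := by linarith
  have hTone : 1 ≤ T := by linarith
  -- the dyadic interval
  obtain ⟨r, hr⟩ : ∃ r : ℕ, r = Nat.log 2 ⌊T⌋₊ := ⟨_, rfl⟩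
  have hfl : ⌊T⌋₊ ≠ 0 := by
    have : 1 ≤ ⌊T⌋₊ := Nat.le_floor (by exact_mod_cast hTone)
    omega
  have hr1 : (2 : ℝ) ^ r ≤ T := by
    have h3 : 2 ^ r ≤ ⌊T⌋₊ := by rw [hr]; exact Nat.pow_log_le_self 2 hfl
    have h4 : ((2 ^ r : ℕ) : ℝ) ≤ T := (Nat.cast_le.2 h3).trans (Nat.floor_le hT0.le)
    exact_mod_cast h4
  have hr2 : T ≤ (2 : ℝ) ^ (r + 1) := by
    have h3 : ⌊T⌋₊ < 2 ^ (r + 1) := by rw [hr]; exact Nat.lt_pow_succ_log_self (by norm_num) _
    have h4 : T < ((2 ^ (r + 1) : ℕ) : ℝ) := (Nat.lt_floor_add_one T).trans_le (by exact_mod_cast h3)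
    exact (by exact_mod_cast h4.le)
  have hrr : max r₁ r₂ ≤ r := by
    have h3 : (2 : ℝ) ^ (max r₁ r₂ + 1) ≤ (2 : ℝ) ^ (r + 1) := hTr.trans hr2
    have h4 := (pow_le_pow_iff_right₀ (show (1 : ℝ) < 2 by norm_num)).1 h3
    omega
  obtain ⟨hr3, hr4, -⟩ := hr₁ r (le_trans (le_max_left _ _) hrr)
  have hE2 : ω ∉ E2 r := hr₂ r (le_trans (le_max_right _ _) hrr)
  have h2r : (3 : ℝ) ≤ (2 : ℝ) ^ r := by
    calc (3 : ℝ) ≤ 2 ^ 3 := by norm_num
      _ ≤ 2 ^ r := pow_le_pow_right₀ (by norm_num) hr3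
  have hbs1 := bs_ge T hTone k
  have he2 : (1 : ℝ) ≤ Real.exp 2 := Real.one_le_exp (by norm_num)
  rcases lt_or_ge (k : ℝ) (kk ((2 : ℝ) ^ (r + 1))) with hc | hc
  · -- small orders
    obtain ⟨i, hi⟩ : ∃ i : ℕ, i = ⌈Real.sqrt T⌉₊ := ⟨_, rfl⟩
    have hi1 : Real.sqrt T ≤ i := by rw [hi]; exact Nat.le_ceil _
    have hi2 : (i : ℝ) ≤ Real.sqrt T + 1 := by rw [hi]; exact (Nat.ceil_lt_add_one (Real.sqrt_nonneg _)).le
    have hsq := Real.sq_sqrt hT0.le
    have hs100 : 100 ≤ Real.sqrt T := Real.le_sqrt_of_sq_le (by linarith)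
    have hi0 : i₀ ≤ i := by
      have h3 : (i₀ : ℝ) ≤ Real.sqrt T := Real.le_sqrt_of_sq_le hTi
      exact_mod_cast h3.trans hi1
    have hE1 : ω ∉ E1 (i ^ 2) := hi₀ i hi0
    have hN1 : T ≤ ((i ^ 2 : ℕ) : ℝ) := by
      push_cast
      nlinarith
    have hN2 : ((i ^ 2 : ℕ) : ℝ) ≤ T + 3 * Real.sqrt T := by
      push_cast
      nlinarith
    set N : ℕ := i ^ 2 with hN
    have hN0 : (0 : ℝ) < N := by linarith
    have hy : 3 * Real.sqrt T = T * (3 / Real.sqrt T) := by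
      rw [mul_div_assoc', eq_div_iff (by linarith)]
      nlinarith
    have hlogN : Real.log N ≤ Real.log T + 3 / Real.sqrt T := by
      have h3 : (N : ℝ) ≤ T * (1 + 3 / Real.sqrt T) := by nlinarith
      calc Real.log N ≤ Real.log (T * (1 + 3 / Real.sqrt T)) := Real.log_le_log hN0 h3
        _ = Real.log T + Real.log (1 + 3 / Real.sqrt T) := by
            rw [Real.log_mul hT0.ne' (by positivity)]
        _ ≤ Real.log T + 3 / Real.sqrt T := by
            have := Real.log_le_sub_one_of_pos (show 0 < 1 + 3 / Real.sqrt T by positivity)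
            linarith
    have hyl : 3 / Real.sqrt T ≤ 3 / 100 := by
      apply div_le_div_of_nonneg_left (by norm_num) (by norm_num) hs100
    have hkN : (k : ℝ) ≤ kk N + 2 := by
      have h3 : kk ((2 : ℝ) ^ (r + 1)) ≤ kk ((2 : ℝ) ^ r) + 2 := by
        rw [pow_succ, mul_comm]
        exact kk_double h2r
      have h4 : kk ((2 : ℝ) ^ r) ≤ kk N := kk_mono h2r (hr1.trans hN1)
      linarith
    have hRN : R k ω N ≤ (N : ℝ) ^ (9 / 10 : ℝ) := by
      by_contra hcon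
      push Not at hcon
      exact hE1 ⟨k, hkN, hcon.le.trans (le_abs_self _)⟩
    have hN3 : N₁ ≤ N := by exact_mod_cast hTN1.trans hN1
    have hN4 : N₂ ≤ N := by exact_mod_cast hTN2.trans hN1
    obtain ⟨-, hN5, -, -⟩ := hN₂ N hN4
    have hkL : (k : ℝ) ≤ Real.log T + 1 := by
      have h3 : kk N = 2 * Real.sqrt (Real.log (Real.log N)) := rfl
      linarith
    have hk2 : (k : ℝ) ^ 2 * (3 / Real.sqrt T) ≤ 1 / 100 := by
      refine le_trans ?_ hTc
      have : (k : ℝ) ^ 2 ≤ (Real.log T + 1) ^ 2 := pow_le_pow_left₀ (Nat.cast_nonneg _) hkL 2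
      gcongr
    have hNT : (N : ℝ) ≤ 103 / 100 * T := by nlinarith
    have hN9 : (N : ℝ) ^ (9 / 10 : ℝ) ≤ 1 / 100 * T := by
      refine le_trans ?_ hTd
      exact Real.rpow_le_rpow hN0.le (by linarith) (by norm_num)
    have hlN0 : 0 ≤ Real.log N := Real.log_nonneg (by linarith)
    have hmain : ∫ t in (0 : ℝ)..T, ‖Z ω t‖ ^ (2 * k) ≤ N * D k N + 1 / 100 * T :=
      (int_mono k ω hT0.le hN1).trans ((mom_le k ω N).trans (by linarith))
    have hN33 : 3 ≤ N := by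
      have : (3 : ℝ) ≤ N := by linarith
      exact_mod_cast this
    constructor
    · have h3 := db h k N hk hN33
      have hk0 : (1 : ℝ) ≤ k := by exact_mod_cast hk
      set x : ℝ := 1 + Real.log T / k with hx
      have hx1 : 1 ≤ x := by
        rw [hx]
        have : 0 ≤ Real.log T / k := by positivity
        linarith
      have h4 : (1 + Real.log N / k) ^ (k ^ 2) ≤ 102 / 100 * x ^ (k ^ 2) := by
        refine pow_cmp (T := T) (N := N) hx1 ?_ hT0 hk2 (by positivity)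
        rw [hx]
        have h5 : Real.log N / k ≤ Real.log T / k + (3 / Real.sqrt T) := by
          have h6 : Real.log N / k ≤ (Real.log T + 3 / Real.sqrt T) / k := by gcongr
          have h7 : (3 / Real.sqrt T) / k ≤ 3 / Real.sqrt T := div_le_self (by positivity) hk0
          rw [add_div] at h6
          linarith
        linarith
      have h8 : D k N ≤ Real.exp ((k : ℝ) ^ 2) * (102 / 100 * x ^ (k ^ 2)) := by
        refine h3.trans ?_
        rw [mul_pow, ← Real.exp_nat_mul]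
        push_cast
        rw [mul_one]
        gcongr
      have h9 : bs T k ^ (k ^ 2) = Real.exp ((k : ℝ) ^ 2) * (Real.exp ((k : ℝ) ^ 2) * x ^ (k ^ 2)) := by
        unfold bs
        rw [mul_pow, ← Real.exp_nat_mul, ← mul_assoc, ← Real.exp_add]
        congr 2
        push_cast
        ring
      rw [h9]
      have h10 : 2 ≤ Real.exp ((k : ℝ) ^ 2) := by
        have h11 : (1 : ℝ) ≤ (k : ℝ) ^ 2 := one_le_pow₀ hk0
        have := Real.add_one_le_exp ((k : ℝ) ^ 2)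
        linarith
      set E := Real.exp ((k : ℝ) ^ 2) with hE
      have h12 : 1 ≤ x ^ (k ^ 2) := one_le_pow₀ hx1
      set P := x ^ (k ^ 2) with hP
      have hEP : 2 ≤ E * P := by nlinarith
      calc ∫ t in (0 : ℝ)..T, ‖Z ω t‖ ^ (2 * k) ≤ N * D k N + 1 / 100 * T := hmain
        _ ≤ (103 / 100 * T) * (E * (102 / 100 * P)) + 1 / 100 * T := by
            have := D_nonneg k N
            gcongr
        _ = T * ((103 / 100 * (102 / 100)) * (E * P) + 1 / 100) := by ring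
        _ ≤ T * (2 * (E * P)) := by
            gcongr
            linarith
        _ ≤ T * (E * (E * P)) := by gcongr
    · intro hk22
      have h3 := hN₁ N hN3 k hk22
      have h4 : Real.log N ^ (k ^ 2) ≤ 102 / 100 * Real.log T ^ (k ^ 2) :=
        pow_cmp (T := T) (N := N) (by linarith) hlogN hT0 hk2 hlN0
      set P := Real.log T ^ (k ^ 2) with hP
      have hP1 : 1 ≤ P := one_le_pow₀ (by linarith)
      calc ∫ t in (0 : ℝ)..T, ‖Z ω t‖ ^ (2 * k) ≤ N * D k N + 1 / 100 * T := hmain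
        _ ≤ (103 / 100 * T) * (9 / 10 * (102 / 100 * P)) + 1 / 100 * T := by
            have := D_nonneg k N
            have h5 : D k N ≤ 9 / 10 * (102 / 100 * P) := h3.trans (by linarith)
            gcongr
        _ = T * ((103 / 100 * (9 / 10) * (102 / 100)) * P + 1 / 100) := by ring
        _ ≤ T * P := by
            gcongr
            linarith
  · -- large orders
    have hfirst : ∫ t in (0 : ℝ)..T, ‖Z ω t‖ ^ (2 * k) ≤ T * bs T k ^ (k ^ 2) := by
      rcases Nat.lt_or_ge (r + 3) k with hkr | hkr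
      · refine (trivial_bound k ω T hT0.le).trans ?_
        gcongr
        have h3 : 4 * T ≤ (2 : ℝ) ^ k := by
          calc 4 * T ≤ 4 * (2 : ℝ) ^ (r + 1) := by linarith
            _ = (2 : ℝ) ^ (r + 3) := by ring
            _ ≤ (2 : ℝ) ^ k := pow_le_pow_right₀ (by norm_num) hkr.le
        calc (4 * T) ^ k ≤ ((2 : ℝ) ^ k) ^ k := pow_le_pow_left₀ (by positivity) h3 k
          _ = (2 : ℝ) ^ (k ^ 2) := by rw [← pow_mul]; congr 1; ring
          _ ≤ bs T k ^ (k ^ 2) := by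
              refine pow_le_pow_left₀ (by norm_num) ?_ _
              refine le_trans ?_ hbs1
              have := Real.add_one_le_exp (2 : ℝ)
              linarith
      · by_contra hcon
        push Not at hcon
        refine hE2 ⟨k, hc, hkr, ?_⟩
        calc (2 : ℝ) ^ r * bs ((2 : ℝ) ^ r) k ^ (k ^ 2) ≤ T * bs T k ^ (k ^ 2) := by
              have h3 : bs ((2 : ℝ) ^ r) k ≤ bs T k := bs_mono (by linarith) hr1 k
              have h4 : 0 ≤ bs ((2 : ℝ) ^ r) k := le_trans (Real.exp_pos 2).le (bs_ge _ (by linarith) k)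
              gcongr
          _ ≤ ∫ t in (0 : ℝ)..T, ‖Z ω t‖ ^ (2 * k) := hcon.le
          _ ≤ _ := int_mono k ω hT0.le hr2
    refine ⟨hfirst, fun _ => hfirst.trans ?_⟩
    refine mul_le_mul_of_nonneg_left (pow_le_pow_left₀ (by linarith) ?_ _) hT0.le
    have h20 : (20 : ℝ) ≤ k := (hT₂ _ (hT2.trans hr2)).trans hc
    unfold bs
    have h3 : Real.log T / k ≤ Real.log T / 20 := by gcongr
    have h4 : Real.exp 2 ≤ 7.4 := by
      have h5 : Real.exp 2 = Real.exp 1 * Real.exp 1 := by rw [← Real.exp_add]; norm_num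
      have h6 := Real.exp_one_lt_d9
      rw [h5]
      nlinarith [Real.exp_pos 1]
    calc Real.exp 2 * (1 + Real.log T / k) ≤ 7.4 * (1 + Real.log T / 20) := by
          refine mul_le_mul h4 (by linarith) (by positivity) (by norm_num)
      _ ≤ Real.log T := by linarith

end Pool.Agent.Q255.MK
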