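import Pool.Agent.Q255.MK.Small

/-!
# Project MK: the moments of large order
-/

set_option autoImplicit false

open MeasureTheory Finset Filter Topology

namespace Pool.Agent.Q255.MK

open Q289.PAM Pool.Agent.Q255.RM

/-- `e² (1 + log T / k)` -/
noncomputable def bs (T : ℝ) (k : ℕ) : ℝ := Real.exp 2 * (1 + Real.log T / k)

lemma bs_mono {S T : ℝ} (hS : 1 ≤ S) (h : S ≤ T) (k : ℕ) : bs S k ≤ bs T k := by
  unfold bs
  have : Real.log S ≤ Real.log T := Real.log_le_log (by linarith) h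
  gcongr

lemma bs_ge (T : ℝ) (hT : 1 ≤ T) (k : ℕ) : Real.exp 2 ≤ bs T k := by
  unfold bs
  have : 0 ≤ Real.log T / k := div_nonneg (Real.log_nonneg hT) (Nat.cast_nonneg _)
  nlinarith [Real.exp_pos 2]

/-- the exceptional event at `2^(r+1)` -/
def E2 (r : ℕ) : Set Om := {ω | ∃ k : ℕ, kk ((2 : ℝ) ^ (r + 1)) ≤ k ∧ k ≤ r + 3 ∧
  (2 : ℝ) ^ r * bs ((2 : ℝ) ^ r) k ^ (k ^ 2) ≤ ∫ t in (0 : ℝ)..(2 : ℝ) ^ (r + 1), ‖Z ω t‖ ^ (2 * k)}

lemma E2_one (h : S_SQ) (hF : S_FUB) {r k : ℕ} (hr : 3 ≤ r) (hk : 4 ≤ k) :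
    PT.real {ω | (2 : ℝ) ^ r * bs ((2 : ℝ) ^ r) k ^ (k ^ 2) ≤
      ∫ t in (0 : ℝ)..(2 : ℝ) ^ (r + 1), ‖Z ω t‖ ^ (2 * k)} ≤ 2 * Real.exp (-(3 / 4 * (k : ℝ) ^ 2)) := by
  have hk0 : (4 : ℝ) ≤ k := by exact_mod_cast hk
  have h2 : (1 : ℝ) ≤ (2 : ℝ) ^ r := one_le_pow₀ (by norm_num)
  have hb : 0 < bs ((2 : ℝ) ^ r) k := lt_of_lt_of_le (Real.exp_pos 2) (bs_ge _ h2 k)
  set V : ℝ := (2 : ℝ) ^ r * bs ((2 : ℝ) ^ r) k ^ (k ^ 2) with hV
  have hV0 : 0 < V := by positivity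
  have e1 : ((2 ^ (r + 1) : ℕ) : ℝ) = (2 : ℝ) ^ (r + 1) := by push_cast; ring
  have h1 := hF k (2 ^ (r + 1)) V hV0
  rw [e1] at h1
  refine h1.trans ?_
  have hN3 : 3 ≤ 2 ^ (r + 1) := by
    calc 3 ≤ 2 ^ (3 + 1) := by norm_num
      _ ≤ 2 ^ (r + 1) := Nat.pow_le_pow_right (by norm_num) (by omega)
  have h3 := db h k (2 ^ (r + 1)) (by omega) hN3
  rw [e1] at h3
  have hlog : Real.log ((2 : ℝ) ^ (r + 1)) = Real.log ((2 : ℝ) ^ r) + Real.log 2 := by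
    rw [pow_succ, Real.log_mul (by positivity) (by norm_num)]
  set x := Real.log ((2 : ℝ) ^ r) with hx
  have hx0 : 0 ≤ x := Real.log_nonneg h2
  have hl2 : Real.log 2 ≤ 1 := by
    have := Real.log_two_lt_d9
    linarith
  have h4 : Real.exp 1 * (1 + Real.log ((2 : ℝ) ^ (r + 1)) / k) ≤
      Real.exp (-1 + 1 / k) * bs ((2 : ℝ) ^ r) k := by
    unfold bs
    rw [hlog, ← hx]
    have a1 : 1 + (x + Real.log 2) / k ≤ (1 + 1 / k) * (1 + x / k) := by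
      have : (x + Real.log 2) / k ≤ (x + 1) / k := by gcongr
      have h5 : (1 + 1 / (k : ℝ)) * (1 + x / k) = 1 + (x + 1) / k + x / k ^ 2 := by
        field_simp
        ring
      rw [h5]
      have : 0 ≤ x / (k : ℝ) ^ 2 := by positivity
      linarith
    have a2 : 1 + 1 / (k : ℝ) ≤ Real.exp (1 / k) := by
      have := Real.add_one_le_exp (1 / (k : ℝ))
      linarith
    calc Real.exp 1 * (1 + (x + Real.log 2) / k) ≤ Real.exp 1 * ((1 + 1 / k) * (1 + x / k)) := by gcongr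
      _ ≤ Real.exp 1 * (Real.exp (1 / k) * (1 + x / k)) := by gcongr
      _ = Real.exp (-1 + 1 / k) * (Real.exp 2 * (1 + x / k)) := by
          rw [← mul_assoc, ← mul_assoc, ← Real.exp_add, ← Real.exp_add]
          congr 2
          ring
  have h5 : D k (2 ^ (r + 1)) ≤ Real.exp (-(3 / 4 * (k : ℝ) ^ 2)) * bs ((2 : ℝ) ^ r) k ^ (k ^ 2) := by
    refine h3.trans ?_
    calc (Real.exp 1 * (1 + Real.log ((2 : ℝ) ^ (r + 1)) / k)) ^ (k ^ 2) ≤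
        (Real.exp (-1 + 1 / k) * bs ((2 : ℝ) ^ r) k) ^ (k ^ 2) := by
          refine pow_le_pow_left₀ ?_ h4 _
          have : 0 ≤ Real.log ((2 : ℝ) ^ (r + 1)) := Real.log_nonneg (one_le_pow₀ (by norm_num))
          positivity
      _ = Real.exp (-1 + 1 / k) ^ (k ^ 2) * bs ((2 : ℝ) ^ r) k ^ (k ^ 2) := by rw [mul_pow]
      _ ≤ _ := by
          gcongr
          rw [← Real.exp_nat_mul, Real.exp_le_exp]
          push_cast
          have : (k : ℝ) ^ 2 * (-1 + 1 / k) = -(k : ℝ) ^ 2 + k := by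
            field_simp
          rw [this]
          nlinarith
  rw [hV, div_le_iff₀ (by positivity)]
  calc (2 : ℝ) ^ (r + 1) * D k (2 ^ (r + 1)) ≤
      (2 : ℝ) ^ (r + 1) * (Real.exp (-(3 / 4 * (k : ℝ) ^ 2)) * bs ((2 : ℝ) ^ r) k ^ (k ^ 2)) := by gcongr
    _ = _ := by ring

lemma kk_two (r : ℕ) : kk ((2 : ℝ) ^ r) = 2 * Real.sqrt (Real.log (r * Real.log 2)) := by
  unfold kk
  rw [Real.log_pow]

/-- eventually in `r` -/
lemma ev_r : ∀ᶠ r : ℕ in atTop, 3 ≤ r ∧ 4 ≤ kk ((2 : ℝ) ^ (r + 1)) ∧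
    Real.exp (-(3 / 4 * kk ((2 : ℝ) ^ (r + 1)) ^ 2)) ≤ 8 * ((r : ℝ) ^ 3)⁻¹ := by
  have t1 : Tendsto (fun r : ℕ => ((r + 1 : ℕ) : ℝ) * Real.log 2) atTop atTop := by
    refine Tendsto.atTop_mul_const (Real.log_pos (by norm_num)) ?_
    exact tendsto_natCast_atTop_atTop.comp (tendsto_add_atTop_nat 1)
  have t2 := Real.tendsto_log_atTop.comp t1
  filter_upwards [t2.eventually_ge_atTop 4, eventually_ge_atTop 3] with r h1 h2
  simp only [Function.comp] at h1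
  have hr0 : (3 : ℝ) ≤ r := by exact_mod_cast h2
  have hl2 := Real.log_two_gt_d9
  have hsq : kk ((2 : ℝ) ^ (r + 1)) ^ 2 = 4 * Real.log (((r + 1 : ℕ) : ℝ) * Real.log 2) := by
    rw [kk_two, mul_pow, Real.sq_sqrt (by linarith)]
    norm_num
  refine ⟨h2, ?_, ?_⟩
  · rw [kk_two]
    have : 2 ≤ Real.sqrt (Real.log (((r + 1 : ℕ) : ℝ) * Real.log 2)) :=
      Real.le_sqrt_of_sq_le (by linarith)
    linarith
  · rw [hsq]
    have h3 : -(3 / 4 * (4 * Real.log (((r + 1 : ℕ) : ℝ) * Real.log 2))) =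
        -(3 * Real.log (((r + 1 : ℕ) : ℝ) * Real.log 2)) := by ring
    rw [h3, Real.exp_neg]
    have hpos : 0 < ((r + 1 : ℕ) : ℝ) * Real.log 2 := by
      push_cast
      nlinarith
    have h4 : Real.exp (3 * Real.log (((r + 1 : ℕ) : ℝ) * Real.log 2)) =
        (((r + 1 : ℕ) : ℝ) * Real.log 2) ^ 3 := by
      rw [← Real.exp_log hpos, ← Real.exp_nat_mul, Real.log_exp]
      norm_num
    rw [h4]
    have h5 : (r : ℝ) / 2 ≤ ((r + 1 : ℕ) : ℝ) * Real.log 2 := by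
      push_cast
      nlinarith
    have h6 : ((r : ℝ) / 2) ^ 3 ≤ (((r + 1 : ℕ) : ℝ) * Real.log 2) ^ 3 := by gcongr
    calc ((((r + 1 : ℕ) : ℝ) * Real.log 2) ^ 3)⁻¹ ≤ (((r : ℝ) / 2) ^ 3)⁻¹ := by
          apply inv_anti₀ (by positivity) h6
      _ = 8 * ((r : ℝ) ^ 3)⁻¹ := by
          field_simp
          norm_num

theorem large_as (h : S_SQ) (hF : S_FUB) : ∀ᵐ ω ∂PT, ∀ᶠ r : ℕ in atTop, ω ∉ E2 r := by
  obtain ⟨r₀, hr₀⟩ := eventually_atTop.1 ev_r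
  have hs : Summable fun r : ℕ => 48 * ((r : ℝ) ^ 2)⁻¹ :=
    (Real.summable_nat_pow_inv.2 (by norm_num)).mul_left 48
  refine bc (J := r₀) hs fun r hr => ?_
  obtain ⟨h3, h4, h5⟩ := hr₀ r hr
  set K := kk ((2 : ℝ) ^ (r + 1)) with hK
  have hr0 : (3 : ℝ) ≤ r := by exact_mod_cast h3
  classical
  set s := (Finset.range (r + 4)).filter fun k : ℕ => K ≤ (k : ℝ) with hs'
  have hsub : E2 r ⊆ ⋃ k ∈ s, {ω : Om | (2 : ℝ) ^ r * bs ((2 : ℝ) ^ r) k ^ (k ^ 2) ≤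
      ∫ t in (0 : ℝ)..(2 : ℝ) ^ (r + 1), ‖Z ω t‖ ^ (2 * k)} := by
    rintro ω ⟨k, hk1, hk2, hω⟩
    simp only [Set.mem_iUnion]
    exact ⟨k, by rw [hs', Finset.mem_filter, Finset.mem_range]; exact ⟨by omega, hk1⟩, hω⟩
  calc PT.real (E2 r) ≤ PT.real (⋃ k ∈ s, {ω : Om | (2 : ℝ) ^ r * bs ((2 : ℝ) ^ r) k ^ (k ^ 2) ≤
      ∫ t in (0 : ℝ)..(2 : ℝ) ^ (r + 1), ‖Z ω t‖ ^ (2 * k)}) := measureReal_mono hsub (measure_ne_top _ _)
    _ ≤ ∑ k ∈ s, PT.real {ω : Om | (2 : ℝ) ^ r * bs ((2 : ℝ) ^ r) k ^ (k ^ 2) ≤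
      ∫ t in (0 : ℝ)..(2 : ℝ) ^ (r + 1), ‖Z ω t‖ ^ (2 * k)} := measureReal_biUnion_finset_le _ _
    _ ≤ ∑ _k ∈ s, 2 * (8 * ((r : ℝ) ^ 3)⁻¹) := by
        refine Finset.sum_le_sum fun k hk => ?_
        rw [hs', Finset.mem_filter] at hk
        have hk4 : 4 ≤ k := by
          have : (4 : ℝ) ≤ k := h4.trans hk.2
          exact_mod_cast this
        refine (E2_one h hF h3 hk4).trans ?_
        have : Real.exp (-(3 / 4 * (k : ℝ) ^ 2)) ≤ Real.exp (-(3 / 4 * K ^ 2)) := by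
          rw [Real.exp_le_exp]
          have : K ^ 2 ≤ (k : ℝ) ^ 2 := pow_le_pow_left₀ (by linarith) hk.2 2
          linarith
        linarith
    _ = s.card * (2 * (8 * ((r : ℝ) ^ 3)⁻¹)) := by rw [Finset.sum_const, nsmul_eq_mul]
    _ ≤ (3 * r) * (2 * (8 * ((r : ℝ) ^ 3)⁻¹)) := by
        have h6 : s.card ≤ r + 4 := by
          have := Finset.card_filter_le (Finset.range (r + 4)) (fun k : ℕ => K ≤ (k : ℝ))
          rwa [Finset.card_range] at this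
        have h7 : (s.card : ℝ) ≤ 3 * r := by
          have : (s.card : ℝ) ≤ ((r + 4 : ℕ) : ℝ) := by exact_mod_cast h6
          push_cast at this
          linarith
        gcongr
    _ = 48 * ((r : ℝ) ^ 2)⁻¹ := by
        field_simp
        norm_num

end Pool.Agent.Q255.MK
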