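import Pool.Agent.Q255.MK.Mom
import Pool.Agent.Q255.MK.Famz

/-!
# Project MK: exceptional events of the lower bounds
-/

set_option autoImplicit false

open MeasureTheory Finset Filter Topology

namespace Pool.Agent.Q255.MK

open Q289.PAM Pool.Agent.Q255.RM Pool.Agent.Q255.FG

/-- `∑_{n ≤ N} f(n) n^(-1/2-it)` -/
noncomputable def DN (ω : Om) (N : ℕ) (t : ℝ) : ℂ := ∑ n ∈ Icc 1 N, f ω n * g t n

lemma unit_prob (h : S_SQ) (hS : S_SUP) :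
    ∃ N₀ : ℕ, ∀ N : ℕ, N₀ ≤ N → ∀ a : ℝ,
      PT.real {ω | ∃ t ∈ Set.Icc a (a + 1), bg 2 N ≤ ‖DN ω N t‖} ≤ (N : ℝ) ^ (-6 : ℝ) := by
  obtain ⟨X, hX⟩ := opt one_pos
  obtain ⟨j₁, hj₁⟩ := eventually_atTop.1 (tL.eventually_ge_atTop X)
  refine ⟨max j₁ 3, fun j hj a => ?_⟩
  have hj3 : 3 ≤ j := (le_max_right _ _).trans hj
  have hj0 : (0 : ℝ) < j := by exact_mod_cast (by omega : 0 < j)
  obtain ⟨hL, hopt⟩ := hX (Real.log j) (hj₁ j ((le_max_left _ _).trans hj))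
  set L := Real.log j with hLd
  have hL0 : 0 < L := by linarith
  obtain ⟨k, hk1, hkL, hk⟩ := hopt 2 (by norm_num) (by norm_num)
  have hk0 : (1 : ℝ) ≤ k := by exact_mod_cast hk1
  have h1 := hS k j a (bg 2 j) hk1 (by omega) (bg_pos _ _)
  refine h1.trans ?_
  have h2 := db h k j hk1 hj3
  have h3 : (Real.exp 1 * (1 + L / k)) ^ (k ^ 2) =
      Real.exp ((k : ℝ) ^ 2 * Real.log (1 + L / k) + (k : ℝ) ^ 2) := by
    have h4 : 0 < 1 + L / k := by positivity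
    rw [mul_pow, ← Real.exp_nat_mul, ← Real.rpow_natCast (1 + L / k), Real.rpow_def_of_pos h4, ← Real.exp_add]
    congr 1
    push_cast
    ring
  have h5 : 1 + 2 * k * L ≤ Real.exp (2 * k * (2 * Real.log L)) := by
    have h6 : 1 + 2 * (k : ℝ) * L ≤ L ^ 4 := by
      have : 2 * (k : ℝ) * L ≤ 2 * L * L := by gcongr
      have h7 : (100 : ℝ) * 100 ≤ L ^ 2 := by nlinarith
      have h8 : L ^ 4 = L ^ 2 * L ^ 2 := by ring
      rw [h8]
      nlinarith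
    refine h6.trans ?_
    have h7 : L ^ 4 = Real.exp (4 * Real.log L) := by
      conv_lhs => rw [show L = Real.exp (Real.log L) from (Real.exp_log hL0).symm]
      rw [← Real.exp_nat_mul]
      norm_num
    rw [h7, Real.exp_le_exp]
    have h8 : 0 ≤ Real.log L := Real.log_nonneg (by linarith)
    nlinarith
  have h6 : bg 2 j ^ (2 * k) = Real.exp (2 * k * (2 * Real.sqrt (L * Real.log L))) := by
    unfold bg
    rw [← Real.exp_nat_mul]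
    congr 1
    push_cast
    ring
  rw [h6, div_le_iff₀ (Real.exp_pos _)]
  have hD0 := D_nonneg k j
  have h7 : (j : ℝ) ^ (-6 : ℝ) = Real.exp (-6 * L) := by
    rw [Real.rpow_def_of_pos hj0]
    congr 1
    ring
  rw [h7, ← Real.exp_add]
  calc (1 + 2 * k * L) * D k j ≤ Real.exp (2 * k * (2 * Real.log L)) *
        Real.exp ((k : ℝ) ^ 2 * Real.log (1 + L / k) + (k : ℝ) ^ 2) := by
        rw [h3] at h2
        exact mul_le_mul h5 h2 hD0 (Real.exp_pos _).le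
    _ = Real.exp (2 * k * (2 * Real.log L) + ((k : ℝ) ^ 2 * Real.log (1 + L / k) + (k : ℝ) ^ 2)) := by
        rw [← Real.exp_add]
    _ ≤ _ := by
        rw [Real.exp_le_exp]
        nlinarith [sq_nonneg (k : ℝ)]

/-- large values of `DN` on `[0, 3N]` -/
def E4 (N : ℕ) : Set Om := {ω | ∃ t ∈ Set.Icc (0 : ℝ) (3 * N), bg 2 N ≤ ‖DN ω N t‖}

lemma E4_prob (h : S_SQ) (hS : S_SUP) : ∃ N₀ : ℕ, ∀ N : ℕ, N₀ ≤ N → PT.real (E4 N) ≤ (N : ℝ) ^ (-2 : ℝ) := by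
  obtain ⟨N₀, hN₀⟩ := unit_prob h hS
  refine ⟨max N₀ 3, fun N hN => ?_⟩
  have hN3 : 3 ≤ N := (le_max_right _ _).trans hN
  have hN0 : (0 : ℝ) < N := by exact_mod_cast (by omega : 0 < N)
  have hsub : E4 N ⊆ ⋃ i ∈ range (3 * N), {ω | ∃ t ∈ Set.Icc (i : ℝ) (i + 1), bg 2 N ≤ ‖DN ω N t‖} := by
    rintro ω ⟨t, ht, hb⟩
    simp only [Set.mem_iUnion]
    rcases lt_or_ge t ((3 * N : ℕ) : ℝ) with h1 | h1
    · refine ⟨⌊t⌋₊, ?_, t, ⟨Nat.floor_le ht.1, (Nat.lt_floor_add_one t).le⟩, hb⟩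
      rw [Finset.mem_range]
      exact (Nat.floor_lt ht.1).2 h1
    · have h2 : t = 3 * N := by
        refine le_antisymm ht.2 ?_
        push_cast at h1
        exact h1
      refine ⟨3 * N - 1, ?_, t, ?_, hb⟩
      · rw [Finset.mem_range]
        omega
      · rw [Nat.cast_sub (by omega), h2]
        push_cast
        constructor <;> linarith
  calc PT.real (E4 N) ≤ PT.real (⋃ i ∈ range (3 * N), {ω | ∃ t ∈ Set.Icc (i : ℝ) (i + 1), bg 2 N ≤ ‖DN ω N t‖}) :=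
        measureReal_mono hsub (measure_ne_top _ _)
    _ ≤ ∑ i ∈ range (3 * N), PT.real {ω | ∃ t ∈ Set.Icc (i : ℝ) (i + 1), bg 2 N ≤ ‖DN ω N t‖} :=
        measureReal_biUnion_finset_le _ _
    _ ≤ ∑ _i ∈ range (3 * N), (N : ℝ) ^ (-6 : ℝ) :=
        Finset.sum_le_sum fun i _ => hN₀ N ((le_max_left _ _).trans hN) i
    _ = 3 * ((N : ℝ) ^ (1 : ℝ) * (N : ℝ) ^ (-6 : ℝ)) := by
        rw [Finset.sum_const, Finset.card_range, nsmul_eq_mul, Real.rpow_one]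
        push_cast
        ring
    _ ≤ (N : ℝ) ^ (3 : ℝ) * ((N : ℝ) ^ (1 : ℝ) * (N : ℝ) ^ (-6 : ℝ)) := by
        refine mul_le_mul_of_nonneg_right ?_ (by positivity)
        have h3 : (3 : ℝ) ≤ N := by exact_mod_cast hN3
        calc (3 : ℝ) ≤ N := h3
          _ = (N : ℝ) ^ (1 : ℝ) := (Real.rpow_one _).symm
          _ ≤ (N : ℝ) ^ (3 : ℝ) := Real.rpow_le_rpow_of_exponent_le (by linarith) (by norm_num)
    _ = (N : ℝ) ^ (-2 : ℝ) := by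
        rw [← Real.rpow_add hN0, ← Real.rpow_add hN0]
        norm_num

theorem E4_as (h : S_SQ) (hS : S_SUP) : ∀ᵐ ω ∂PT, ∀ᶠ N : ℕ in atTop, ω ∉ E4 N := by
  obtain ⟨N₀, hN₀⟩ := E4_prob h hS
  exact bc (Real.summable_nat_rpow.2 (by norm_num)) hN₀

/-- the smoothed sum -/
noncomputable def SM (ω : Om) (N : ℕ) (a : ℕ → ℂ) (δ : ℝ) : ℂ :=
  ∑ n ∈ Icc 1 N, f ω n * a n * (((n : ℝ) ^ (-(1 / 2 + δ)) : ℝ) : ℂ)

/-- the product over the primes between `M` and `N` -/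
noncomputable def TP' (ω : Om) (M N : ℕ) (a : ℕ → ℂ) (δ : ℝ) : ℂ :=
  ∏ p ∈ (Ioc M N).filter Nat.Prime, (1 - f ω p * a p * (((p : ℝ) ^ (-(1 / 2 + δ)) : ℝ) : ℂ))⁻¹

lemma EP_split (ω : Om) {M N : ℕ} (h : M ≤ N) (a : ℕ → ℂ) (δ : ℝ) :
    EP ω N a δ = EP ω M a δ * TP' ω M N a δ := by
  unfold EP TP'
  rw [← Finset.prod_union]
  · refine Finset.prod_congr ?_ fun _ _ => rfl
    ext p
    simp only [Finset.mem_union, Finset.mem_filter, Finset.mem_range, Finset.mem_Ioc]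
    constructor
    · rintro ⟨h1, h2⟩
      rcases Nat.lt_or_ge p (M + 1) with h3 | h3
      · exact Or.inl ⟨h3, h2⟩
      · exact Or.inr ⟨⟨by omega, by omega⟩, h2⟩
    · rintro (⟨h1, h2⟩ | ⟨h1, h2⟩)
      · exact ⟨by omega, h2⟩
      · exact ⟨by omega, h2⟩
  · rw [Finset.disjoint_left]
    intro p hp hq
    simp only [Finset.mem_filter, Finset.mem_range, Finset.mem_Ioc] at hp hq
    omega

/-- the smoothed sums are not the products -/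
def E5 (M : ℕ) : Set Om := {ω | ∃ j ∈ Ioc M (2 * M), 1 ≤ ‖SM ω j (tw j) (dl M) - EP ω j (tw j) (dl M)‖}

/-- the primes above `M` matter -/
def E6 (M : ℕ) : Set Om := {ω | ∃ j ∈ Ioc M (2 * M), ‖TP' ω M j (tw j) (dl M)‖ < 1 / 2}

lemma union_prob {F : ℕ → ℕ → Set Om} (h : ∃ M₀ : ℕ, ∀ M : ℕ, M₀ ≤ M → ∀ j ∈ Ioc M (2 * M),
      PT.real (F M j) ≤ (M : ℝ) ^ (-5 : ℝ)) :
    ∀ᵐ ω ∂PT, ∀ᶠ M : ℕ in atTop, ∀ j ∈ Ioc M (2 * M), ω ∉ F M j := by
  obtain ⟨M₀, hM₀⟩ := h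
  have h1 : ∀ M ≥ max M₀ 1, PT.real (⋃ j ∈ Ioc M (2 * M), F M j) ≤ (M : ℝ) ^ (-4 : ℝ) := by
    intro M hM
    have hM1 : 1 ≤ M := (le_max_right _ _).trans hM
    have hM0 : (0 : ℝ) < M := by exact_mod_cast hM1
    calc PT.real (⋃ j ∈ Ioc M (2 * M), F M j) ≤ ∑ j ∈ Ioc M (2 * M), PT.real (F M j) :=
          measureReal_biUnion_finset_le _ _
      _ ≤ ∑ _j ∈ Ioc M (2 * M), (M : ℝ) ^ (-5 : ℝ) :=
          Finset.sum_le_sum fun j hj => hM₀ M ((le_max_left _ _).trans hM) j hj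
      _ = (M : ℝ) ^ (1 : ℝ) * (M : ℝ) ^ (-5 : ℝ) := by
          rw [Finset.sum_const, Nat.card_Ioc, nsmul_eq_mul, Real.rpow_one]
          congr 2
          omega
      _ = (M : ℝ) ^ (-4 : ℝ) := by
          rw [← Real.rpow_add hM0]
          norm_num
  filter_upwards [bc (Real.summable_nat_rpow.2 (by norm_num : (-4 : ℝ) < -1)) h1] with ω hω
  filter_upwards [hω] with M hM j hj hc
  apply hM
  simp only [Set.mem_iUnion]
  exact ⟨j, hj, hc⟩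

/-- the sums are at least half of the product over `p ≤ M`, up to one -/
theorem sm_as (hL : S_LTM) (hT : S_TAIL) : ∀ᵐ ω ∂PT, ∀ᶠ M : ℕ in atTop, ∀ j ∈ Ioc M (2 * M),
    ‖EP ω M (tw j) (dl M)‖ / 2 - 1 ≤ ‖SM ω j (tw j) (dl M)‖ := by
  obtain ⟨M₁, hM₁⟩ := hL
  obtain ⟨M₂, hM₂⟩ := hT
  have h5 := union_prob (F := fun M j => {ω | 1 ≤ ‖SM ω j (tw j) (dl M) - EP ω j (tw j) (dl M)‖})
    ⟨M₁, fun M hM j hj => by
      rw [Finset.mem_Ioc] at hj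
      exact hM₁ M j hM hj.1.le hj.2 (tw j) (tw_cm j)⟩
  have h6 := union_prob (F := fun M j => {ω | ‖TP' ω M j (tw j) (dl M)‖ < 1 / 2})
    ⟨M₂, fun M hM j hj => by
      rw [Finset.mem_Ioc] at hj
      exact hM₂ M j hM hj.1.le hj.2 (tw j) (norm_tw_le j)⟩
  filter_upwards [h5, h6] with ω hω5 hω6
  filter_upwards [hω5, hω6] with M h7 h8 j hj
  have h9 := h7 j hj
  have h10 := h8 j hj
  rw [not_le] at h9
  rw [not_lt] at h10
  have h11 : ‖EP ω j (tw j) (dl M)‖ = ‖EP ω M (tw j) (dl M)‖ * ‖TP' ω M j (tw j) (dl M)‖ := by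
    rw [EP_split ω (Finset.mem_Ioc.1 hj).1.le, norm_mul]
  have h12 : ‖EP ω M (tw j) (dl M)‖ * (1 / 2) ≤ ‖EP ω j (tw j) (dl M)‖ := by
    rw [h11]
    exact mul_le_mul_of_nonneg_left h10 (norm_nonneg _)
  have h13 : ‖EP ω j (tw j) (dl M)‖ - ‖SM ω j (tw j) (dl M)‖ ≤ ‖SM ω j (tw j) (dl M) - EP ω j (tw j) (dl M)‖ := by
    rw [norm_sub_rev]
    exact norm_sub_norm_le _ _
  linarith

end Pool.Agent.Q255.MK
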