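import Pool.Agent.Q255.MK.Low1
import Pool.Agent.Q187.MK.POIS

/-!
# Project MK: a large smoothed sum forces many large values nearby (deterministic)
-/

set_option autoImplicit false

open MeasureTheory Finset Filter Topology

namespace Pool.Agent.Q255.MK

open Q289.PAM Pool.Agent.Q255.RM Pool.Agent.Q255.FG
open Pool.Agent.Q187.MK (PK PK_int PK_nonneg)

lemma PK_one {δ : ℝ} (hδ : 0 < δ) : ∫ u, PK δ u = 1 := by
  have h := Q289.TS.cauchy_cos hδ 0
  simpa [PK] using h

lemma PK_le {δ : ℝ} (hδ : 0 < δ) (u : ℝ) : PK δ u ≤ 1 / (Real.pi * δ) := by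
  unfold PK
  have hp := Real.pi_pos
  rw [div_le_div_iff₀ (by positivity) (by positivity)]
  nlinarith [mul_nonneg hp.le (sq_nonneg u)]

lemma PK_tail {δ r u : ℝ} (hδ : 0 < δ) (hr : 0 < r) (hu : r < |u|) : PK δ u ≤ 2 * δ / r * PK r u := by
  unfold PK
  have hp := Real.pi_pos
  have h1 : r ^ 2 ≤ u ^ 2 := by
    rw [← sq_abs u]
    exact pow_le_pow_left₀ hr.le hu.le 2
  have h2 : 2 * δ / r * (r / (Real.pi * (r ^ 2 + u ^ 2))) = 2 * δ / (Real.pi * (r ^ 2 + u ^ 2)) := by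
    field_simp
  rw [h2, div_le_div_iff₀ (by positivity) (by positivity)]
  have h3 : r ^ 2 + u ^ 2 ≤ 2 * (δ ^ 2 + u ^ 2) := by nlinarith [sq_nonneg δ]
  calc δ * (Real.pi * (r ^ 2 + u ^ 2)) ≤ δ * (Real.pi * (2 * (δ ^ 2 + u ^ 2))) := by gcongr
    _ = _ := by ring

lemma DN_cont (ω : Om) (N : ℕ) : Continuous fun t : ℝ => DN ω N t := by
  unfold DN
  refine continuous_finsetSum _ fun n hn => ?_
  rw [Finset.mem_Icc] at hn
  exact continuous_const.mul (g_cont_t (by omega))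

lemma norm_DN_le (ω : Om) (N : ℕ) (t : ℝ) : ‖DN ω N t‖ ≤ 2 * Real.sqrt N := by
  unfold DN
  calc ‖∑ n ∈ Icc 1 N, f ω n * g t n‖ ≤ ∑ n ∈ Icc 1 N, (Real.sqrt (n : ℕ))⁻¹ := by
        refine (norm_sum_le _ _).trans (Finset.sum_le_sum fun n hn => ?_)
        rw [Finset.mem_Icc] at hn
        rw [norm_mul, norm_f, one_mul, norm_g t (by omega)]
    _ ≤ 2 * Real.sqrt N := Pool.Agent.Q255.FG.sum_inv_sqrt _

/-- a large smoothed sum forces many large values nearby -/
lemma window {ω : Om} {j : ℕ} {δ S R B : ℝ} (hδ : 0 < δ) (hδ1 : δ ≤ 1) (hj : 16 ≤ j) (hS1 : 1 ≤ S) (hSR : S ≤ R)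
    (hRj : R ≤ j) (hB : 8 ≤ B) (hsup : ∀ t ∈ Set.Icc (0 : ℝ) (3 * j), ‖DN ω j t‖ ≤ S)
    (hlow : B ≤ ‖SM ω j (tw j) δ‖) :
    δ / S ≤ volume.real {u : ℝ | |u| ≤ R ∧ B / 4 ≤ ‖DN ω j (j + u)‖} := by
  have hp := Real.pi_pos
  have hp3 := Real.pi_gt_three
  have hj0 : (0 : ℝ) < j := by exact_mod_cast (by omega : 0 < j)
  have hj16 : (16 : ℝ) ≤ j := by exact_mod_cast hj
  have hR0 : 0 < R := by linarith
  obtain ⟨A, hA⟩ : ∃ A : Set ℝ, A = {u : ℝ | |u| ≤ R ∧ B / 4 ≤ ‖DN ω j (j + u)‖} := ⟨_, rfl⟩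
  rw [← hA]
  have hcont : Continuous fun u : ℝ => ‖DN ω j (j + u)‖ :=
    ((DN_cont ω j).comp (continuous_const.add continuous_id)).norm
  have hAm : MeasurableSet A := by
    have h1 : A = Set.Icc (-R) R ∩ (fun u : ℝ => ‖DN ω j (j + u)‖) ⁻¹' Set.Ici (B / 4) := by
      rw [hA]
      ext u
      simp only [Set.mem_ofPred_eq, Set.mem_inter_iff, Set.mem_Icc, Set.mem_preimage, Set.mem_Ici, abs_le]
    rw [h1]
    exact measurableSet_Icc.inter (hcont.measurable measurableSet_Ici)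
  have hAf : volume A ≠ ⊤ := by
    have h1 : A ⊆ Set.Icc (-R) R := by
      rw [hA]
      intro u hu
      exact abs_le.1 hu.1
    refine ne_top_of_le_ne_top ?_ (measure_mono h1)
    simp
  -- the pointwise bound
  have hsup2 : ∀ u : ℝ, |u| ≤ j → ‖DN ω j (j + u)‖ ≤ S := by
    intro u hu
    rw [abs_le] at hu
    exact hsup _ ⟨by linarith [hu.1], by linarith [hu.2]⟩
  have hpt : ∀ u : ℝ, ‖DN ω j (j + u)‖ * PK δ u ≤
      B / 4 * PK δ u + A.indicator (fun _ => S / (Real.pi * δ)) u + S * (2 * δ / R) * PK R u +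
        2 * Real.sqrt j * (2 * δ / j) * PK j u := by
    intro u
    have h0 := PK_nonneg hδ u
    have h1 : 0 ≤ A.indicator (fun _ => S / (Real.pi * δ)) u :=
      Set.indicator_nonneg (fun _ _ => by positivity) u
    have h2 : 0 ≤ S * (2 * δ / R) * PK R u := by
      have := PK_nonneg hR0 u
      positivity
    have h3 : 0 ≤ 2 * Real.sqrt j * (2 * δ / j) * PK j u := by
      have := PK_nonneg hj0 u
      positivity
    have h4 : 0 ≤ B / 4 * PK δ u := by positivity
    rcases le_or_gt |u| R with h5 | h5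
    · rcases le_or_gt (B / 4) ‖DN ω j (j + u)‖ with h6 | h6
      · have h7 : u ∈ A := by
          rw [hA]
          exact ⟨h5, h6⟩
        rw [Set.indicator_of_mem h7]
        have h8 : ‖DN ω j (j + u)‖ * PK δ u ≤ S * (1 / (Real.pi * δ)) :=
          mul_le_mul (hsup2 u (h5.trans hRj)) (PK_le hδ u) h0 (by linarith)
        have h9 : S * (1 / (Real.pi * δ)) = S / (Real.pi * δ) := by ring
        linarith
      · have h8 : ‖DN ω j (j + u)‖ * PK δ u ≤ B / 4 * PK δ u := mul_le_mul_of_nonneg_right h6.le h0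
        linarith
    · rcases le_or_gt |u| j with h6 | h6
      · have h8 : ‖DN ω j (j + u)‖ * PK δ u ≤ S * (2 * δ / R * PK R u) :=
          mul_le_mul (hsup2 u h6) (PK_tail hδ hR0 h5) h0 (by linarith)
        linarith
      · have h8 : ‖DN ω j (j + u)‖ * PK δ u ≤ (2 * Real.sqrt j) * (2 * δ / j * PK j u) :=
          mul_le_mul (norm_DN_le ω j _) (PK_tail hδ hj0 h6) h0 (by positivity)
        linarith
  have hi1 : Integrable fun u => B / 4 * PK δ u := (PK_int hδ).const_mul _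
  have hi2 : Integrable (A.indicator (fun _ => S / (Real.pi * δ))) :=
    (integrable_indicator_iff hAm).2 (by
      refine integrableOn_const hAf)
  have hi3 : Integrable fun u => S * (2 * δ / R) * PK R u := (PK_int hR0).const_mul _
  have hi4 : Integrable fun u => 2 * Real.sqrt j * (2 * δ / j) * PK j u := (PK_int hj0).const_mul _
  have hpois : ‖SM ω j (tw j) δ‖ ≤ ∫ u : ℝ, ‖DN ω j (j + u)‖ * PK δ u :=
    Pool.Agent.Q187.MK.pois ω j j δ hδ
  have hint : ∫ u : ℝ, ‖DN ω j (j + u)‖ * PK δ u ≤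
      B / 4 + S / (Real.pi * δ) * volume.real A + S * (2 * δ / R) + 2 * Real.sqrt j * (2 * δ / j) := by
    refine (integral_mono_of_nonneg (Eventually.of_forall fun u => mul_nonneg (norm_nonneg _) (PK_nonneg hδ u))
      (((hi1.add hi2).add hi3).add hi4) (Eventually.of_forall hpt)).trans (le_of_eq ?_)
    rw [integral_add' ((hi1.add hi2).add hi3) hi4, integral_add' (hi1.add hi2) hi3, integral_add' hi1 hi2,
      integral_const_mul, integral_const_mul, integral_const_mul, PK_one hδ, PK_one hR0, PK_one hj0,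
      integral_indicator hAm, setIntegral_const, smul_eq_mul]
    ring
  have h1 : S * (2 * δ / R) ≤ 2 := by
    rw [mul_div_assoc', div_le_iff₀ hR0]
    nlinarith
  have h2 : 2 * Real.sqrt j * (2 * δ / j) ≤ 1 := by
    have h3 : 4 ≤ Real.sqrt j := Real.le_sqrt_of_sq_le (by linarith)
    have h4 : Real.sqrt j * Real.sqrt j = j := Real.mul_self_sqrt hj0.le
    rw [mul_div_assoc', div_le_iff₀ hj0]
    nlinarith
  have h3 : 1 ≤ S / (Real.pi * δ) * volume.real A := by linarith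
  have hv := measureReal_nonneg (μ := volume) (s := A)
  rw [div_le_iff₀ (by linarith)]
  have h4 : Real.pi * δ ≤ S * volume.real A := by
    have h5 : S / (Real.pi * δ) * volume.real A = S * volume.real A / (Real.pi * δ) := by ring
    rw [h5, le_div_iff₀ (by positivity)] at h3
    linarith
  nlinarith

/-- sums of different lengths -/
lemma diff_DN (ω : Om) (t : ℝ) {m N j : ℕ} (hm : 1 ≤ m) (hN : m ≤ N) (hj : m ≤ j) :
    ‖DN ω N t - DN ω j t‖ ≤ |(N : ℝ) - j| * (Real.sqrt m)⁻¹ := by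
  wlog h : j ≤ N with H
  · rw [norm_sub_rev, abs_sub_comm]
    exact H ω t hm hj hN (by omega)
  have h1 : DN ω N t - DN ω j t = ∑ n ∈ Ioc j N, f ω n * g t n := by
    unfold DN
    rw [sub_eq_iff_eq_add, add_comm, ← Finset.sum_union]
    · refine Finset.sum_congr ?_ fun _ _ => rfl
      ext n
      simp only [Finset.mem_union, Finset.mem_Icc, Finset.mem_Ioc]
      omega
    · rw [Finset.disjoint_left]
      intro n hn hn2
      simp only [Finset.mem_Icc, Finset.mem_Ioc] at hn hn2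
      omega
  have hm0 : (0 : ℝ) < m := by exact_mod_cast hm
  have h2 : |(N : ℝ) - j| = ((Ioc j N).card : ℝ) := by
    rw [Nat.card_Ioc, Nat.cast_sub h, abs_of_nonneg]
    have : (j : ℝ) ≤ N := by exact_mod_cast h
    linarith
  rw [h1, h2, ← nsmul_eq_mul, ← Finset.sum_const]
  refine (norm_sum_le _ _).trans (Finset.sum_le_sum fun n hn => ?_)
  rw [Finset.mem_Ioc] at hn
  rw [norm_mul, norm_f, one_mul, norm_g t (by omega)]
  have h3 : (m : ℝ) ≤ n := by exact_mod_cast (by omega : m ≤ n)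
  have h4 := Real.sqrt_le_sqrt h3
  have h5 : 0 < Real.sqrt m := Real.sqrt_pos.2 hm0
  gcongr

/-- the large values are values of `Z` -/
lemma windowZ {ω : Om} {j : ℕ} {δ S R B : ℝ} (hδ : 0 < δ) (hδ1 : δ ≤ 1) (hj : 16 ≤ j) (hS1 : 1 ≤ S) (hSR : S ≤ R)
    (hRj : 100 * R ^ 2 ≤ j) (hB : 8 ≤ B) (hsup : ∀ t ∈ Set.Icc (0 : ℝ) (3 * j), ‖DN ω j t‖ ≤ S)
    (hlow : B ≤ ‖SM ω j (tw j) δ‖) :
    δ / S ≤ volume.real ({t : ℝ | B / 8 ≤ ‖Z ω t‖} ∩ Set.Icc ((j : ℝ) - R) (j + R)) := by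
  have hR1 : 1 ≤ R := hS1.trans hSR
  have hj0 : (0 : ℝ) < j := by exact_mod_cast (by omega : 0 < j)
  have hj16 : (16 : ℝ) ≤ j := by exact_mod_cast hj
  have hRj' : R ≤ j := by nlinarith
  refine (window hδ hδ1 hj hS1 hSR hRj' hB hsup hlow).trans ?_
  have e1 : volume.real {u : ℝ | |u| ≤ R ∧ B / 4 ≤ ‖DN ω j (j + u)‖} =
      volume.real {t : ℝ | |t - j| ≤ R ∧ B / 4 ≤ ‖DN ω j t‖} := by
    have h1 : {u : ℝ | |u| ≤ R ∧ B / 4 ≤ ‖DN ω j (j + u)‖} =
        (fun u : ℝ => (j : ℝ) + u) ⁻¹' {t : ℝ | |t - j| ≤ R ∧ B / 4 ≤ ‖DN ω j t‖} := by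
      ext u
      simp only [Set.mem_ofPred_eq, Set.mem_preimage, add_sub_cancel_left]
    rw [h1, measureReal_def, measure_preimage_add, measureReal_def]
  rw [e1]
  have hfin : volume ({t : ℝ | B / 8 ≤ ‖Z ω t‖} ∩ Set.Icc ((j : ℝ) - R) (j + R)) ≠ ⊤ := by
    refine ne_top_of_le_ne_top ?_ (measure_mono Set.inter_subset_right)
    simp
  refine measureReal_mono ?_ hfin
  rintro t ⟨h1, h2⟩
  rw [abs_le] at h1
  refine ⟨?_, by linarith [h1.1], by linarith [h1.2]⟩
  rw [Set.mem_ofPred_eq]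
  have ht0 : 0 ≤ t := by linarith [h1.1]
  obtain ⟨N, hN⟩ : ∃ N, N = ⌊t⌋₊ := ⟨_, rfl⟩
  have hN1 : (N : ℝ) ≤ t := by rw [hN]; exact Nat.floor_le ht0
  have hN2 : t < N + 1 := by rw [hN]; exact Nat.lt_floor_add_one t
  have hZ : Z ω t = DN ω N t := by rw [hN]; rfl
  obtain ⟨m, hm⟩ : ∃ m, m = j / 2 := ⟨_, rfl⟩
  have hm1 : 1 ≤ m := by omega
  have hmj : m ≤ j := by omega
  have hm2 : 2 * m ≤ j := by omega
  have hm2' : 2 * (m : ℝ) ≤ j := by exact_mod_cast hm2
  have hm3 : j ≤ 2 * m + 1 := by omega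
  have hm3' : (j : ℝ) ≤ 2 * m + 1 := by exact_mod_cast hm3
  have hmN : m ≤ N := by
    have h3 : (m : ℝ) < N + 1 := by
      have h4 : 2 * R ≤ (j : ℝ) := by nlinarith
      linarith [h1.1]
    have h5 : m < N + 1 := by exact_mod_cast h3
    omega
  have h3 := diff_DN ω t hm1 hmN hmj
  have h4 : |(N : ℝ) - j| ≤ R + 1 := by
    rw [abs_le]
    constructor <;> linarith [h1.1, h1.2]
  have hms : 2 * R + 2 ≤ Real.sqrt m := by
    apply Real.le_sqrt_of_sq_le
    nlinarith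
  have h5 : |(N : ℝ) - j| * (Real.sqrt m)⁻¹ ≤ 1 := by
    rw [← div_eq_mul_inv, div_le_one (by linarith)]
    linarith
  have h6 : ‖DN ω j t‖ - ‖DN ω N t‖ ≤ ‖DN ω N t - DN ω j t‖ := by
    rw [norm_sub_rev]
    exact norm_sub_norm_le _ _
  rw [hZ]
  linarith

/-- windows with integral centres have bounded multiplicity -/
lemma count {G : Finset ℕ} {U : Set ℝ} (hUm : MeasurableSet U) (hU : volume U ≠ ⊤) {R c : ℝ} (hR : 0 ≤ R)
    (h : ∀ j ∈ G, c ≤ volume.real (U ∩ Set.Icc ((j : ℝ) - R) (j + R))) :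
    (G.card : ℝ) * c ≤ (2 * R + 1) * volume.real U := by
  have h1 : ∀ j ∈ G, volume.real (U ∩ Set.Icc ((j : ℝ) - R) (j + R)) =
      ∫ t in U, (Set.Icc ((j : ℝ) - R) (j + R)).indicator (fun _ => (1 : ℝ)) t := by
    intro j _
    rw [integral_indicator measurableSet_Icc, Measure.restrict_restrict measurableSet_Icc, setIntegral_const,
      smul_eq_mul, mul_one, Set.inter_comm]
  haveI : IsFiniteMeasure (volume.restrict U) := ⟨by
    rw [Measure.restrict_apply_univ]
    exact lt_top_iff_ne_top.2 hU⟩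
  have hi : ∀ j ∈ G, Integrable ((Set.Icc ((j : ℝ) - R) (j + R)).indicator (fun _ => (1 : ℝ)))
      (volume.restrict U) := fun j _ => (integrable_const _).indicator measurableSet_Icc
  calc (G.card : ℝ) * c = ∑ _j ∈ G, c := by rw [Finset.sum_const, nsmul_eq_mul]
    _ ≤ ∑ j ∈ G, ∫ t in U, (Set.Icc ((j : ℝ) - R) (j + R)).indicator (fun _ => (1 : ℝ)) t := by
        refine Finset.sum_le_sum fun j hj => ?_
        rw [← h1 j hj]
        exact h j hj
    _ = ∫ t in U, ∑ j ∈ G, (Set.Icc ((j : ℝ) - R) (j + R)).indicator (fun _ => (1 : ℝ)) t :=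
        (integral_finsetSum _ hi).symm
    _ ≤ ∫ _t in U, (2 * R + 1) := by
        refine integral_mono (integrable_finsetSum _ hi) (integrable_const _) fun t => ?_
        show ∑ j ∈ G, (Set.Icc ((j : ℝ) - R) (j + R)).indicator (fun _ => (1 : ℝ)) t ≤ 2 * R + 1
        classical
        have h2 : ∑ j ∈ G, (Set.Icc ((j : ℝ) - R) (j + R)).indicator (fun _ => (1 : ℝ)) t =
            ((G.filter fun j : ℕ => t ∈ Set.Icc ((j : ℝ) - R) (j + R)).card : ℝ) := by
          rw [Finset.card_filter]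
          push_cast
          refine Finset.sum_congr rfl fun j _ => ?_
          simp only [Set.indicator_apply]
        rw [h2]
        rcases (G.filter fun j : ℕ => t ∈ Set.Icc ((j : ℝ) - R) (j + R)).eq_empty_or_nonempty with h3 | ⟨i, hi⟩
        · rw [h3, Finset.card_empty]
          push_cast
          linarith
        · have h4 : (G.filter fun j : ℕ => t ∈ Set.Icc ((j : ℝ) - R) (j + R)) ⊆ Icc ⌈t - R⌉₊ ⌊t + R⌋₊ := by
            intro j hj
            rw [Finset.mem_filter] at hj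
            rw [Finset.mem_Icc]
            exact ⟨Nat.ceil_le.2 (by linarith [hj.2.2]), Nat.le_floor (by linarith [hj.2.1])⟩
          have h5 := Finset.card_le_card h4
          rw [Nat.card_Icc] at h5
          have h6 := h4 hi
          rw [Finset.mem_Icc] at h6
          have h7 : 0 ≤ t + R := by
            rw [Finset.mem_filter] at hi
            have : (0 : ℝ) ≤ i := Nat.cast_nonneg i
            linarith [hi.2.1]
          have h8 : (⌊t + R⌋₊ : ℝ) ≤ t + R := Nat.floor_le h7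
          have h9 : t - R ≤ (⌈t - R⌉₊ : ℝ) := Nat.le_ceil _
          have h10 : (((G.filter fun j : ℕ => t ∈ Set.Icc ((j : ℝ) - R) (j + R)).card : ℕ) : ℝ) ≤
              ((⌊t + R⌋₊ + 1 - ⌈t - R⌉₊ : ℕ) : ℝ) := by exact_mod_cast h5
          rw [Nat.cast_sub (by omega)] at h10
          push_cast at h10
          linarith
    _ = (2 * R + 1) * volume.real U := by
        rw [setIntegral_const, smul_eq_mul, mul_comm]

end Pool.Agent.Q255.MK
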