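import Pool.Agent.Q255.MK.Low2

/-!
# Project MK: the lower bound of the level sets
-/

set_option autoImplicit false

open MeasureTheory Finset Filter Topology

namespace Pool.Agent.Q255.MK

open Q289.PAM Pool.Agent.Q255.RM Pool.Agent.Q255.FG

lemma exp_sum {c : ℝ} (hc : 0 < c) : ∃ J : ℕ, ∀ i : ℕ, J ≤ i →
    Real.exp (-(Real.log ((2 ^ i : ℕ) : ℝ) ^ c)) ≤ 1 / (i : ℝ) ^ 2 := by
  have h1 := (isLittleO_log_rpow_atTop hc).bound
    (show (0 : ℝ) < Real.log 2 ^ c / 2 from by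
      have := Real.log_pos (show (1 : ℝ) < 2 by norm_num)
      positivity)
  have h2 := tendsto_natCast_atTop_atTop.eventually (h1.and (eventually_ge_atTop (1 : ℝ)))
  obtain ⟨J, hJ⟩ := eventually_atTop.1 h2
  refine ⟨J, fun i hi => ?_⟩
  obtain ⟨h3, h4⟩ := hJ i hi
  have hl2 : 0 < Real.log 2 := Real.log_pos (by norm_num)
  have hi0 : (0 : ℝ) < i := by linarith
  rw [Real.norm_of_nonneg (Real.log_nonneg h4), Real.norm_of_nonneg (by positivity)] at h3
  have h5 : Real.log ((2 ^ i : ℕ) : ℝ) = i * Real.log 2 := by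
    push_cast
    rw [Real.log_pow]
  have h6 : Real.log ((2 ^ i : ℕ) : ℝ) ^ c = (i : ℝ) ^ c * Real.log 2 ^ c := by
    rw [h5, Real.mul_rpow hi0.le hl2.le]
  have h7 : 2 * Real.log i ≤ Real.log ((2 ^ i : ℕ) : ℝ) ^ c := by
    rw [h6]
    linarith
  have h8 : (1 : ℝ) / (i : ℝ) ^ 2 = Real.exp (-(2 * Real.log i)) := by
    rw [Real.exp_neg, mul_comm, Real.exp_mul, Real.exp_log hi0]
    norm_num
  rw [h8]
  exact Real.exp_le_exp.2 (by linarith)

/-- the grid -/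
noncomputable def gv (K m : ℕ) : ℝ := ((m : ℝ) + 2) / K

theorem fam_as (hLG : S_LG) (hA : S_A1) (hE : S_EXPM) (hLS : S_LS) (hBAD : S_BAD) :
    ∀ᵐ ω ∂PT, ∀ K : ℕ, 1 ≤ K → ∀ᶠ i : ℕ in atTop, ∀ m ∈ range (K + 1), 2 * gv K m ^ 2 + 1 / (K : ℝ) ≤ 1 →
      ((2 ^ i : ℕ) : ℝ) ^ (1 - 2 * gv K m ^ 2 - 1 / (K : ℝ)) ≤
        (((Ioc (2 ^ i) (2 * 2 ^ i)).filter fun j : ℕ =>
          big (gv K m) (2 ^ i) ≤ ‖EP ω (2 ^ i) (tw j) (dl (2 ^ i))‖).card : ℝ) := by
  rw [ae_all_iff]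
  intro K
  rw [ae_all_iff]
  intro hK
  have hK0 : (0 : ℝ) < K := by exact_mod_cast hK
  have hK1 : (1 : ℝ) ≤ K := by exact_mod_cast hK
  have h1 : ∀ᵐ ω ∂PT, ∀ m : ℕ, 2 * gv K m ^ 2 + 1 / (K : ℝ) ≤ 1 → ∀ᶠ i : ℕ in atTop,
      ((2 ^ i : ℕ) : ℝ) ^ (1 - 2 * gv K m ^ 2 - 1 / (K : ℝ)) ≤
        (((Ioc (2 ^ i) (2 * 2 ^ i)).filter fun j : ℕ =>
          big (gv K m) (2 ^ i) ≤ ‖EP ω (2 ^ i) (tw j) (dl (2 ^ i))‖).card : ℝ) := by
    rw [ae_all_iff]
    intro m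
    rw [ae_all_iff]
    intro hm
    obtain ⟨c, hc, N₀, hN₀⟩ := famz hLG hA hE hLS hBAD (1 / (K : ℝ)) (by positivity)
      (by rw [div_le_one hK0]; exact hK1)
    obtain ⟨J, hJ⟩ := exp_sum hc
    have hv1 : 1 / (K : ℝ) ≤ gv K m := by
      unfold gv
      have : (0 : ℝ) ≤ m := Nat.cast_nonneg m
      gcongr
      linarith
    have hv0 : 0 < gv K m := lt_of_lt_of_le (by positivity) hv1
    have hv2 : gv K m ≤ 2 := by
      have : 0 < 1 / (K : ℝ) := by positivity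
      nlinarith
    have h2 := bc (E := fun i : ℕ => {ω | (((Ioc (2 ^ i) (2 * 2 ^ i)).filter fun j : ℕ =>
          big (gv K m) (2 ^ i) ≤ ‖EP ω (2 ^ i) (tw j) (dl (2 ^ i))‖).card : ℝ) <
          ((2 ^ i : ℕ) : ℝ) ^ (1 - 2 * gv K m ^ 2 - 1 / (K : ℝ))}) (g := fun i : ℕ => 1 / (i : ℝ) ^ 2)
      (Real.summable_one_div_nat_pow.2 (by norm_num)) (J := max N₀ J) (fun i hi => by
        have h3 : N₀ ≤ 2 ^ i := by
          have h4 : i < 2 ^ i := Nat.lt_two_pow_self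
          have := (le_max_left N₀ J).trans hi
          omega
        exact (hN₀ (2 ^ i) h3 (gv K m) hv1 hv2 hm).trans (hJ i ((le_max_right _ _).trans hi)))
    filter_upwards [h2] with ω hω
    filter_upwards [hω] with i hi
    rw [not_lt] at hi
    exact hi
  filter_upwards [h1] with ω hω
  rw [Filter.eventually_all_finset]
  intro m _
  by_cases hm : 2 * gv K m ^ 2 + 1 / (K : ℝ) ≤ 1
  · filter_upwards [hω m hm] with i hi _
    exact hi
  · exact Eventually.of_forall fun i h => absurd h hm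

/-- the conditions on `L = log M` -/
lemma ev_low {ε : ℝ} (hε : 0 < ε) {κ : ℝ} (hκ : 0 < κ) : ∀ᶠ L : ℝ in atTop,
    9 ≤ L ∧ 3 * Real.log L + 3 ≤ Real.sqrt (L * Real.log L) ∧
    Real.log 100 ≤ κ * Real.sqrt (L * Real.log L) ∧
    Real.log 24 + Real.log L + 4 * Real.sqrt ((L + 1) * Real.log (L + 1)) ≤ ε / 2 * L ∧
    Real.log 100 + 4 * Real.sqrt ((L + 1) * Real.log (L + 1)) ≤ L ∧
    5 * Real.sqrt (Real.log L / L) ≤ 1 := by
  obtain ⟨c, hc⟩ : ∃ c, c = min (ε / 100) (1 / 100) := ⟨_, rfl⟩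
  have hc0 : 0 < c := by rw [hc]; exact lt_min (by positivity) (by norm_num)
  have hc1 : c ≤ ε / 100 := by rw [hc]; exact min_le_left _ _
  have hc2 : c ≤ 1 / 100 := by rw [hc]; exact min_le_right _ _
  have h1 := (Real.isLittleO_log_id_atTop).bound (show (0 : ℝ) < c ^ 2 by positivity)
  have h1' := (tendsto_atTop_add_const_right atTop (1 : ℝ) tendsto_id).eventually h1
  have hlog := Real.tendsto_log_atTop
  have h2 : ∀ᶠ L : ℝ in atTop, Real.log 100 / κ ≤ L := eventually_ge_atTop _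
  filter_upwards [h1, h1', h2, eventually_ge_atTop (10000 : ℝ), eventually_ge_atTop ((Real.log 100) / c),
    hlog.eventually_ge_atTop 100, eventually_ge_atTop (Real.log 100 ^ 2 / κ ^ 2)] with L h3 h4 h5 h6 h7 h8 h9
  have hL0 : 0 < L := by linarith
  have hl0 : 0 < Real.log L := by linarith
  have hl1 : 0 ≤ Real.log (L + 1) := Real.log_nonneg (by linarith)
  rw [Real.norm_of_nonneg hl0.le, id, Real.norm_of_nonneg hL0.le] at h3
  simp only [id] at h4
  rw [Real.norm_of_nonneg hl1, Real.norm_of_nonneg (by linarith)] at h4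
  have hc3 : c ^ 2 ≤ c := by nlinarith
  have hs1 : Real.sqrt ((L + 1) * Real.log (L + 1)) ≤ c * (L + 1) := by
    rw [Real.sqrt_le_left (by positivity)]
    nlinarith
  have hl4 : Real.log 100 ≤ c * L := by
    rw [div_le_iff₀ hc0] at h7
    linarith
  have h24 : Real.log 24 ≤ Real.log 100 := Real.log_le_log (by norm_num) (by norm_num)
  have hLL : Real.log L ≤ c * L := h3.trans (mul_le_mul_of_nonneg_right hc3 hL0.le)
  refine ⟨by linarith, ?_, ?_, ?_, ?_, ?_⟩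
  · apply Real.le_sqrt_of_sq_le
    have h10 : 16 * Real.log L ≤ L := by
      have : c ^ 2 ≤ 1 / 100 := hc3.trans hc2
      nlinarith
    nlinarith
  · rw [← div_le_iff₀' hκ]
    apply Real.le_sqrt_of_sq_le
    rw [div_pow]
    nlinarith
  · have h10 : c * L ≤ ε / 100 * L := mul_le_mul_of_nonneg_right hc1 hL0.le
    have h11 : c * 1 ≤ c * L := mul_le_mul_of_nonneg_left (by linarith) hc0.le
    nlinarith
  · have h10 : c * L ≤ 1 / 100 * L := mul_le_mul_of_nonneg_right hc2 hL0.le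
    nlinarith
  · have h10 : Real.log L / L ≤ (1 / 5) ^ 2 := by
      rw [div_le_iff₀ hL0]
      have : c ^ 2 ≤ 1 / 100 := hc3.trans hc2
      nlinarith
    have h11 := Real.sqrt_le_sqrt h10
    rw [Real.sqrt_sq (by norm_num)] at h11
    linarith

end Pool.Agent.Q255.MK
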