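import Pool.Agent.Q255.MK.Low3

/-!
# Project MK: the lower bound of the level sets, assembly
-/

set_option autoImplicit false

open MeasureTheory Finset Filter Topology

namespace Pool.Agent.Q255.MK

open Q289.PAM Pool.Agent.Q255.RM Pool.Agent.Q255.FG

lemma big_bg (v : ℝ) (N : ℕ) : big v N = bg v (N : ℝ) := rfl

/-- analysis at one scale: `T ≤ 8 M` -/
lemma scale {κ : ℝ} (hκ : 0 < κ) {M T v v' : ℝ} (hM : 0 < M) (hMT : M ≤ T) (hT : T ≤ 8 * M)
    (hv' : 0 ≤ v') (hv'1 : v' ≤ 1) (hvv : v' + κ ≤ v)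
    (h1 : 9 ≤ Real.log M) (h2 : 3 * Real.log (Real.log M) + 3 ≤ Real.sqrt (Real.log M * Real.log (Real.log M)))
    (h3 : Real.log 100 ≤ κ * Real.sqrt (Real.log M * Real.log (Real.log M))) :
    8 ≤ bg v M / 2 - 1 ∧ bg v' T ≤ (bg v M / 2 - 1) / 8 := by
  obtain ⟨L, hL⟩ : ∃ L, L = Real.log M := ⟨_, rfl⟩
  rw [← hL] at h1 h2 h3
  have hL0 : 0 < L := by linarith
  obtain ⟨E, hE⟩ : ∃ E, E = Real.sqrt (L * Real.log L) := ⟨_, rfl⟩
  rw [← hE] at h2 h3
  have hl2 : 2 ≤ Real.log L := by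
    have h4 : Real.log 9 ≤ Real.log L := Real.log_le_log (by norm_num) h1
    have h5 : (2 : ℝ) ≤ Real.log 9 := by
      rw [Real.le_log_iff_exp_le (by norm_num)]
      have h6 : Real.exp 2 = Real.exp 1 * Real.exp 1 := by rw [← Real.exp_add]; norm_num
      have h7 := Real.exp_one_lt_d9
      rw [h6]
      nlinarith [Real.exp_pos 1]
    linarith
  have hE2 : E ^ 2 = L * Real.log L := by rw [hE, Real.sq_sqrt (by positivity)]
  have hE0 : 0 < E := by rw [hE]; positivity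
  -- E_T ≤ E + 1
  have hlT1 : L ≤ Real.log T := by rw [hL]; exact Real.log_le_log hM hMT
  have hlT : Real.log T ≤ L + 3 := by
    have h4 : Real.log T ≤ Real.log (8 * M) := Real.log_le_log (by linarith) hT
    rw [Real.log_mul (by norm_num) hM.ne', ← hL] at h4
    have h5 : Real.log 8 ≤ 3 := by
      rw [Real.log_le_iff_le_exp (by norm_num)]
      have h6 : Real.exp 3 = Real.exp 1 * Real.exp 1 * Real.exp 1 := by
        rw [← Real.exp_add, ← Real.exp_add]; norm_num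
      have h7 := Real.exp_one_gt_d9
      rw [h6]
      have h8 : (2 : ℝ) ≤ Real.exp 1 := by linarith
      calc (8 : ℝ) = 2 * 2 * 2 := by norm_num
        _ ≤ _ := by gcongr
    linarith
  have hET : Real.sqrt (Real.log T * Real.log (Real.log T)) ≤ E + 1 := by
    rw [Real.sqrt_le_left (by linarith)]
    have h4 : Real.log (Real.log T) ≤ Real.log L + 3 / L := by
      have h5 : Real.log (Real.log T) ≤ Real.log (L + 3) := Real.log_le_log (by linarith) hlT
      have h6 : Real.log (L + 3) = Real.log L + Real.log (1 + 3 / L) := by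
        rw [← Real.log_mul hL0.ne' (by positivity)]
        congr 1
        field_simp
      have h7 : Real.log (1 + 3 / L) ≤ 3 / L := by
        have := Real.log_le_sub_one_of_pos (show 0 < 1 + 3 / L by positivity)
        linarith
      linarith
    have h5 : 0 ≤ Real.log (Real.log T) := Real.log_nonneg (by linarith)
    have h6 : Real.log T * Real.log (Real.log T) ≤ (L + 3) * (Real.log L + 3 / L) :=
      mul_le_mul hlT h4 h5 (by linarith)
    have h7 : (L + 3) * (Real.log L + 3 / L) = L * Real.log L + 3 * Real.log L + 3 + 9 / L := by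
      field_simp
      ring
    have h8 : 9 / L ≤ 1 := by
      rw [div_le_one hL0]
      exact h1
    nlinarith
  have hb : 100 ≤ bg κ M := by
    unfold bg
    rw [← hL, ← hE]
    calc (100 : ℝ) = Real.exp (Real.log 100) := (Real.exp_log (by norm_num)).symm
      _ ≤ _ := Real.exp_le_exp.2 h3
  have hadd : bg (v' + κ) M = bg v' M * bg κ M := by
    unfold bg
    rw [← Real.exp_add]
    congr 1
    ring
  have hv'M : 1 ≤ bg v' M := by
    unfold bg
    apply Real.one_le_exp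
    positivity
  have hbv : bg v' M * bg κ M ≤ bg v M := by
    rw [← hadd]
    exact bg_mono_v hvv M
  have h100 : bg v' M * 100 ≤ bg v' M * bg κ M := mul_le_mul_of_nonneg_left hb (by linarith)
  have hT' : bg v' T ≤ bg v' M * 2.7182818286 := by
    have h4 : bg v' T ≤ Real.exp (v' * E + 1) := by
      unfold bg
      apply Real.exp_le_exp.2
      calc v' * Real.sqrt (Real.log T * Real.log (Real.log T)) ≤ v' * (E + 1) :=
            mul_le_mul_of_nonneg_left hET hv'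
        _ ≤ v' * E + 1 := by linarith
    refine h4.trans ?_
    rw [Real.exp_add]
    have h5 : Real.exp (v' * E) = bg v' M := by
      unfold bg
      rw [← hL, ← hE]
    rw [h5]
    exact mul_le_mul_of_nonneg_left Real.exp_one_lt_d9.le (by linarith)
  constructor
  · linarith
  · linarith

theorem lower (hS : S_SQ) (hSup : S_SUP) (hLG : S_LG) (hA : S_A1) (hE : S_EXPM) (hLS : S_LS) (hBAD : S_BAD)
    (hLTM : S_LTM) (hTAIL : S_TAIL) : ∀ᵐ ω ∂PT, ∀ ε : ℝ, 0 < ε → ∃ T₀ : ℝ, 3 ≤ T₀ ∧ ∀ T : ℝ, T₀ ≤ T →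
      ∀ v : ℝ, 0 ≤ v → 2 * v ^ 2 + ε ≤ 1 → T ^ (1 - 2 * v ^ 2 - ε) ≤ volume.real (LV ω v T) := by
  filter_upwards [fam_as hLG hA hE hLS hBAD, sm_as hLTM hTAIL, E4_as hS hSup] with ω hfam hsm hE4 ε hε
  obtain ⟨K, hK⟩ := exists_nat_gt (max (34 / ε) 1)
  have hK1 : (1 : ℝ) < K := lt_of_le_of_lt (le_max_right _ _) hK
  have hKε : 34 / ε < K := lt_of_le_of_lt (le_max_left _ _) hK
  have hK0 : (0 : ℝ) < K := by linarith
  have hK1' : 1 ≤ K := by exact_mod_cast hK1.le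
  have hKe : 34 / (K : ℝ) ≤ ε := by
    rw [div_lt_iff₀ hε] at hKε
    rw [div_le_iff₀ hK0]
    linarith
  have hκ : (0 : ℝ) < 1 / (K : ℝ) := by positivity
  have ht : Tendsto (fun i : ℕ => Real.log ((2 ^ i : ℕ) : ℝ)) atTop atTop := by
    have h1 : Tendsto (fun i : ℕ => 2 ^ i) atTop (atTop : Filter ℕ) := tendsto_pow_atTop_atTop_of_one_lt (by norm_num)
    exact tL.comp h1
  have hM2 : Tendsto (fun i : ℕ => 2 ^ i) atTop (atTop : Filter ℕ) := tendsto_pow_atTop_atTop_of_one_lt (by norm_num)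
  obtain ⟨N₀, hN₀⟩ := eventually_atTop.1 hE4
  have hall := (hfam K hK1').and ((hM2.eventually hsm).and ((hM2.eventually (eventually_ge_atTop (max N₀ 16))).and
    (ht.eventually (ev_low hε hκ))))
  obtain ⟨i₀, hi₀⟩ := eventually_atTop.1 hall
  refine ⟨max ((2 : ℝ) ^ (i₀ + 2)) 3, le_max_right _ _, fun T hT v hv0 hvε => ?_⟩
  have hT3 : 3 ≤ T := (le_max_right _ _).trans hT
  have hTi : (2 : ℝ) ^ (i₀ + 2) ≤ T := (le_max_left _ _).trans hT
  have hT0 : 0 < T := by linarith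
  -- the scale
  obtain ⟨r, hr⟩ : ∃ r, r = Nat.log 2 ⌊T⌋₊ := ⟨_, rfl⟩
  have hfl : ⌊T⌋₊ ≠ 0 := by
    have : 1 ≤ ⌊T⌋₊ := Nat.le_floor (by push_cast; linarith)
    omega
  have hr1 : (2 : ℝ) ^ r ≤ T := by
    have h1 : 2 ^ r ≤ ⌊T⌋₊ := by rw [hr]; exact Nat.pow_log_le_self 2 hfl
    have h2 : ((2 ^ r : ℕ) : ℝ) ≤ T := (Nat.cast_le.2 h1).trans (Nat.floor_le hT0.le)
    push_cast at h2
    exact h2
  have hr2 : T < (2 : ℝ) ^ (r + 1) := by
    have h1 : ⌊T⌋₊ < 2 ^ (r + 1) := by rw [hr]; exact Nat.lt_pow_succ_log_self (by norm_num) _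
    have h2 : T < ((2 ^ (r + 1) : ℕ) : ℝ) := (Nat.floor_lt hT0.le).1 h1
    push_cast at h2
    exact h2
  have hri : i₀ + 2 ≤ r := by
    have h1 : (2 : ℝ) ^ (i₀ + 2) < (2 : ℝ) ^ (r + 1) := lt_of_le_of_lt hTi hr2
    have h2 : i₀ + 2 < r + 1 := (pow_lt_pow_iff_right₀ (by norm_num)).1 h1
    omega
  obtain ⟨i, hi⟩ : ∃ i, r = i + 2 := ⟨r - 2, by omega⟩
  have hi0 : i₀ ≤ i := by omega
  obtain ⟨hf, hs, hMN, hL⟩ := hi₀ i hi0
  obtain ⟨M, hMd⟩ : ∃ M, M = 2 ^ i := ⟨_, rfl⟩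
  rw [← hMd] at hf hs hMN hL
  have hM16 : 16 ≤ M := (le_max_right _ _).trans hMN
  have hMN₀ : N₀ ≤ M := (le_max_left _ _).trans hMN
  have hMR : ((M : ℕ) : ℝ) = 2 ^ i := by rw [hMd]; push_cast; rfl
  have hM0 : (0 : ℝ) < M := by rw [hMR]; positivity
  have hM16' : (16 : ℝ) ≤ M := by exact_mod_cast hM16
  have hT4 : 4 * (M : ℝ) ≤ T := by
    rw [hMR]
    calc 4 * (2 : ℝ) ^ i = 2 ^ r := by rw [hi]; ring
      _ ≤ T := hr1
  have hT8 : T ≤ 8 * M := by
    rw [hMR]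
    calc T ≤ (2 : ℝ) ^ (r + 1) := hr2.le
      _ = 8 * 2 ^ i := by rw [hi]; ring
  obtain ⟨c1, c2, c3, c4, c5, c6⟩ := hL
  obtain ⟨L, hLd⟩ : ∃ L, L = Real.log M := ⟨_, rfl⟩
  have hL9 : 9 ≤ L := by rw [hLd]; exact c1
  -- the grid point
  have hv1 : v ≤ 1 := by nlinarith
  obtain ⟨m, hm⟩ : ∃ m, m = ⌊K * v⌋₊ := ⟨_, rfl⟩
  have hm1 : (m : ℝ) ≤ K * v := by rw [hm]; exact Nat.floor_le (by positivity)
  have hm2 : K * v < m + 1 := by rw [hm]; exact Nat.lt_floor_add_one _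
  have hmK : m ∈ range (K + 1) := by
    rw [Finset.mem_range]
    have h1 : (m : ℝ) < K + 1 := by nlinarith
    exact_mod_cast h1
  have hg1 : v + 1 / K ≤ gv K m := by
    unfold gv
    rw [le_div_iff₀ hK0]
    have h1 : (v + 1 / (K : ℝ)) * K = K * v + 1 := by field_simp
    rw [h1]
    linarith
  have hg2 : gv K m ≤ v + 2 / K := by
    unfold gv
    rw [div_le_iff₀ hK0]
    have h1 : (v + 2 / (K : ℝ)) * K = K * v + 2 := by field_simp
    rw [h1]
    linarith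
  have hiK : 1 / (K : ℝ) ≤ 1 := by
    rw [div_le_one hK0]
    exact hK1.le
  have hg3 : 2 * gv K m ^ 2 + 1 / (K : ℝ) ≤ 2 * v ^ 2 + ε / 2 := by
    have h1 : gv K m ^ 2 ≤ (v + 2 / K) ^ 2 :=
      pow_le_pow_left₀ (by unfold gv; positivity) hg2 2
    have h2 : (2 : ℝ) / K = 2 * (1 / K) := by ring
    have h3 : 34 * (1 / (K : ℝ)) ≤ ε := by
      calc 34 * (1 / (K : ℝ)) = 34 / K := by ring
        _ ≤ ε := hKe
    rw [h2] at h1
    nlinarith
  have hG := hf m hmK (by linarith)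
  obtain ⟨w, hw⟩ : ∃ w, w = gv K m := ⟨_, rfl⟩
  rw [← hw] at hg1 hg2 hg3 hG
  obtain ⟨hsc1, hsc2⟩ := scale hκ hM0 (by linarith : (M : ℝ) ≤ T) hT8 hv0 hv1 hg1 c1 c2 c3
  -- the sup bound
  obtain ⟨S, hSd⟩ : ∃ S, S = bg 2 ((2 * M : ℕ) : ℝ) := ⟨_, rfl⟩
  have hS1 : 1 ≤ S := by
    rw [hSd]
    unfold bg
    apply Real.one_le_exp
    positivity
  have hSL : S ^ 2 ≤ Real.exp (4 * Real.sqrt ((L + 1) * Real.log (L + 1))) := by
    have h1 : S ^ 2 = Real.exp (4 * Real.sqrt (Real.log ((2 * M : ℕ) : ℝ) *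
        Real.log (Real.log ((2 * M : ℕ) : ℝ)))) := by
      rw [hSd]
      unfold bg
      rw [← Real.exp_nat_mul]
      congr 1
      push_cast
      ring
    rw [h1, Real.exp_le_exp]
    have h2 : Real.log ((2 * M : ℕ) : ℝ) ≤ L + 1 := by
      push_cast
      rw [Real.log_mul (by norm_num) hM0.ne', ← hLd]
      have := Real.log_two_lt_d9
      linarith
    have h3 : L ≤ Real.log ((2 * M : ℕ) : ℝ) := by
      rw [hLd]
      apply Real.log_le_log hM0
      push_cast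
      linarith
    have h4 : Real.log (Real.log ((2 * M : ℕ) : ℝ)) ≤ Real.log (L + 1) := Real.log_le_log (by linarith) h2
    have h5 : 0 ≤ Real.log (Real.log ((2 * M : ℕ) : ℝ)) := Real.log_nonneg (by linarith)
    have h6 : Real.log ((2 * M : ℕ) : ℝ) * Real.log (Real.log ((2 * M : ℕ) : ℝ)) ≤ (L + 1) * Real.log (L + 1) :=
      mul_le_mul h2 h4 h5 (by linarith)
    have := Real.sqrt_le_sqrt h6
    linarith
  rw [← hLd] at c4 c5 c6
  have hexpL : Real.exp L = M := by rw [hLd, Real.exp_log hM0]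
  have hSM : 100 * S ^ 2 ≤ M := by
    calc 100 * S ^ 2 ≤ Real.exp (Real.log 100) * Real.exp (4 * Real.sqrt ((L + 1) * Real.log (L + 1))) := by
          rw [Real.exp_log (by norm_num)]
          linarith
      _ = Real.exp (Real.log 100 + 4 * Real.sqrt ((L + 1) * Real.log (L + 1))) := (Real.exp_add _ _).symm
      _ ≤ Real.exp L := Real.exp_le_exp.2 c5
      _ = M := hexpL
  have hδ0 : 0 < dl M := by
    unfold dl
    rw [← hLd]
    have : 0 < Real.log L := Real.log_pos (by linarith)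
    positivity
  have hδ1 : dl M ≤ 1 := by
    unfold dl
    rw [← hLd]
    exact c6
  have hδL : 1 / L ≤ dl M := by
    unfold dl
    rw [← hLd]
    have h1 : (1 / L) ^ 2 ≤ Real.log L / L := by
      rw [div_pow, one_pow, div_le_div_iff₀ (by positivity) (by linarith)]
      have h2 : 1 ≤ Real.log L := by
        rw [Real.le_log_iff_exp_le (by linarith)]
        have := Real.exp_one_lt_d9
        linarith
      nlinarith
    have h3 := Real.le_sqrt_of_sq_le h1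
    have h4 : 0 ≤ Real.sqrt (Real.log L / L) := Real.sqrt_nonneg _
    linarith
  have hmain : 24 * S ^ 2 ≤ dl M * (M : ℝ) ^ (ε / 2) := by
    have h1 : 24 * S ^ 2 * L ≤ (M : ℝ) ^ (ε / 2) := by
      have hL0 : 0 < L := by linarith
      calc 24 * S ^ 2 * L ≤ Real.exp (Real.log 24) *
            Real.exp (4 * Real.sqrt ((L + 1) * Real.log (L + 1))) * Real.exp (Real.log L) := by
            rw [Real.exp_log (by norm_num), Real.exp_log hL0]
            gcongr
        _ = Real.exp (Real.log 24 + Real.log L + 4 * Real.sqrt ((L + 1) * Real.log (L + 1))) := by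
            rw [← Real.exp_add, ← Real.exp_add]
            congr 1
            ring
        _ ≤ Real.exp (ε / 2 * L) := Real.exp_le_exp.2 c4
        _ = (M : ℝ) ^ (ε / 2) := by
            rw [Real.rpow_def_of_pos hM0, ← hLd]
            congr 1
            ring
    have hL0 : 0 < L := by linarith
    calc 24 * S ^ 2 = 1 / L * (24 * S ^ 2 * L) := by field_simp
      _ ≤ dl M * (M : ℝ) ^ (ε / 2) := mul_le_mul hδL h1 (by positivity) hδ0.le
  -- the windows
  obtain ⟨G, hGd⟩ : ∃ G, G = (Ioc M (2 * M)).filter fun j : ℕ => big w M ≤ ‖EP ω M (tw j) (dl M)‖ := ⟨_, rfl⟩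
  rw [← hGd] at hG
  have hwin : ∀ j ∈ G, dl M / S ≤ volume.real (LV ω v T ∩ Set.Icc ((j : ℝ) - S) (j + S)) := by
    intro j hj
    rw [hGd, Finset.mem_filter, Finset.mem_Ioc] at hj
    obtain ⟨⟨hj1, hj2⟩, hj3⟩ := hj
    have hjM : (M : ℝ) ≤ j := by exact_mod_cast hj1.le
    have hj2M : (j : ℝ) ≤ 2 * M := by exact_mod_cast hj2
    have hsup : ∀ t ∈ Set.Icc (0 : ℝ) (3 * j), ‖DN ω j t‖ ≤ S := by
      intro t ht
      by_contra hcon
      push Not at hcon
      apply hN₀ j (by omega)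
      refine ⟨t, ht, le_trans ?_ hcon.le⟩
      rw [hSd]
      refine bg_mono_T (by norm_num) (by linarith) ?_
      exact_mod_cast hj2
    have hlow : bg w M / 2 - 1 ≤ ‖SM ω j (tw j) (dl M)‖ := by
      have h1 := hs j (Finset.mem_Ioc.2 ⟨hj1, hj2⟩)
      rw [big_bg] at hj3
      linarith
    have h2 := windowZ hδ0 hδ1 (by omega : 16 ≤ j) hS1 le_rfl (by linarith : 100 * S ^ 2 ≤ (j : ℝ)) hsc1 hsup hlow
    refine h2.trans (measureReal_mono ?_ ?_)
    · rintro t ⟨ht1, ht2⟩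
      rw [Set.mem_ofPred_eq] at ht1
      have hSj : S ≤ M / 16 := by nlinarith
      refine ⟨⟨by linarith [ht2.1], by linarith [ht2.2], hsc2.trans ht1⟩, ht2⟩
    · refine ne_top_of_le_ne_top ?_ (measure_mono Set.inter_subset_right)
      simp
  have hcnt := count (LV_meas ω v T) (LV_fin ω v T) (by linarith : (0 : ℝ) ≤ S) hwin
  have hV0 : 0 ≤ volume.real (LV ω v T) := measureReal_nonneg
  -- conclusion
  have h1 : (M : ℝ) ^ (1 - 2 * v ^ 2 - ε / 2) ≤ (G.card : ℝ) := by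
    refine le_trans ?_ hG
    exact Real.rpow_le_rpow_of_exponent_le (by linarith) (by linarith)
  have h2 : (M : ℝ) ^ (1 - 2 * v ^ 2 - ε / 2) * dl M ≤ 3 * S ^ 2 * volume.real (LV ω v T) := by
    have h3 : (M : ℝ) ^ (1 - 2 * v ^ 2 - ε / 2) * (dl M / S) ≤ (2 * S + 1) * volume.real (LV ω v T) :=
      (mul_le_mul_of_nonneg_right h1 (by positivity)).trans hcnt
    have h4 : (2 * S + 1) * volume.real (LV ω v T) ≤ 3 * S * volume.real (LV ω v T) :=
      mul_le_mul_of_nonneg_right (by linarith) hV0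
    have h5 : (M : ℝ) ^ (1 - 2 * v ^ 2 - ε / 2) * dl M =
        S * ((M : ℝ) ^ (1 - 2 * v ^ 2 - ε / 2) * (dl M / S)) := by
      have : S ≠ 0 := by linarith
      field_simp
    rw [h5]
    calc S * ((M : ℝ) ^ (1 - 2 * v ^ 2 - ε / 2) * (dl M / S)) ≤ S * (3 * S * volume.real (LV ω v T)) :=
          mul_le_mul_of_nonneg_left (h3.trans h4) (by linarith)
      _ = _ := by ring
  have h3 : T ^ (1 - 2 * v ^ 2 - ε) ≤ 8 * (M : ℝ) ^ (1 - 2 * v ^ 2 - ε) := by
    have hx0 : 0 ≤ 1 - 2 * v ^ 2 - ε := by linarith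
    have hx1 : 1 - 2 * v ^ 2 - ε ≤ 1 := by nlinarith [sq_nonneg v]
    calc T ^ (1 - 2 * v ^ 2 - ε) ≤ (8 * M) ^ (1 - 2 * v ^ 2 - ε) := Real.rpow_le_rpow hT0.le hT8 hx0
      _ = 8 ^ (1 - 2 * v ^ 2 - ε) * (M : ℝ) ^ (1 - 2 * v ^ 2 - ε) := Real.mul_rpow (by norm_num) hM0.le
      _ ≤ 8 ^ (1 : ℝ) * (M : ℝ) ^ (1 - 2 * v ^ 2 - ε) := by
          refine mul_le_mul_of_nonneg_right ?_ (by positivity)
          exact Real.rpow_le_rpow_of_exponent_le (by norm_num) hx1
      _ = _ := by rw [Real.rpow_one]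
  have h4 : (M : ℝ) ^ (1 - 2 * v ^ 2 - ε) * (M : ℝ) ^ (ε / 2) = (M : ℝ) ^ (1 - 2 * v ^ 2 - ε / 2) := by
    rw [← Real.rpow_add hM0]
    congr 1
    ring
  have h5 : (M : ℝ) ^ (1 - 2 * v ^ 2 - ε) * (24 * S ^ 2) ≤ 3 * S ^ 2 * volume.real (LV ω v T) := by
    calc (M : ℝ) ^ (1 - 2 * v ^ 2 - ε) * (24 * S ^ 2) ≤
          (M : ℝ) ^ (1 - 2 * v ^ 2 - ε) * (dl M * (M : ℝ) ^ (ε / 2)) :=
          mul_le_mul_of_nonneg_left hmain (by positivity)
      _ = (M : ℝ) ^ (1 - 2 * v ^ 2 - ε / 2) * dl M := by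
          rw [← h4]
          ring
      _ ≤ _ := h2
  have hS2 : 0 < 3 * S ^ 2 := by positivity
  have h6 : 8 * (M : ℝ) ^ (1 - 2 * v ^ 2 - ε) ≤ volume.real (LV ω v T) := by
    by_contra hcon
    push Not at hcon
    have := mul_lt_mul_of_pos_left hcon hS2
    linarith
  exact h3.trans h6

end Pool.Agent.Q255.MK
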