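import Pool.Agent.Q255.MK.Reals

/-!
# Project MK: the maximum and the level sets
-/

set_option autoImplicit false

open MeasureTheory Finset Filter Topology

namespace Pool.Agent.Q255.MK

open Q289.PAM Pool.Agent.Q255.RM

/-- `exp (v √(log T log log T))` -/
noncomputable def bg (v T : ℝ) : ℝ := Real.exp (v * Real.sqrt (Real.log T * Real.log (Real.log T)))

lemma bg_pos (v T : ℝ) : 0 < bg v T := Real.exp_pos _

lemma bg_mono_v {v w : ℝ} (h : v ≤ w) (T : ℝ) : bg v T ≤ bg w T := by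
  unfold bg
  rw [Real.exp_le_exp]
  exact mul_le_mul_of_nonneg_right h (Real.sqrt_nonneg _)

lemma bg_mono_T {v S T : ℝ} (hv : 0 ≤ v) (hS : 3 ≤ S) (h : S ≤ T) : bg v S ≤ bg v T := by
  unfold bg
  rw [Real.exp_le_exp]
  have h0 : 1 < Real.log S := by
    rw [Real.lt_log_iff_exp_lt (by linarith)]
    have := Real.exp_one_lt_d9
    linarith
  have h1 : Real.log S ≤ Real.log T := Real.log_le_log (by linarith) h
  have h2 : Real.log (Real.log S) ≤ Real.log (Real.log T) := Real.log_le_log (by linarith) h1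
  have h3 : 0 ≤ Real.log (Real.log S) := Real.log_nonneg h0.le
  refine mul_le_mul_of_nonneg_left (Real.sqrt_le_sqrt ?_) hv
  exact mul_le_mul h1 h2 h3 (by linarith)

/-- the exceptional event for the maximum on `[j, j + 1]` -/
def E3 (v : ℝ) (j : ℕ) : Set Om :=
  {ω | ∃ t ∈ Set.Icc (j : ℝ) (j + 1), bg v j ≤ ‖∑ n ∈ Icc 1 j, f ω n * g t n‖}

lemma E3_prob (h : S_SQ) (hS : S_SUP) {ε : ℝ} (hε : 0 < ε) (hε1 : ε ≤ 1) :
    ∃ j₀ : ℕ, ∀ j : ℕ, j₀ ≤ j → PT.real (E3 (1 / Real.sqrt 2 + ε) j) ≤ (j : ℝ) ^ (-(1 + ε)) := by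
  obtain ⟨X, hX⟩ := opt hε
  obtain ⟨j₁, hj₁⟩ := eventually_atTop.1 (tL.eventually_ge_atTop X)
  refine ⟨max j₁ 3, fun j hj => ?_⟩
  set v := 1 / Real.sqrt 2 + ε with hv
  have hj3 : 3 ≤ j := (le_max_right _ _).trans hj
  have hj0 : (0 : ℝ) < j := by exact_mod_cast (by omega : 0 < j)
  obtain ⟨hL, hopt⟩ := hX (Real.log j) (hj₁ j ((le_max_left _ _).trans hj))
  set L := Real.log j with hLd
  have hL0 : 0 < L := by linarith
  have hs2 : 0 < Real.sqrt 2 := by positivity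
  have hs2' : Real.sqrt 2 * Real.sqrt 2 = 2 := Real.mul_self_sqrt (by norm_num)
  have hi1 : 1 / Real.sqrt 2 ≤ 1 := by
    rw [div_le_one hs2]
    nlinarith
  have hi0 : 0 < 1 / Real.sqrt 2 := by positivity
  have hi2 : (1 / Real.sqrt 2) * (1 / Real.sqrt 2) = 1 / 2 := by
    rw [div_mul_div_comm, hs2']
    norm_num
  have hi3 : 1 / 2 ≤ 1 / Real.sqrt 2 := by nlinarith
  obtain ⟨k, hk1, hkL, hk⟩ := hopt v (by linarith) (by linarith)
  have hk0 : (1 : ℝ) ≤ k := by exact_mod_cast hk1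
  have h1 := hS k j (j : ℝ) (bg v j) hk1 (by omega) (bg_pos _ _)
  refine h1.trans ?_
  have h2 := db h k j hk1 hj3
  have h3 : (Real.exp 1 * (1 + L / k)) ^ (k ^ 2) =
      Real.exp ((k : ℝ) ^ 2 * Real.log (1 + L / k) + (k : ℝ) ^ 2) := by
    have h4 : 0 < 1 + L / k := by positivity
    rw [mul_pow, ← Real.exp_nat_mul, ← Real.rpow_natCast (1 + L / k), Real.rpow_def_of_pos h4, ← Real.exp_add]
    congr 1
    push_cast
    ring
  have h5 : 1 + 2 * k * L ≤ Real.exp (2 * k * (2 * Real.log L)) := by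
    have h6 : 1 + 2 * (k : ℝ) * L ≤ L ^ 4 := by
      have : 2 * (k : ℝ) * L ≤ 2 * L * L := by gcongr
      have h7 : (100 : ℝ) * 100 ≤ L ^ 2 := by nlinarith
      have h8 : L ^ 4 = L ^ 2 * L ^ 2 := by ring
      rw [h8]
      nlinarith
    refine h6.trans ?_
    have h7 : L ^ 4 = Real.exp (4 * Real.log L) := by
      conv_lhs => rw [show L = Real.exp (Real.log L) from (Real.exp_log hL0).symm]
      rw [← Real.exp_nat_mul]
      norm_num
    rw [h7, Real.exp_le_exp]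
    have h8 : 0 ≤ Real.log L := Real.log_nonneg (by linarith)
    nlinarith
  have h6 : bg v j ^ (2 * k) = Real.exp (2 * k * (v * Real.sqrt (L * Real.log L))) := by
    unfold bg
    rw [← Real.exp_nat_mul]
    congr 1
    push_cast
    ring
  rw [h6, div_le_iff₀ (Real.exp_pos _)]
  have hD0 := D_nonneg k j
  have h7 : (j : ℝ) ^ (-(1 + ε)) = Real.exp (-(1 + ε) * L) := by
    rw [Real.rpow_def_of_pos hj0]
    congr 1
    ring
  rw [h7, ← Real.exp_add]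
  calc (1 + 2 * k * L) * D k j ≤ Real.exp (2 * k * (2 * Real.log L)) *
        Real.exp ((k : ℝ) ^ 2 * Real.log (1 + L / k) + (k : ℝ) ^ 2) := by
        rw [h3] at h2
        exact mul_le_mul h5 h2 hD0 (Real.exp_pos _).le
    _ = Real.exp (2 * k * (2 * Real.log L) + ((k : ℝ) ^ 2 * Real.log (1 + L / k) + (k : ℝ) ^ 2)) := by
        rw [← Real.exp_add]
    _ ≤ _ := by
        rw [Real.exp_le_exp]
        have h8 : (ε - 2 * v ^ 2) * L ≤ -(1 + ε) * L := by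
          refine mul_le_mul_of_nonneg_right ?_ hL0.le
          rw [hv]
          nlinarith
        nlinarith [sq_nonneg (k : ℝ)]

lemma Z_floor (ω : Om) (t : ℝ) : Z ω t = ∑ n ∈ Icc 1 ⌊t⌋₊, f ω n * g t n := rfl

theorem max_as (h : S_SQ) (hS : S_SUP) : ∀ᵐ ω ∂PT, ∀ ε : ℝ, 0 < ε → ∃ T₀ : ℝ, 3 ≤ T₀ ∧ ∀ T : ℝ, T₀ ≤ T →
    ∀ t : ℝ, 0 ≤ t → t ≤ T → ‖Z ω t‖ ≤ bg (1 / Real.sqrt 2 + ε) T := by
  have h1 : ∀ᵐ ω ∂PT, ∀ n : ℕ, ∀ᶠ j : ℕ in atTop, ω ∉ E3 (1 / Real.sqrt 2 + 1 / ((n : ℝ) + 1)) j := by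
    rw [ae_all_iff]
    intro n
    have hε : (0 : ℝ) < 1 / ((n : ℝ) + 1) := by positivity
    have hε1 : 1 / ((n : ℝ) + 1) ≤ 1 := by
      rw [div_le_one (by positivity)]
      have := Nat.cast_nonneg (α := ℝ) n
      linarith
    obtain ⟨j₀, hj₀⟩ := E3_prob h hS hε hε1
    have hs : Summable fun j : ℕ => (j : ℝ) ^ (-(1 + 1 / ((n : ℝ) + 1))) :=
      Real.summable_nat_rpow.2 (by linarith)
    exact bc hs hj₀
  filter_upwards [h1] with ω hω ε hε
  obtain ⟨n, hn⟩ := exists_nat_one_div_lt hε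
  obtain ⟨j₀, hj₀⟩ := eventually_atTop.1 (hω n)
  set v := 1 / Real.sqrt 2 + 1 / ((n : ℝ) + 1) with hv
  have hv0 : 0 < v := by positivity
  have ht : Tendsto (fun T : ℝ => bg v T) atTop atTop := by
    unfold bg
    refine Real.tendsto_exp_atTop.comp ?_
    refine Tendsto.const_mul_atTop hv0 ?_
    refine Real.tendsto_sqrt_atTop.comp ?_
    exact Real.tendsto_log_atTop.atTop_mul_atTop₀ (Real.tendsto_log_atTop.comp Real.tendsto_log_atTop)
  obtain ⟨T₁, hT₁⟩ := eventually_atTop.1 (ht.eventually_ge_atTop (2 * Real.sqrt (max j₀ 3 : ℕ)))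
  refine ⟨max T₁ 3, le_max_right _ _, fun T hT t ht0 htT => ?_⟩
  have hvε : bg v T ≤ bg (1 / Real.sqrt 2 + ε) T := bg_mono_v (by linarith) T
  refine le_trans ?_ hvε
  rcases lt_or_ge t ((max j₀ 3 : ℕ) : ℝ) with hc | hc
  · calc ‖Z ω t‖ ≤ 2 * Real.sqrt t := norm_Z_le ω t ht0
      _ ≤ 2 * Real.sqrt (max j₀ 3 : ℕ) := by
          have := Real.sqrt_le_sqrt hc.le
          linarith
      _ ≤ bg v T := hT₁ T ((le_max_left _ _).trans hT)
  · have hfl : max j₀ 3 ≤ ⌊t⌋₊ := Nat.le_floor hc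
    have hE := hj₀ ⌊t⌋₊ ((le_max_left _ _).trans hfl)
    have hf3 : 3 ≤ ⌊t⌋₊ := (le_max_right _ _).trans hfl
    have h3 : (3 : ℝ) ≤ (⌊t⌋₊ : ℝ) := by exact_mod_cast hf3
    have h4 : ‖Z ω t‖ < bg v ⌊t⌋₊ := by
      by_contra hcon
      push Not at hcon
      exact hE ⟨t, ⟨Nat.floor_le ht0, (Nat.lt_floor_add_one t).le⟩, hcon⟩
    exact h4.le.trans (bg_mono_T hv0.le h3 ((Nat.floor_le ht0).trans htT))

/-- the level sets -/
theorem level {ω : Om} (h : ∃ T₀ : ℝ, 3 ≤ T₀ ∧ ∀ T : ℝ, T₀ ≤ T →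
    ∀ k : ℕ, 1 ≤ k → ∫ t in (0 : ℝ)..T, ‖Z ω t‖ ^ (2 * k) ≤ T * bs T k ^ (k ^ 2))
    (hm : ∀ ε : ℝ, 0 < ε → ∃ T₀ : ℝ, 3 ≤ T₀ ∧ ∀ T : ℝ, T₀ ≤ T →
      ∀ t : ℝ, 0 ≤ t → t ≤ T → ‖Z ω t‖ ≤ bg (1 / Real.sqrt 2 + ε) T) {ε : ℝ} (hε : 0 < ε) (hε1 : ε ≤ 1) :
    ∃ T₀ : ℝ, 3 ≤ T₀ ∧ ∀ T : ℝ, T₀ ≤ T → ∀ v : ℝ, 0 ≤ v →
      volume.real {t : ℝ | 0 < t ∧ t ≤ T ∧ bg v T ≤ ‖Z ω t‖} ≤ T ^ (1 - 2 * v ^ 2 + ε) := by
  obtain ⟨T₀, hT3, hT₀⟩ := h
  obtain ⟨T₂, -, hT₂⟩ := hm (1 / 10) (by norm_num)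
  obtain ⟨X, hX⟩ := opt (show 0 < ε / 2 by positivity)
  obtain ⟨T₁, hT₁⟩ := eventually_atTop.1 (Real.tendsto_log_atTop.eventually_ge_atTop X)
  refine ⟨max (max T₀ T₁) T₂, le_max_of_le_left (le_max_of_le_left hT3), fun T hT v hv => ?_⟩
  have ha : T₀ ≤ T := (le_max_left _ _).trans ((le_max_left _ _).trans hT)
  have hb : T₁ ≤ T := (le_max_right _ _).trans ((le_max_left _ _).trans hT)
  have hc : T₂ ≤ T := (le_max_right _ _).trans hT
  have hT1 : 1 ≤ T := by linarith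
  have hT0 : 0 < T := by linarith
  obtain ⟨hL, hopt⟩ := hX (Real.log T) (hT₁ T hb)
  set L := Real.log T with hLd
  have hL0 : 0 < L := by linarith
  have hset : {t : ℝ | 0 < t ∧ t ≤ T ∧ bg v T ≤ ‖Z ω t‖} = {t : ℝ | bg v T ≤ ‖Z ω t‖} ∩ Set.Ioc 0 T := by
    ext t
    simp only [Set.mem_inter_iff, Set.mem_Ioc, Set.mem_ofPred_eq]
    tauto
  rcases lt_or_ge v (ε / 2) with h1 | h1
  · have h2 : volume.real {t : ℝ | 0 < t ∧ t ≤ T ∧ bg v T ≤ ‖Z ω t‖} ≤ T := by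
      rw [hset]
      calc volume.real ({t : ℝ | bg v T ≤ ‖Z ω t‖} ∩ Set.Ioc 0 T) ≤ volume.real (Set.Ioc 0 T) :=
            measureReal_mono Set.inter_subset_right (by simp)
        _ = T := by
            rw [Real.volume_real_Ioc_of_le hT0.le, sub_zero]
    refine h2.trans ?_
    calc T = T ^ (1 : ℝ) := (Real.rpow_one T).symm
      _ ≤ _ := by
        refine Real.rpow_le_rpow_of_exponent_le hT1 ?_
        nlinarith
  rcases lt_or_ge 1 v with h2 | h2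
  · have hem : {t : ℝ | 0 < t ∧ t ≤ T ∧ bg v T ≤ ‖Z ω t‖} = ∅ := by
      rw [Set.eq_empty_iff_forall_notMem]
      rintro t ⟨ht0, htT, hbt⟩
      have h3 := hT₂ T hc t ht0.le htT
      have h4 : bg (1 / Real.sqrt 2 + 1 / 10) T < bg v T := by
        unfold bg
        rw [Real.exp_lt_exp]
        have hs2 : (1.4 : ℝ) ≤ Real.sqrt 2 := Real.le_sqrt_of_sq_le (by norm_num)
        have h5 : 1 / Real.sqrt 2 ≤ 1 / 1.4 := by
          apply one_div_le_one_div_of_le (by norm_num) hs2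
        have h6 : 0 < Real.sqrt (L * Real.log L) := by
          have : 0 < Real.log L := Real.log_pos (by linarith)
          positivity
        have h7 : 1 / Real.sqrt 2 + 1 / 10 < v := by
          have h8 : (1 : ℝ) / 1.4 ≤ 0.72 := by norm_num
          linarith
        exact mul_lt_mul_of_pos_right h7 h6
      linarith
    rw [hem]
    simp only [measureReal_empty]
    positivity
  · obtain ⟨k, hk1, hkL, hk⟩ := hopt v h1 (by linarith)
    have hk0 : (1 : ℝ) ≤ k := by exact_mod_cast hk1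
    have h3 := hT₀ T ha k hk1
    have hV0 : 0 < bg v T ^ (2 * k) := pow_pos (bg_pos _ _) _
    have hint : IntegrableOn (fun t => ‖Z ω t‖ ^ (2 * k)) (Set.Ioc 0 T) volume := by
      have := intZ_real k ω T hT0.le
      rwa [intervalIntegrable_iff_integrableOn_Ioc_of_le hT0.le] at this
    have hM := mul_meas_ge_le_integral_of_nonneg (μ := volume.restrict (Set.Ioc 0 T))
      (f := fun t => ‖Z ω t‖ ^ (2 * k)) (Eventually.of_forall fun t => by positivity) hint (bg v T ^ (2 * k))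
    have h4 : volume.real {t : ℝ | 0 < t ∧ t ≤ T ∧ bg v T ≤ ‖Z ω t‖} ≤
        (volume.restrict (Set.Ioc 0 T)).real {t | bg v T ^ (2 * k) ≤ ‖Z ω t‖ ^ (2 * k)} := by
      rw [hset, measureReal_def, measureReal_def, Measure.restrict_apply' measurableSet_Ioc]
      refine ENNReal.toReal_mono ?_ (measure_mono ?_)
      · refine ne_top_of_le_ne_top ?_ (measure_mono Set.inter_subset_right)
        simp
      · intro t ht
        exact ⟨pow_le_pow_left₀ (bg_pos _ _).le ht.1 _, ht.2⟩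
    have h5 : ∫ t in Set.Ioc 0 T, ‖Z ω t‖ ^ (2 * k) ≤ T * bs T k ^ (k ^ 2) := by
      rw [← intervalIntegral.integral_of_le hT0.le]
      exact h3
    have h6 : volume.real {t : ℝ | 0 < t ∧ t ≤ T ∧ bg v T ≤ ‖Z ω t‖} ≤
        T * bs T k ^ (k ^ 2) / bg v T ^ (2 * k) := by
      rw [le_div_iff₀ hV0]
      calc _ ≤ (volume.restrict (Set.Ioc 0 T)).real {t | bg v T ^ (2 * k) ≤ ‖Z ω t‖ ^ (2 * k)} *
            bg v T ^ (2 * k) := by gcongr
        _ ≤ _ := by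
            rw [mul_comm]
            exact hM.trans h5
    refine h6.trans ?_
    have h7 : bg v T ^ (2 * k) = Real.exp (2 * k * (v * Real.sqrt (L * Real.log L))) := by
      unfold bg
      rw [← Real.exp_nat_mul]
      congr 1
      push_cast
      ring
    have h8 : bs T k ^ (k ^ 2) = Real.exp ((k : ℝ) ^ 2 * Real.log (1 + L / k) + 2 * (k : ℝ) ^ 2) := by
      have h9 : 0 < 1 + L / k := by positivity
      unfold bs
      rw [mul_pow, ← Real.exp_nat_mul, ← hLd, ← Real.rpow_natCast (1 + L / k), Real.rpow_def_of_pos h9,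
        ← Real.exp_add]
      congr 1
      push_cast
      ring
    rw [h7, h8, mul_div_assoc, ← Real.exp_sub]
    have h10 : T ^ (1 - 2 * v ^ 2 + ε) = T * Real.exp ((ε - 2 * v ^ 2) * L) := by
      rw [show 1 - 2 * v ^ 2 + ε = 1 + (ε - 2 * v ^ 2) by ring, Real.rpow_add hT0, Real.rpow_one,
        Real.rpow_def_of_pos hT0]
      congr 2
      ring
    rw [h10]
    refine mul_le_mul_of_nonneg_left ?_ hT0.le
    rw [Real.exp_le_exp]
    have h11 : 0 ≤ 2 * (k : ℝ) * (2 * Real.log L) := by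
      have : 0 ≤ Real.log L := Real.log_nonneg (by linarith)
      positivity
    nlinarith

end Pool.Agent.Q255.MK
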