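import Pool.Agent.Q255.MK.Max

/-!
# Project MK: the moments of all orders from the level sets (deterministic)
-/

set_option autoImplicit false

open MeasureTheory Finset Filter Topology

namespace Pool.Agent.Q255.MK

open Q289.PAM Pool.Agent.Q255.RM

/-- the exponent of the moments of order `2 κ √(log T / log log T)` -/
noncomputable def Phi (κ : ℝ) : ℝ := if κ ≤ Real.sqrt 2 then 1 + κ ^ 2 / 2 else Real.sqrt 2 * κ

lemma sqrt2_facts : 0 < Real.sqrt 2 ∧ Real.sqrt 2 * Real.sqrt 2 = 2 ∧ Real.sqrt 2 ≤ 3 / 2 ∧ 7 / 5 ≤ Real.sqrt 2 ∧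
    1 / Real.sqrt 2 = Real.sqrt 2 / 2 := by
  have h1 : 0 < Real.sqrt 2 := by positivity
  have h2 : Real.sqrt 2 * Real.sqrt 2 = 2 := Real.mul_self_sqrt (by norm_num)
  refine ⟨h1, h2, ?_, ?_, ?_⟩
  · rw [Real.sqrt_le_left (by norm_num)]
    norm_num
  · exact Real.le_sqrt_of_sq_le (by norm_num)
  · rw [div_eq_div_iff h1.ne' (by norm_num)]
    linarith

lemma phi_up {κ v e : ℝ} (hκ : 0 ≤ κ) (he : 0 ≤ e) (hv0 : 0 ≤ v) (hv : v ≤ 1 / Real.sqrt 2 + e) :
    1 + 2 * κ * v - 2 * v ^ 2 ≤ Phi κ + 2 * κ * e := by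
  obtain ⟨h1, h2, h3, h4, h5⟩ := sqrt2_facts
  rw [h5] at hv
  unfold Phi
  split_ifs with h
  · nlinarith [sq_nonneg (κ - 2 * v), mul_nonneg hκ he]
  · push Not at h
    rcases le_or_gt v (Real.sqrt 2 / 2) with h6 | h6
    · have h7 : 0 ≤ (Real.sqrt 2 / 2 - v) * (2 * κ - 2 * (Real.sqrt 2 / 2) - 2 * v) :=
        mul_nonneg (by linarith) (by linarith)
      nlinarith [mul_nonneg hκ he]
    · have h8 : 2 * κ * v ≤ 2 * κ * (Real.sqrt 2 / 2 + e) := mul_le_mul_of_nonneg_left hv (by linarith)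
      nlinarith

lemma one_le_phi (κ : ℝ) : 1 ≤ Phi κ := by
  obtain ⟨h1, h2, h3, h4, h5⟩ := sqrt2_facts
  unfold Phi
  split_ifs with h
  · nlinarith [sq_nonneg κ]
  · push Not at h
    nlinarith

lemma g_cont_t {n : ℕ} (hn : n ≠ 0) : Continuous fun t : ℝ => g t n := by
  have : (fun t : ℝ => g t n) = fun t : ℝ => (n : ℂ) ^ (-(1 / 2 + t * Complex.I) : ℂ) := rfl
  rw [this]
  refine Continuous.const_cpow (by fun_prop) (Or.inl (by exact_mod_cast hn))

lemma Z_meas (ω : Om) : Measurable fun t : ℝ => Z ω t := by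
  obtain ⟨G, hG⟩ : ∃ G : ℕ → ℝ → ℂ, G = fun N t => ∑ n ∈ Icc 1 N, f ω n * g t n := ⟨_, rfl⟩
  have hGm : ∀ N, Measurable (G N) := by
    intro N
    rw [hG]
    have : Continuous fun t : ℝ => ∑ n ∈ Icc 1 N, f ω n * g t n := by
      refine continuous_finsetSum _ fun n hn => ?_
      rw [Finset.mem_Icc] at hn
      exact continuous_const.mul (g_cont_t (by omega))
    exact this.measurable
  have h : Measurable (Function.uncurry G) := measurable_from_prod_countable_right hGm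
  have e : (fun t => Z ω t) = (Function.uncurry G) ∘ fun t : ℝ => (⌊t⌋₊, t) := by
    funext t
    show Z ω t = G ⌊t⌋₊ t
    rw [hG]
    rfl
  rw [e]
  exact h.comp (Nat.measurable_floor.prodMk measurable_id)

/-- the level sets -/
def LV (ω : Om) (v T : ℝ) : Set ℝ := {t : ℝ | 0 < t ∧ t ≤ T ∧ bg v T ≤ ‖Z ω t‖}

lemma LV_meas (ω : Om) (v T : ℝ) : MeasurableSet (LV ω v T) := by
  have h : LV ω v T = Set.Ioc 0 T ∩ (fun t => ‖Z ω t‖) ⁻¹' Set.Ici (bg v T) := by
    ext t
    simp only [LV, Set.mem_ofPred_eq, Set.mem_inter_iff, Set.mem_Ioc, Set.mem_preimage, Set.mem_Ici]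
    tauto
  rw [h]
  exact measurableSet_Ioc.inter ((Z_meas ω).norm measurableSet_Ici)

lemma LV_fin (ω : Om) (v T : ℝ) : volume (LV ω v T) ≠ ⊤ := by
  have h : LV ω v T ⊆ Set.Ioc 0 T := fun t ht => ⟨ht.1, ht.2.1⟩
  refine ne_top_of_le_ne_top ?_ (measure_mono h)
  simp

lemma rpow_int (ω : Om) {T : ℝ} (k : ℝ) (hk : 0 ≤ k) :
    IntegrableOn (fun t => ‖Z ω t‖ ^ (2 * k)) (Set.Ioc 0 T) volume := by
  have h1 : AEStronglyMeasurable (fun t => ‖Z ω t‖ ^ (2 * k)) volume :=
    ((Z_meas ω).norm.pow_const _).aestronglyMeasurable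
  refine Measure.integrableOn_of_bounded (M := (2 * Real.sqrt T) ^ (2 * k)) (by simp) h1 ?_
  rw [ae_restrict_iff' measurableSet_Ioc]
  refine Eventually.of_forall fun t ht => ?_
  rw [Real.norm_of_nonneg (by positivity)]
  refine Real.rpow_le_rpow (norm_nonneg _) ((norm_Z_le ω t ht.1.le).trans ?_) (by positivity)
  have := Real.sqrt_le_sqrt ht.2
  linarith

lemma bg_rpow {k κ v T : ℝ} (hT : 1 < T) (hL : 1 < Real.log T)
    (hκ : κ = k * Real.sqrt (Real.log (Real.log T) / Real.log T)) :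
    bg v T ^ (2 * k) = T ^ (2 * κ * v) := by
  unfold bg
  rw [← Real.exp_mul, Real.rpow_def_of_pos (by linarith)]
  congr 1
  have hl : 0 < Real.log (Real.log T) := Real.log_pos hL
  have h1 : Real.sqrt (Real.log T * Real.log (Real.log T)) =
      Real.log T * Real.sqrt (Real.log (Real.log T) / Real.log T) := by
    have h2 : Real.log T * Real.log (Real.log T) =
        Real.log T ^ 2 * (Real.log (Real.log T) / Real.log T) := by
      have : Real.log T ≠ 0 := by linarith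
      field_simp
    rw [h2, Real.sqrt_mul (by positivity), Real.sqrt_sq (by linarith)]
  rw [h1, hκ]
  ring

/-- one level gives a lower bound of the moment -/
lemma mom_ge (ω : Om) {T k : ℝ} (hT : 0 ≤ T) (hk : 0 ≤ k) (v : ℝ) :
    bg v T ^ (2 * k) * volume.real (LV ω v T) ≤ ∫ t in (0 : ℝ)..T, ‖Z ω t‖ ^ (2 * k) := by
  rw [intervalIntegral.integral_of_le hT]
  have hM := mul_meas_ge_le_integral_of_nonneg (μ := volume.restrict (Set.Ioc 0 T))
      (f := fun t => ‖Z ω t‖ ^ (2 * k)) (Eventually.of_forall fun t => by positivity) (rpow_int ω k hk)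
      (bg v T ^ (2 * k))
  refine le_trans ?_ hM
  refine mul_le_mul_of_nonneg_left ?_ (Real.rpow_nonneg (bg_pos v T).le _)
  rw [measureReal_def, measureReal_def, Measure.restrict_apply' measurableSet_Ioc]
  refine ENNReal.toReal_mono ?_ (measure_mono ?_)
  · refine ne_top_of_le_ne_top ?_ (measure_mono Set.inter_subset_right)
    simp
  · intro t ht
    exact ⟨Real.rpow_le_rpow (bg_pos v T).le ht.2.2 (by positivity), ht.1, ht.2.1⟩

/-- finitely many levels give an upper bound of the moment -/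
lemma mom_le' (ω : Om) {T k : ℝ} (hT : 0 ≤ T) (hk : 0 ≤ k) (v : ℕ → ℝ) (n : ℕ) (hv0 : v 0 = 0)
    (hmax : ∀ t ∈ Set.Ioc 0 T, ‖Z ω t‖ ≤ bg (v n) T) :
    ∫ t in (0 : ℝ)..T, ‖Z ω t‖ ^ (2 * k) ≤
      T + ∑ m ∈ range n, bg (v (m + 1)) T ^ (2 * k) * volume.real (LV ω (v m) T) := by
  rw [intervalIntegral.integral_of_le hT]
  have hpt : ∀ t ∈ Set.Ioc 0 T, ‖Z ω t‖ ^ (2 * k) ≤
      1 + ∑ m ∈ range n, (LV ω (v m) T).indicator (fun _ => bg (v (m + 1)) T ^ (2 * k)) t := by
    intro t ht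
    have hnn : ∀ m ∈ range n, 0 ≤ (LV ω (v m) T).indicator (fun _ => bg (v (m + 1)) T ^ (2 * k)) t := fun m _ =>
      Set.indicator_nonneg (fun _ _ => Real.rpow_nonneg (bg_pos _ T).le _) t
    rcases le_or_gt ‖Z ω t‖ 1 with h1 | h1
    · have h2 : ‖Z ω t‖ ^ (2 * k) ≤ 1 := Real.rpow_le_one (norm_nonneg _) h1 (by positivity)
      have := Finset.sum_nonneg hnn
      linarith
    · -- the first index with `‖Z‖ ≤ bg (v (m+1))`
      have hex : ∃ m : ℕ, ‖Z ω t‖ ≤ bg (v m) T := ⟨n, hmax t ht⟩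
      classical
      obtain ⟨m, hm⟩ : ∃ m, m = Nat.find hex := ⟨_, rfl⟩
      have hm1 : ‖Z ω t‖ ≤ bg (v m) T := by rw [hm]; exact Nat.find_spec hex
      have hm0 : m ≠ 0 := by
        rintro rfl
        rw [hv0] at hm1
        unfold bg at hm1
        rw [zero_mul, Real.exp_zero] at hm1
        linarith
      obtain ⟨r, rfl⟩ : ∃ r, m = r + 1 := ⟨m - 1, by omega⟩
      have hr : r < n := by
        have := Nat.find_min' hex (hmax t ht)
        omega
      have hr2 : bg (v r) T ≤ ‖Z ω t‖ := by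
        have h3 : ¬ ‖Z ω t‖ ≤ bg (v r) T := Nat.find_min hex (by omega)
        linarith
      have hin : t ∈ LV ω (v r) T := ⟨ht.1, ht.2, hr2⟩
      have h4 := Finset.single_le_sum hnn (Finset.mem_range.2 hr)
      rw [Set.indicator_of_mem hin] at h4
      have h5 : ‖Z ω t‖ ^ (2 * k) ≤ bg (v (r + 1)) T ^ (2 * k) :=
        Real.rpow_le_rpow (norm_nonneg _) hm1 (by positivity)
      linarith
  have hi : ∀ m ∈ range n, Integrable ((LV ω (v m) T).indicator (fun _ => bg (v (m + 1)) T ^ (2 * k)))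
      (volume.restrict (Set.Ioc 0 T)) := fun m _ =>
    (integrable_const _).indicator (LV_meas ω _ T)
  have hsum : Integrable (fun t => ∑ m ∈ range n, (LV ω (v m) T).indicator (fun _ => bg (v (m + 1)) T ^ (2 * k)) t)
      (volume.restrict (Set.Ioc 0 T)) := integrable_finsetSum _ hi
  calc ∫ t in Set.Ioc 0 T, ‖Z ω t‖ ^ (2 * k) ≤ ∫ t in Set.Ioc 0 T,
        (1 + ∑ m ∈ range n, (LV ω (v m) T).indicator (fun _ => bg (v (m + 1)) T ^ (2 * k)) t) := by
        refine setIntegral_mono_on (rpow_int ω k hk) ((integrable_const _).add hsum) measurableSet_Ioc hpt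
    _ = T + ∑ m ∈ range n, bg (v (m + 1)) T ^ (2 * k) * volume.real (LV ω (v m) T) := by
        rw [integral_add (integrable_const _) hsum, integral_finsetSum _ hi]
        congr 1
        · simp [hT]
        · refine Finset.sum_congr rfl fun m _ => ?_
          rw [integral_indicator (LV_meas ω _ T), Measure.restrict_restrict (LV_meas ω _ T)]
          have h6 : LV ω (v m) T ∩ Set.Ioc 0 T = LV ω (v m) T := by
            refine Set.inter_eq_left.2 fun t ht => ⟨ht.1, ht.2.1⟩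
          rw [h6, setIntegral_const, smul_eq_mul, mul_comm]

/-- **the law of the moments** from the law of the level sets -/
theorem moments {ω : Om}
    (hup : ∀ ε : ℝ, 0 < ε → ∃ T₀ : ℝ, 3 ≤ T₀ ∧ ∀ T : ℝ, T₀ ≤ T →
      (∀ t : ℝ, 0 ≤ t → t ≤ T → ‖Z ω t‖ ≤ bg (1 / Real.sqrt 2 + ε) T) ∧
      (∀ v : ℝ, 0 ≤ v → volume.real (LV ω v T) ≤ T ^ (1 - 2 * v ^ 2 + ε)))
    (hlo : ∀ ε : ℝ, 0 < ε → ∃ T₀ : ℝ, 3 ≤ T₀ ∧ ∀ T : ℝ, T₀ ≤ T →
      ∀ v : ℝ, 0 ≤ v → 2 * v ^ 2 + ε ≤ 1 → T ^ (1 - 2 * v ^ 2 - ε) ≤ volume.real (LV ω v T)) :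
    ∀ ε : ℝ, 0 < ε → ∃ T₀ : ℝ, 3 ≤ T₀ ∧ ∀ T : ℝ, T₀ ≤ T → ∀ k κ : ℝ, 0 ≤ k →
      κ = k * Real.sqrt (Real.log (Real.log T) / Real.log T) →
      T ^ (Phi κ - ε * (1 + κ)) ≤ ∫ t in (0 : ℝ)..T, ‖Z ω t‖ ^ (2 * k) ∧
      ∫ t in (0 : ℝ)..T, ‖Z ω t‖ ^ (2 * k) ≤ T ^ (Phi κ + ε * (1 + κ)) := by
  intro ε' hε'
  obtain ⟨ε, hε⟩ : ∃ ε, ε = min ε' 1 := ⟨_, rfl⟩
  have hε0 : 0 < ε := by rw [hε]; exact lt_min hε' one_pos
  have hε1 : ε ≤ 1 := by rw [hε]; exact min_le_right _ _
  have hεε : ε ≤ ε' := by rw [hε]; exact min_le_left _ _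
  obtain ⟨h1, h2, h3, h4, h5⟩ := sqrt2_facts
  obtain ⟨e, he⟩ : ∃ e, e = ε / 8 := ⟨_, rfl⟩
  have he0 : 0 < e := by rw [he]; positivity
  obtain ⟨T₁, hT13, hT₁⟩ := hup e he0
  obtain ⟨T₂, hT23, hT₂⟩ := hlo e he0
  obtain ⟨n, hn⟩ := exists_nat_gt ((1 / Real.sqrt 2 + e) / e)
  have hn0 : (0 : ℝ) < n := lt_trans (by positivity) hn
  obtain ⟨T₃, hT₃⟩ := eventually_atTop.1 ((tendsto_rpow_atTop he0).eventually_ge_atTop ((n : ℝ) + 1))
  refine ⟨max (max T₁ T₂) (max T₃ 3), le_max_of_le_left (le_max_of_le_left hT13), fun T hT k κ hk hκ => ?_⟩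
  have ha : T₁ ≤ T := (le_max_left _ _).trans ((le_max_left _ _).trans hT)
  have hb : T₂ ≤ T := (le_max_right _ _).trans ((le_max_left _ _).trans hT)
  have hc : T₃ ≤ T := (le_max_left _ _).trans ((le_max_right _ _).trans hT)
  have hT3 : 3 ≤ T := (le_max_right _ _).trans ((le_max_right _ _).trans hT)
  have hT0 : 0 < T := by linarith
  have hL : 1 < Real.log T := by
    rw [Real.lt_log_iff_exp_lt hT0]
    have := Real.exp_one_lt_d9
    linarith
  have hκ0 : 0 ≤ κ := by rw [hκ]; positivity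
  have hbg : ∀ v : ℝ, bg v T ^ (2 * k) = T ^ (2 * κ * v) := fun v => bg_rpow (by linarith) hL hκ
  have hmono : ∀ x y : ℝ, x ≤ y → T ^ x ≤ T ^ y := fun x y h =>
    Real.rpow_le_rpow_of_exponent_le (by linarith) h
  obtain ⟨hmax, hlev⟩ := hT₁ T ha
  have hεκ : ε * (1 + κ) ≤ ε' * (1 + κ) := mul_le_mul_of_nonneg_right hεε (by linarith)
  constructor
  · -- lower bound
    refine (hmono _ (Phi κ - ε * (1 + κ)) (by linarith)).trans ?_
    rcases le_or_gt (κ ^ 2 / 2) (1 - e) with h6 | h6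
    · have h7 := mom_ge ω hT0.le hk (κ / 2)
      have h8 := hT₂ T hb (κ / 2) (by linarith) (by nlinarith)
      rw [hbg] at h7
      refine le_trans ?_ ((mul_le_mul_of_nonneg_left h8 (by positivity)).trans h7)
      rw [← Real.rpow_add hT0]
      apply hmono
      have h9 : Phi κ = 1 + κ ^ 2 / 2 := by
        unfold Phi
        rw [if_pos]
        apply Real.le_sqrt_of_sq_le
        linarith
      rw [h9, he]
      nlinarith
    · obtain ⟨v, hv⟩ : ∃ v, v = Real.sqrt ((1 - e) / 2) := ⟨_, rfl⟩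
      have hv0 : 0 ≤ v := by rw [hv]; positivity
      have he1 : e ≤ 1 / 8 := by rw [he]; linarith
      have hv2 : v ^ 2 = (1 - e) / 2 := by
        rw [hv, Real.sq_sqrt (by linarith)]
      have h7 := mom_ge ω hT0.le hk v
      have h8 := hT₂ T hb v hv0 (by rw [hv2]; linarith)
      rw [hbg] at h7
      refine le_trans ?_ ((mul_le_mul_of_nonneg_left h8 (by positivity)).trans h7)
      rw [← Real.rpow_add hT0]
      apply hmono
      rw [hv2]
      have h9 : Real.sqrt 2 * (1 - e) ≤ 2 * v := by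
        apply abs_le_of_sq_le_sq' _ (by linarith) |>.2
        rw [mul_pow, mul_pow, hv2, Real.sq_sqrt (by norm_num)]
        nlinarith
      have h10 : κ * (Real.sqrt 2 * (1 - e)) ≤ κ * (2 * v) := mul_le_mul_of_nonneg_left h9 hκ0
      unfold Phi
      split_ifs with h11
      · have h12 : κ ^ 2 ≤ 2 := by
          have := pow_le_pow_left₀ hκ0 h11 2
          rw [Real.sq_sqrt (by norm_num)] at this
          exact this
        have h13 : Real.sqrt 2 * (1 - e) ≤ κ := by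
          apply abs_le_of_sq_le_sq' _ hκ0 |>.2
          rw [mul_pow, Real.sq_sqrt (by norm_num)]
          nlinarith
        have h14 : Real.sqrt 2 * (1 - e) * (Real.sqrt 2 * (1 - e)) ≤ κ * (Real.sqrt 2 * (1 - e)) :=
          mul_le_mul_of_nonneg_right h13 (by
            have : 0 ≤ 1 - e := by linarith
            positivity)
        have h15 : Real.sqrt 2 * (1 - e) * (Real.sqrt 2 * (1 - e)) = 2 * (1 - e) ^ 2 := by
          rw [show Real.sqrt 2 * (1 - e) * (Real.sqrt 2 * (1 - e)) =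
            (Real.sqrt 2 * Real.sqrt 2) * (1 - e) ^ 2 by ring, h2]
        have h16 : 2 * (1 - e) ^ 2 ≥ 2 - 4 * e := by nlinarith [sq_nonneg e]
        have h17 : 0 ≤ κ * e := by positivity
        have h18 : ε = 8 * e := by rw [he]; ring
        rw [h18]
        linarith
      · have h17 : Real.sqrt 2 * (κ * e) ≤ 3 / 2 * (κ * e) := mul_le_mul_of_nonneg_right h3 (by positivity)
        have h17' : 0 ≤ κ * e := by positivity
        have h18 : ε = 8 * e := by rw [he]; ring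
        rw [h18]
        linarith
  · -- upper bound
    refine le_trans ?_ (hmono (Phi κ + ε * (1 + κ)) _ (by linarith))
    obtain ⟨v, hv⟩ : ∃ v : ℕ → ℝ, v = fun m : ℕ => (1 / Real.sqrt 2 + e) * m / n := ⟨_, rfl⟩
    have hv1 : ∀ m : ℕ, v m = (1 / Real.sqrt 2 + e) * m / n := fun m => by rw [hv]
    have hvn : v n = 1 / Real.sqrt 2 + e := by
      rw [hv1]
      field_simp
    have hstep : ∀ m : ℕ, v (m + 1) ≤ v m + e := by
      intro m
      rw [hv1, hv1]
      have h6 : (1 / Real.sqrt 2 + e) / n ≤ e := by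
        rw [div_le_iff₀ hn0]
        rw [div_lt_iff₀ he0] at hn
        linarith
      have h7 : (1 / Real.sqrt 2 + e) * ((m + 1 : ℕ) : ℝ) / n =
          (1 / Real.sqrt 2 + e) * m / n + (1 / Real.sqrt 2 + e) / n := by
        push_cast
        ring
      rw [h7]
      linarith
    have h6 := mom_le' ω hT0.le hk v n (by rw [hv1]; simp) (fun t ht => by
      rw [hvn]
      exact hmax t ht.1.le ht.2)
    refine h6.trans ?_
    have hterm : ∀ m ∈ range n, bg (v (m + 1)) T ^ (2 * k) * volume.real (LV ω (v m) T) ≤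
        T ^ (Phi κ + 4 * κ * e + e) := by
      intro m hm
      rw [Finset.mem_range] at hm
      have hm0 : 0 ≤ v m := by rw [hv1]; positivity
      have hmn : v m ≤ 1 / Real.sqrt 2 + e := by
        rw [hv1, div_le_iff₀ hn0]
        have : (m : ℝ) ≤ n := by exact_mod_cast hm.le
        gcongr
      rw [hbg]
      calc T ^ (2 * κ * v (m + 1)) * volume.real (LV ω (v m) T) ≤
            T ^ (2 * κ * (v m + e)) * T ^ (1 - 2 * v m ^ 2 + e) := by
            refine mul_le_mul (hmono _ _ ?_) (hlev _ hm0) measureReal_nonneg (by positivity)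
            exact mul_le_mul_of_nonneg_left (hstep m) (by linarith)
        _ = T ^ (2 * κ * (v m + e) + (1 - 2 * v m ^ 2 + e)) := (Real.rpow_add hT0 _ _).symm
        _ ≤ _ := by
            apply hmono
            have := phi_up hκ0 he0.le hm0 hmn
            linarith
    have h7 : ∑ m ∈ range n, bg (v (m + 1)) T ^ (2 * k) * volume.real (LV ω (v m) T) ≤
        n * T ^ (Phi κ + 4 * κ * e + e) := by
      refine (Finset.sum_le_sum hterm).trans ?_
      rw [Finset.sum_const, Finset.card_range, nsmul_eq_mul]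
    have h8 : T ≤ T ^ (Phi κ + 4 * κ * e + e) := by
      calc T = T ^ (1 : ℝ) := (Real.rpow_one T).symm
        _ ≤ _ := by
          apply hmono
          have := one_le_phi κ
          have : 0 ≤ κ * e := by positivity
          linarith
    calc T + ∑ m ∈ range n, bg (v (m + 1)) T ^ (2 * k) * volume.real (LV ω (v m) T) ≤
          ((n : ℝ) + 1) * T ^ (Phi κ + 4 * κ * e + e) := by linarith
      _ ≤ T ^ e * T ^ (Phi κ + 4 * κ * e + e) := by
          refine mul_le_mul_of_nonneg_right (hT₃ T hc) (by positivity)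
      _ = T ^ (e + (Phi κ + 4 * κ * e + e)) := (Real.rpow_add hT0 _ _).symm
      _ ≤ _ := by
          apply hmono
          rw [he]
          nlinarith

end Pool.Agent.Q255.MK
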