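import Pool.Agent.Q255.MK.Ints

/-!
# Project MK: real orders, large values, the maximum
-/

set_option autoImplicit false

open MeasureTheory Finset Filter Topology

namespace Pool.Agent.Q255.MK

open Q289.PAM Pool.Agent.Q255.RM

/-- the choice of the order `k` for the level `v` -/
lemma opt {ε : ℝ} (hε : 0 < ε) : ∃ X : ℝ, ∀ L : ℝ, X ≤ L → 100 ≤ L ∧ ∀ v : ℝ, ε ≤ v → v ≤ 2 →
    ∃ k : ℕ, 1 ≤ k ∧ (k : ℝ) ≤ L ∧
      2 * k * (2 * Real.log L) + (k : ℝ) ^ 2 * Real.log (1 + L / k) + 2 * (k : ℝ) ^ 2 -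
        2 * k * (v * Real.sqrt (L * Real.log L)) ≤ (ε - 2 * v ^ 2) * L := by
  obtain ⟨X, hX⟩ := Pool.Agent.Q299.FG.par_real hε (show (0 : ℝ) < 2 by norm_num)
  refine ⟨X, fun L hL => ?_⟩
  obtain ⟨hL1, hl4, hw5, hμ0, hμ, h4, h5⟩ := hX L hL
  refine ⟨by linarith, fun v hv1 hv2 => ?_⟩
  have hL0 : 0 < L := by linarith
  set l := Real.log L with hl
  set w := Real.sqrt (L / l) with hw
  have hl0 : 0 < l := by linarith
  have hv0 : 0 < v := by linarith
  have hw0 : 0 < w := by linarith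
  have hw2 : w ^ 2 * l = L := by
    rw [hw, Real.sq_sqrt (by positivity)]
    field_simp
  have hwl : Real.sqrt (L * l) = w * l := by
    rw [show L * l = (w * l) ^ 2 by rw [← hw2]; ring]
    exact Real.sqrt_sq (by positivity)
  obtain ⟨k, hk⟩ : ∃ k : ℕ, k = ⌈2 * v * w⌉₊ := ⟨_, rfl⟩
  have hk1 : 2 * v * w ≤ k := by rw [hk]; exact Nat.le_ceil _
  have hk2 : (k : ℝ) ≤ 2 * v * w + 1 := by rw [hk]; exact (Nat.ceil_lt_add_one (by positivity)).le
  have hkpos : 0 < k := by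
    rw [hk, Nat.ceil_pos]
    positivity
  have hk0 : (0 : ℝ) < k := by exact_mod_cast hkpos
  have hkL : (k : ℝ) ≤ L := by
    have : 2 * v * w ≤ 4 * w := by nlinarith
    have h6 : 5 * w ≤ w ^ 2 := by nlinarith
    have h7 : w ^ 2 ≤ w ^ 2 * l := le_mul_of_one_le_right (by positivity) (by linarith)
    linarith
  have hΛ0 : 0 ≤ Real.log (1 + L / k) := Real.log_nonneg (by
    have : 0 ≤ L / k := by positivity
    linarith)
  have hΛ : Real.log (1 + L / k) ≤ l / 2 + (Real.log l / 2 + Real.log (1 + 1 / ε)) := by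
    have h6 : L / k ≤ w * l / ε := by
      rw [div_le_div_iff₀ hk0 hε]
      have h7 : ε * w ≤ k := by nlinarith
      have h8 : L * ε = (w * l) * (ε * w) := by rw [← hw2]; ring
      rw [h8]
      exact mul_le_mul_of_nonneg_left h7 (by positivity)
    have h9 : 1 ≤ w * l := by nlinarith
    have h10 : 1 + L / k ≤ (w * l) * (1 + 1 / ε) := by
      have : (w * l) * (1 + 1 / ε) = w * l + w * l / ε := by ring
      linarith
    have h11 : Real.log (w * l) = l / 2 + Real.log l / 2 := by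
      rw [← hwl, Real.log_sqrt (by positivity), Real.log_mul hL0.ne' hl0.ne', ← hl]
      ring
    calc Real.log (1 + L / k) ≤ Real.log ((w * l) * (1 + 1 / ε)) :=
          Real.log_le_log (by positivity) h10
      _ = _ := by
          rw [Real.log_mul (by positivity) (by positivity), h11]
          ring
  refine ⟨k, hkpos, hkL, ?_⟩
  have key := Pool.Agent.Q299.FG.real_bound (ε := ε) (C := 2) (v := v) (l := l) (w := w) (k := k)
    (Λ := Real.log (1 + L / k)) (R := 2 * l) (μ := Real.log l / 2 + Real.log (1 + 1 / ε))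
    hε hv1 hv2 (by norm_num) (by linarith) hl0 hk1 hk2 hΛ0 hΛ le_rfl hμ0 hμ h4 h5
  rw [hw2] at key
  rw [hwl]
  have h12 : 0 ≤ 2 * (k : ℝ) * Real.log (1 + L / k) := by positivity
  linarith

/-- real orders above `kk T` -/
theorem reals (hH : S_HOL) {ω : Om} (h : ∃ T₀ : ℝ, 3 ≤ T₀ ∧ ∀ T : ℝ, T₀ ≤ T →
    ∀ k : ℕ, 1 ≤ k → ∫ t in (0 : ℝ)..T, ‖Z ω t‖ ^ (2 * k) ≤ T * bs T k ^ (k ^ 2)) :
    ∃ T₀ : ℝ, 3 ≤ T₀ ∧ ∀ T : ℝ, T₀ ≤ T → ∀ κ : ℝ, kk T ≤ κ →
      ∫ t in (0 : ℝ)..T, ‖Z ω t‖ ^ (2 * κ) ≤ T * Real.log T ^ (κ ^ 2) := by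
  obtain ⟨T₀, hT3, hT₀⟩ := h
  have hkkbig : Tendsto (fun x : ℝ => kk x) atTop atTop := by
    unfold kk
    refine Tendsto.const_mul_atTop (by norm_num) ?_
    exact Real.tendsto_sqrt_atTop.comp (Real.tendsto_log_atTop.comp Real.tendsto_log_atTop)
  obtain ⟨T₁, hT₁⟩ := eventually_atTop.1 ((hkkbig.eventually_ge_atTop 30).and
    (Real.tendsto_log_atTop.eventually_ge_atTop 1000))
  refine ⟨max T₀ T₁, le_max_of_le_left hT3, fun T hT κ hκ => ?_⟩
  obtain ⟨hk30, hL⟩ := hT₁ T ((le_max_right _ _).trans hT)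
  have hTT := hT₀ T ((le_max_left _ _).trans hT)
  have hT0 : 0 < T := by
    have := (le_max_left T₀ T₁).trans hT
    linarith
  set L := Real.log T with hLd
  have hL0 : 0 < L := by linarith
  have hκ0 : 0 ≤ κ := by linarith
  obtain ⟨j, hj⟩ : ∃ j : ℕ, j = ⌊κ⌋₊ := ⟨_, rfl⟩
  have hj1 : (j : ℝ) ≤ κ := by rw [hj]; exact Nat.floor_le hκ0
  have hj2 : κ < j + 1 := by rw [hj]; exact Nat.lt_floor_add_one κ
  have hj29 : (29 : ℝ) ≤ j := by linarith
  have hj1' : 1 ≤ j := by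
    have : (1 : ℝ) ≤ j := by linarith
    exact_mod_cast this
  have he3 : Real.exp 3 ≤ 20.1 := by
    have h5 : Real.exp 3 = Real.exp 1 * Real.exp 1 * Real.exp 1 := by
      rw [← Real.exp_add, ← Real.exp_add]; norm_num
    have h6 := Real.exp_one_lt_d9
    have h7 := Real.exp_pos 1
    rw [h5]
    calc Real.exp 1 * Real.exp 1 * Real.exp 1 ≤ 2.7182818286 * 2.7182818286 * 2.7182818286 := by gcongr
      _ ≤ 20.1 := by norm_num
  have hbs : ∀ i : ℕ, (29 : ℝ) ≤ i → bs T i ≤ L / Real.exp 1 := by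
    intro i hi
    rw [le_div_iff₀ (Real.exp_pos 1)]
    unfold bs
    have h3 : L / i ≤ L / 29 := by gcongr
    calc Real.exp 2 * (1 + L / i) * Real.exp 1 = Real.exp 3 * (1 + L / i) := by
          rw [show (3 : ℝ) = 2 + 1 by norm_num, Real.exp_add]
          ring
      _ ≤ 20.1 * (1 + L / 29) := by
          refine mul_le_mul he3 (by linarith) (by positivity) (by norm_num)
      _ ≤ L := by linarith
  have hB : ∀ i : ℕ, 1 ≤ i → (29 : ℝ) ≤ i → ∫ t in (0 : ℝ)..T, ‖Z ω t‖ ^ (2 * i) ≤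
      T * (L / Real.exp 1) ^ ((i : ℝ) ^ 2) := by
    intro i hi1 hi
    refine (hTT i hi1).trans ?_
    have h3 : (L / Real.exp 1) ^ ((i : ℝ) ^ 2) = (L / Real.exp 1) ^ (i ^ 2) := by
      have h4 : ((i : ℝ) ^ 2) = ((i ^ 2 : ℕ) : ℝ) := by push_cast; rfl
      rw [h4, Real.rpow_natCast]
    rw [h3]
    refine mul_le_mul_of_nonneg_left (pow_le_pow_left₀ ?_ (hbs i hi) _) hT0.le
    unfold bs
    positivity
  have hLe : 0 < L / Real.exp 1 := by positivity
  obtain ⟨θ, hθ⟩ : ∃ θ : ℝ, θ = κ - j := ⟨_, rfl⟩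
  have hθ0 : 0 ≤ θ := by linarith
  have hθ1 : θ ≤ 1 := by linarith
  have hB2 := hB (j + 1) (by omega) (by push_cast; linarith)
  push_cast at hB2
  have key := hH ω T j θ (T * (L / Real.exp 1) ^ ((j : ℝ) ^ 2)) (T * (L / Real.exp 1) ^ (((j : ℝ) + 1) ^ 2))
    hT0.le hθ0 hθ1 (by positivity) (by positivity) (hB j hj1' hj29) hB2
  have e1 : (j : ℝ) + θ = κ := by linarith
  rw [e1] at key
  refine key.trans ?_
  rw [Real.mul_rpow hT0.le (by positivity), Real.mul_rpow hT0.le (by positivity),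
    ← Real.rpow_mul hLe.le, ← Real.rpow_mul hLe.le]
  have e2 : T ^ (1 - θ) * (L / Real.exp 1) ^ ((j : ℝ) ^ 2 * (1 - θ)) *
      (T ^ θ * (L / Real.exp 1) ^ (((j : ℝ) + 1) ^ 2 * θ)) =
      T * (L / Real.exp 1) ^ (κ ^ 2 + θ * (1 - θ)) := by
    calc T ^ (1 - θ) * (L / Real.exp 1) ^ ((j : ℝ) ^ 2 * (1 - θ)) *
      (T ^ θ * (L / Real.exp 1) ^ (((j : ℝ) + 1) ^ 2 * θ)) = (T ^ (1 - θ) * T ^ θ) *
        ((L / Real.exp 1) ^ ((j : ℝ) ^ 2 * (1 - θ)) * (L / Real.exp 1) ^ (((j : ℝ) + 1) ^ 2 * θ)) := by ring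
      _ = T * (L / Real.exp 1) ^ (κ ^ 2 + θ * (1 - θ)) := by
          rw [← Real.rpow_add hT0, ← Real.rpow_add hLe]
          congr 1
          · rw [show 1 - θ + θ = 1 by ring, Real.rpow_one]
          · congr 1
            have : κ = j + θ := by linarith
            rw [this]
            ring
  rw [e2]
  refine mul_le_mul_of_nonneg_left ?_ hT0.le
  have hLe1 : 1 ≤ L / Real.exp 1 := by
    rw [le_div_iff₀ (Real.exp_pos 1)]
    have := Real.exp_one_lt_d9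
    linarith
  have hsq : 4 * Real.log L ≤ κ ^ 2 := by
    have h3 : kk T ^ 2 ≤ κ ^ 2 := pow_le_pow_left₀ (by linarith) hκ 2
    have h4 : kk T ^ 2 = 4 * Real.log L := by
      unfold kk
      rw [← hLd, mul_pow, Real.sq_sqrt (Real.log_nonneg (by linarith))]
      norm_num
    linarith
  calc (L / Real.exp 1) ^ (κ ^ 2 + θ * (1 - θ)) ≤ (L / Real.exp 1) ^ (κ ^ 2 + 1 / 4) := by
        refine Real.rpow_le_rpow_of_exponent_le hLe1 ?_
        nlinarith [sq_nonneg (θ - 1 / 2)]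
    _ = Real.exp ((Real.log L - 1) * (κ ^ 2 + 1 / 4)) := by
        rw [Real.rpow_def_of_pos hLe, Real.log_div hL0.ne' (Real.exp_pos 1).ne', Real.log_exp]
    _ ≤ Real.exp (Real.log L * κ ^ 2) := by
        rw [Real.exp_le_exp]
        have hlL : 0 ≤ Real.log L := Real.log_nonneg (by linarith)
        nlinarith
    _ = L ^ (κ ^ 2) := by rw [Real.rpow_def_of_pos hL0]

end Pool.Agent.Q255.MK
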