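import Pool.Agent.Q255.MK.Bounds

/-!
# Project MK: the moments of small order
-/

set_option autoImplicit false

open MeasureTheory Finset Filter Topology

namespace Pool.Agent.Q255.MK

open Q289.PAM Pool.Agent.Q255.RM
open Pool.Agent.Q163.PM (bl)

/-- Borel-Cantelli -/
lemma bc {E : ℕ → Set Om} {g : ℕ → ℝ} (hg : Summable g) {J : ℕ} (h : ∀ j ≥ J, PT.real (E j) ≤ g j) :
    ∀ᵐ ω ∂PT, ∀ᶠ j in atTop, ω ∉ E j := by
  have hs : Summable fun j : ℕ => PT.real (E j) := by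
    rw [← summable_nat_add_iff J]
    exact Summable.of_nonneg_of_le (fun j => measureReal_nonneg) (fun j => h _ (by omega))
      ((summable_nat_add_iff J).2 hg)
  have h2 : ∑' j, PT (E j) ≠ ⊤ := by
    have h3 : ∀ j, PT (E j) = ENNReal.ofReal (PT.real (E j)) := fun j => by
      rw [measureReal_def, ENNReal.ofReal_toReal (measure_ne_top _ _)]
    simp_rw [h3]
    rw [← ENNReal.ofReal_tsum_of_nonneg (fun j => measureReal_nonneg) hs]
    exact ENNReal.ofReal_ne_top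
  exact ae_eventually_notMem h2

/-- the bound of the small orders -/
noncomputable def kk (x : ℝ) : ℝ := 2 * Real.sqrt (Real.log (Real.log x))

lemma tL : Tendsto (fun N : ℕ => Real.log (N : ℝ)) atTop atTop :=
  Real.tendsto_log_atTop.comp tendsto_natCast_atTop_atTop

/-- elementary comparisons for large `L` -/
lemma ev_L (c : ℝ) (hc : 0 < c) : ∀ᶠ L : ℝ in atTop,
    1 ≤ L ∧ 2 * Real.sqrt (Real.log L) + 3 ≤ L ∧
    16 * (1 + L ^ 2) ^ 4 ≤ Real.exp (c * L) ∧ L + 3 ≤ Real.exp (c * L) := by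
  have h0 : Tendsto (fun L : ℝ => Real.exp (c * L) / L ^ 9) atTop atTop := by
    have h1 := tendsto_exp_mul_div_rpow_atTop 9 c hc
    refine h1.congr fun x => ?_
    norm_num
  have h2 := (Real.isLittleO_log_id_atTop).bound (show (0 : ℝ) < 1 / 100 by norm_num)
  filter_upwards [h0.eventually_ge_atTop 1, h2, eventually_ge_atTop (10000 : ℝ)] with L h1 h3 h4
  have hL0 : 0 < L := by linarith
  have hl0 : 0 ≤ Real.log L := Real.log_nonneg (by linarith)
  rw [Real.norm_of_nonneg hl0, id, Real.norm_of_nonneg hL0.le] at h3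
  have h9 : L ^ 9 ≤ Real.exp (c * L) := by
    rw [le_div_iff₀ (by positivity)] at h1
    linarith
  have hs : Real.sqrt (Real.log L) ≤ 1 + Real.log L := by
    rw [Real.sqrt_le_left (by linarith)]
    nlinarith
  refine ⟨by linarith, by linarith, le_trans ?_ h9, le_trans ?_ h9⟩
  · have h5 : 1 + L ^ 2 ≤ 2 * L ^ 2 := by nlinarith
    calc 16 * (1 + L ^ 2) ^ 4 ≤ 16 * (2 * L ^ 2) ^ 4 := by gcongr
      _ = 256 * L ^ 8 := by ring
      _ ≤ L * L ^ 8 := by gcongr; linarith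
      _ = L ^ 9 := by ring
  · have h6 : (1 : ℝ) ≤ L ^ 7 := one_le_pow₀ (by linarith)
    calc L + 3 ≤ L * L := by nlinarith
      _ = L ^ 2 * 1 := by ring
      _ ≤ L ^ 2 * L ^ 7 := by gcongr
      _ = L ^ 9 := by ring

/-- second moment of the remainder, uniform in `k` -/
lemma var (h : S_DKB) : ∃ N₀ : ℕ, ∀ N : ℕ, N₀ ≤ N → ∀ k : ℕ, (k : ℝ) ≤ kk N + 2 →
    ∫ ω, R k ω N ^ 2 ∂PT ≤ (N : ℝ) ^ (11 / 10 : ℝ) := by
  obtain ⟨N₁, hN₁⟩ := h
  obtain ⟨N₂, hN₂⟩ := eventually_atTop.1 (tL.eventually (ev_L (6 / 100) (by norm_num)))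
  refine ⟨max (max N₁ N₂) 3, fun N hN k hk => ?_⟩
  obtain ⟨hL1, hL2, hL3, -⟩ := hN₂ N (by omega)
  have hN0 : (0 : ℝ) < N := by exact_mod_cast (by omega : 0 < N)
  set K : ℝ := (N : ℝ) ^ (1 / 100 : ℝ) with hK
  have hinc := incr_le k 0 N (N ^ k) (Nat.zero_le _) le_rfl K (hN₁ N (by omega) k hk)
  have e1 : ∫ ω, R k ω N ^ 2 ∂PT = ∫ ω, bl (X k ω) 0 N ^ 2 ∂PT := by
    congr 1
    ext ω
    rw [R_nat]
  rw [e1]
  refine hinc.trans ?_
  rw [Nat.sub_zero]
  have hkL : (k : ℝ) ≤ Real.log N := by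
    have : kk N = 2 * Real.sqrt (Real.log (Real.log N)) := rfl
    linarith
  have hLL : L (N ^ k) ≤ 1 + Real.log N ^ 2 := by
    refine (L_le _).trans ?_
    push_cast
    rw [Real.log_pow]
    have : (k : ℝ) * Real.log N ≤ Real.log N * Real.log N := by gcongr
    nlinarith
  have hK4 : K ^ 4 = (N : ℝ) ^ (4 / 100 : ℝ) := by
    rw [hK, ← Real.rpow_natCast, ← Real.rpow_mul hN0.le]
    norm_num
  have hexp : Real.exp (6 / 100 * Real.log N) = (N : ℝ) ^ (6 / 100 : ℝ) := by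
    rw [Real.rpow_def_of_pos hN0]
    congr 1
    ring
  calc 16 * K ^ 4 * L (N ^ k) ^ 4 * (N : ℝ) ≤ 16 * K ^ 4 * (1 + Real.log N ^ 2) ^ 4 * N := by
        have := L_nonneg (N ^ k)
        gcongr
    _ = K ^ 4 * (16 * (1 + Real.log N ^ 2) ^ 4) * N := by ring
    _ ≤ K ^ 4 * Real.exp (6 / 100 * Real.log N) * N := by gcongr
    _ = (N : ℝ) ^ (11 / 10 : ℝ) := by
        rw [hK4, hexp, ← Real.rpow_add hN0]
        nth_rewrite 2 [← Real.rpow_one (N : ℝ)]
        rw [← Real.rpow_add hN0]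
        norm_num

lemma R_cont (k N : ℕ) : Continuous fun ω => R k ω N := by
  have : (fun ω => R k ω N) = fun ω => bl (X k ω) 0 N := funext fun ω => R_nat k ω N
  rw [this]
  exact bl_cont k 0 N

/-- the exceptional event -/
def E1 (N : ℕ) : Set Om := {ω | ∃ k : ℕ, (k : ℝ) ≤ kk N + 2 ∧ (N : ℝ) ^ (9 / 10 : ℝ) ≤ |R k ω N|}

lemma E1_prob (h : S_DKB) : ∃ N₀ : ℕ, ∀ N : ℕ, N₀ ≤ N → PT.real (E1 N) ≤ (N : ℝ) ^ (-(3 / 5) : ℝ) := by
  obtain ⟨N₁, hN₁⟩ := var h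
  obtain ⟨N₂, hN₂⟩ := eventually_atTop.1 (tL.eventually (ev_L (1 / 10) (by norm_num)))
  refine ⟨max (max N₁ N₂) 3, fun N hN => ?_⟩
  obtain ⟨hL1, hL2, -, hL4⟩ := hN₂ N (by omega)
  have hN0 : (0 : ℝ) < N := by exact_mod_cast (by omega : 0 < N)
  set V : ℝ := (N : ℝ) ^ (9 / 10 : ℝ) with hV
  have hV0 : 0 < V := by positivity
  have hone : ∀ k : ℕ, (k : ℝ) ≤ kk N + 2 → PT.real {ω | V ≤ |R k ω N|} ≤ (N : ℝ) ^ (-(7 / 10) : ℝ) := by
    intro k hk
    have hint : Integrable (fun ω => R k ω N ^ 2) PT := integrable_of_cont ((R_cont k N).pow 2)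
    have hM := mul_meas_ge_le_integral_of_nonneg (μ := PT) (f := fun ω => R k ω N ^ 2)
      (Eventually.of_forall fun ω => sq_nonneg _) hint (V ^ 2)
    have hsub : {ω : Om | V ≤ |R k ω N|} ⊆ {ω | V ^ 2 ≤ R k ω N ^ 2} := by
      intro ω hω
      have : V ^ 2 ≤ |R k ω N| ^ 2 := pow_le_pow_left₀ hV0.le hω 2
      rwa [sq_abs] at this
    have h1 : PT.real {ω | V ≤ |R k ω N|} ≤ PT.real {ω | V ^ 2 ≤ R k ω N ^ 2} :=
      measureReal_mono hsub (measure_ne_top _ _)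
    have h2 := hM.trans (hN₁ N (by omega) k hk)
    have hV2 : 0 < V ^ 2 := by positivity
    have h3 : PT.real {ω | V ^ 2 ≤ R k ω N ^ 2} ≤ (N : ℝ) ^ (11 / 10 : ℝ) / V ^ 2 := by
      rw [le_div_iff₀ hV2]
      linarith
    refine h1.trans (h3.trans (le_of_eq ?_))
    rw [hV, ← Real.rpow_natCast, ← Real.rpow_mul hN0.le, ← Real.rpow_sub hN0]
    norm_num
  set B : ℕ := ⌊kk N + 2⌋₊ with hB
  have hkk0 : 0 ≤ kk N + 2 := by unfold kk; positivity
  have hsub : E1 N ⊆ ⋃ k ∈ Finset.range (B + 1), {ω : Om | V ≤ |R k ω N|} := by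
    rintro ω ⟨k, hk, hω⟩
    simp only [Set.mem_iUnion, Finset.mem_range]
    exact ⟨k, Nat.lt_succ_of_le (Nat.le_floor hk), hω⟩
  have hkB : ∀ k ∈ Finset.range (B + 1), (k : ℝ) ≤ kk N + 2 := by
    intro k hk
    have h1 : k ≤ B := by rw [Finset.mem_range] at hk; omega
    exact (Nat.cast_le.2 h1).trans (Nat.floor_le hkk0)
  calc PT.real (E1 N) ≤ PT.real (⋃ k ∈ Finset.range (B + 1), {ω : Om | V ≤ |R k ω N|}) :=
        measureReal_mono hsub (measure_ne_top _ _)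
    _ ≤ ∑ k ∈ Finset.range (B + 1), PT.real {ω : Om | V ≤ |R k ω N|} := measureReal_biUnion_finset_le _ _
    _ ≤ ∑ _k ∈ Finset.range (B + 1), (N : ℝ) ^ (-(7 / 10) : ℝ) :=
        Finset.sum_le_sum fun k hk => hone k (hkB k hk)
    _ = (B + 1) * (N : ℝ) ^ (-(7 / 10) : ℝ) := by
        rw [Finset.sum_const, Finset.card_range, nsmul_eq_mul]
        push_cast
        ring
    _ ≤ (N : ℝ) ^ (1 / 10 : ℝ) * (N : ℝ) ^ (-(7 / 10) : ℝ) := by
        have h1 : (B : ℝ) ≤ kk N + 2 := Nat.floor_le hkk0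
        have h2 : kk N = 2 * Real.sqrt (Real.log (Real.log N)) := rfl
        have h3 : Real.exp (1 / 10 * Real.log N) = (N : ℝ) ^ (1 / 10 : ℝ) := by
          rw [Real.rpow_def_of_pos hN0]
          congr 1
          ring
        rw [h3] at hL4
        have h4 : (B : ℝ) + 1 ≤ (N : ℝ) ^ (1 / 10 : ℝ) := by linarith
        gcongr
    _ = (N : ℝ) ^ (-(3 / 5) : ℝ) := by
        rw [← Real.rpow_add hN0]
        norm_num

/-- along the squares the remainders of all small orders are small -/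
theorem small_as (h : S_DKB) : ∀ᵐ ω ∂PT, ∀ᶠ i : ℕ in atTop, ω ∉ E1 (i ^ 2) := by
  obtain ⟨N₀, hN₀⟩ := E1_prob h
  have hs : Summable fun i : ℕ => ((i : ℝ) ^ (6 / 5 : ℝ))⁻¹ :=
    Real.summable_nat_rpow_inv.2 (by norm_num)
  refine bc (J := N₀ + 1) hs fun i hi => ?_
  have h1 : N₀ ≤ i ^ 2 := by nlinarith
  refine (hN₀ _ h1).trans (le_of_eq ?_)
  push_cast
  rw [← Real.rpow_natCast, ← Real.rpow_mul (Nat.cast_nonneg _), ← Real.rpow_neg (Nat.cast_nonneg _)]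
  norm_num

lemma D_mono (k : ℕ) {M N : ℕ} (h : M ≤ N) : D k M ≤ D k N := by
  have h1 : M ^ k ≤ N ^ k := Nat.pow_le_pow_left h k
  calc D k M ≤ ∑ m ∈ Icc 1 (M ^ k), (dk k N m : ℝ) ^ 2 / m := by
        refine Finset.sum_le_sum fun m _ => ?_
        have : (dk k M m : ℝ) ≤ dk k N m := by exact_mod_cast dk_mono k m h
        gcongr
    _ ≤ D k N := by
        refine Finset.sum_le_sum_of_subset_of_nonneg (Finset.Icc_subset_Icc_right h1) fun m _ _ => by positivity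

lemma intD (k N : ℕ) : IntervalIntegrable (fun t : ℝ => D k ⌊t⌋₊) volume 0 (N : ℝ) := by
  apply Monotone.intervalIntegrable
  intro s t hst
  exact D_mono k (Nat.floor_le_floor hst)

lemma intZ (k : ℕ) (ω : ℕ → UnitAddCircle) (N : ℕ) :
    IntervalIntegrable (fun t => ‖Z ω t‖ ^ (2 * k)) volume 0 (N : ℝ) := by
  have h := (integrable_nat k ω N).add (intD k N)
  refine h.congr ?_
  intro t _
  simp

/-- the moment up to `N` is at most `N D k N` plus the remainder -/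
lemma mom_le (k : ℕ) (ω : ℕ → UnitAddCircle) (N : ℕ) :
    ∫ t in (0 : ℝ)..N, ‖Z ω t‖ ^ (2 * k) ≤ N * D k N + R k ω N := by
  have e1 : R k ω N = (∫ t in (0 : ℝ)..N, ‖Z ω t‖ ^ (2 * k)) - ∫ t in (0 : ℝ)..N, D k ⌊t⌋₊ := by
    unfold R
    rw [intervalIntegral.integral_sub (intZ k ω N) (intD k N)]
  have e2 : ∫ t in (0 : ℝ)..N, D k ⌊t⌋₊ ≤ N * D k N := by
    calc ∫ t in (0 : ℝ)..N, D k ⌊t⌋₊ ≤ ∫ _t in (0 : ℝ)..N, D k N := by
          refine intervalIntegral.integral_mono_on (Nat.cast_nonneg _) (intD k N)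
            intervalIntegrable_const fun t ht => ?_
          exact D_mono k (Nat.floor_le_of_le ht.2)
      _ = N * D k N := by
          rw [intervalIntegral.integral_const, smul_eq_mul, sub_zero]
  linarith

end Pool.Agent.Q255.MK
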