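import Pool.Agent.Q255.RM.Final
import Pool.Agent.Q299.FG.U4

/-!
# Project MK: moments of all orders of almost every twist of zeta, statements

`f ω`, `g t n = n^(-1/2-it)`, `Z ω t = ∑_{n ≤ t} f ω n g t n`, `dk k N m` (number of `v ∈ [1,N]^k` with product
`m`), `D k N = ∑_m dk² / m` are those of `Pool.Agent.Q255.RM`.
-/

set_option autoImplicit false

open MeasureTheory Finset

namespace Pool.Agent.Q255.MK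

open Q289.PAM Pool.Agent.Q255.RM

/-- the number of ordered factorisations of `m ≥ 1` into `k` factors -/
def ak (k m : ℕ) : ℕ := dk k m m

/-- **SQ**: `∑ d_k(m)² m^(-s) ≤ ζ(s)^(k²)`, in finite form.
Proof. (0) `dk k N m ≤ ak k m` for `m ≥ 1` (all `v i` divide `m`).
(1) `ak k (x y) ≤ ak k x * ak k y`: from `v` with product `x y` one finds `a`, `b` with `v i = a i * b i`,
`∏ a = x`, `∏ b = y` (induction on `k`: `v 0 ∣ x y` is a product of a divisor of `x` and one of `y`,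
`exists_dvd_and_dvd_of_dvd_mul`, or `Nat.gcd`); so `v ↦ (a, b)` is an injection.
(2) `∑_{m ≤ M} ak k m m^(-s) ≤ H^k`, `H = ∑_{n ≤ M} n^(-s)` (all `v i ≤ m ≤ M`).
(3) `∑_{m ≤ M} (ak (k+1) m)² m^(-s) ≤ H (∑_{x ≤ M} ak k x x^(-s))² ∑_{w ≤ M} (ak k w)² w^(-s)`: the left side is the sum of
`m^(-s)` over `(u, x)`, `(v, y)` with `x ∏ u = y ∏ v = m`; with `g = gcd x y`, `x = g x'`, `y = g y'`:
`∏ u = y' w`, `∏ v = x' w`, `m = g x' y' w`, and for given `g, x', y', w` the number of `u` is `ak k (y' w) ≤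
ak k y' * ak k w`, the number of `v` is at most `ak k x' * ak k w`. (Equivalently `ak (k+1) m = ∑_{x ∣ m} ak k (m / x)`.)
(4) Induction: `(k+1)² = k² + 2k + 1`, and `H ≤ 1 + 1/(s-1)` (integral test; see `Pool.Agent.Q211.FG.A1`). -/
def S_SQ : Prop :=
  (∀ k N m : ℕ, 1 ≤ m → dk k N m ≤ ak k m) ∧
  ∀ (k M : ℕ) (s : ℝ), 1 < s →
    ∑ m ∈ Icc 1 M, (ak k m : ℝ) ^ 2 * (m : ℝ) ^ (-s) ≤ (1 + 1 / (s - 1)) ^ (k ^ 2)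

/-- **D2**. `D 2 N = ∑ 1/(u₁u₂)` over the `u, v ∈ [1,N]²` with `u₁u₂ = v₁v₂`; the map to `(x,y,z,w)`, `x = gcd u₁ v₁`,
`u₁ = x y`, `v₁ = x z`, `u₂ = z w`, `v₂ = y w` is an injection into the quadruples with `xy, zw, xz, yw ≤ N`, and
`1/(u₁u₂) = 1/(xyzw)`. For given `x, w` the sums of `1/y` and of `1/z` over `y, z ≤ N / max x w` are at most
`min (1 + log (N/x)) (1 + log (N/w))`; so `D 2 N ≤ (∑_{x ≤ N} (1 + log (N/x)) / x)² ≤ (1 + 2L + L²/2)²`, `L = log N`. -/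
def S_D2 : Prop :=
  ∃ N₀ : ℕ, ∀ N : ℕ, N₀ ≤ N → D 2 N ≤ 1 / 2 * Real.log N ^ 4

/-- **DKB**. For `δ > 0`: `ak k m = ∏_{p^a ∥ m} C(a+k-1, a)`, `C(a+k-1,a) ≤ k^a ≤ p^(δ a)` if `p ≥ k^(1/δ)`, and
`C(a+k-1,a) ≤ (a+1)^k ≤ (C₁ k/δ)^k p^(δ a)` for the others, so `ak k m ≤ m^δ (C₁ k/δ)^(k · k^(1/δ))`. Take `δ = 1/(200 k)`:
`m^δ ≤ N^(1/200)`, and the exponent `k^(200 k + 1) log (200 C₁ k²)` is `(log N)^(o(1))` because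
`k log k = O(√(log log N) log log log N)`. (Any other proof is welcome, e.g. `dk k N m ≤ (number of divisors)^k` of
`Pool.Agent.Q255.RM.dk_le` with the standard bound `d(m) ≤ C_δ m^δ` and an explicit `C_δ ≤ exp (exp (C/δ))`.) -/
def S_DKB : Prop :=
  ∃ N₀ : ℕ, ∀ N : ℕ, N₀ ≤ N → ∀ k : ℕ, (k : ℝ) ≤ 2 * Real.sqrt (Real.log (Real.log N)) + 2 →
    ∀ m ∈ Icc 1 (N ^ k), (dk k N m : ℝ) ≤ (N : ℝ) ^ (1 / 100 : ℝ)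

/-- **SUP**. With `P(t) = (∑_{n ≤ N} f ω n g t n)^k = ∑_m dk k N m f ω m g t m` (`pow_expand`),
`‖P t‖² ≤ ∫_a^(a+1) (‖P‖² + 2 ‖P‖ ‖P'‖)` for `t ∈ [a,a+1]` (Sobolev: `h(t) ≤ ∫ h + ∫ |h'|` for `h = ‖P‖²`),
`2‖P‖‖P'‖ ≤ λ‖P‖² + λ⁻¹‖P'‖²` with `λ = k log N` (for `N ≥ 2`), and in the mean over `ω` (`orth`, or
`Pool.Agent.Q299.FG.sq_int`): `E‖P‖² = D k N`, `E‖P'‖² = ∑ (dk log m)²/m ≤ (k log N)² D k N`. Markov. -/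
def S_SUP : Prop :=
  ∀ (k N : ℕ) (a V : ℝ), 1 ≤ k → 1 ≤ N → 0 < V →
    PT.real {ω | ∃ t ∈ Set.Icc a (a + 1), V ≤ ‖∑ n ∈ Icc 1 N, f ω n * g t n‖} ≤
      (1 + 2 * k * Real.log N) * D k N / V ^ (2 * k)

/-- **FUB**: `E ‖∑_{n ≤ N} f n g t n‖^(2k) = D k N` for every `t`, `D` is increasing in `N`, Fubini (on each
`[j, j+1)`, where `⌊t⌋ = j`, the integrand is continuous in `(ω, t)`) and Markov. See `Pool.Agent.Q255.RM.Incr`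
(`Z_eq`, `ae_floor`, `X_cont`) and `Pool.Agent.Q299.FG.sq_int`. -/
def S_FUB : Prop :=
  ∀ (k N : ℕ) (V : ℝ), 0 < V →
    PT.real {ω | V ≤ ∫ t in (0 : ℝ)..N, ‖Z ω t‖ ^ (2 * k)} ≤ N * D k N / V

/-- **HOL**: interpolation. `x^(2(j+θ)) = (x^(2j))^(1-θ) (x^(2(j+1)))^θ` and Hölder (or `u^(1-θ) v^θ ≤ (1-θ) u λ^θ +
θ v λ^(θ-1)` with `λ = B₁/B₀`). `t ↦ ‖Z ω t‖` is bounded and measurable on `[0, T]` (piecewise continuous: see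
`integrable_unit`, `integrable_nat` in `Pool.Agent.Q255.RM.Final`). -/
def S_HOL : Prop :=
  ∀ (ω : Om) (T : ℝ) (j : ℕ) (θ B₀ B₁ : ℝ), 0 ≤ T → 0 ≤ θ → θ ≤ 1 → 0 < B₀ → 0 < B₁ →
    ∫ t in (0 : ℝ)..T, ‖Z ω t‖ ^ (2 * j) ≤ B₀ → ∫ t in (0 : ℝ)..T, ‖Z ω t‖ ^ (2 * (j + 1)) ≤ B₁ →
    ∫ t in (0 : ℝ)..T, ‖Z ω t‖ ^ (2 * ((j : ℝ) + θ)) ≤ B₀ ^ (1 - θ) * B₁ ^ θ

end Pool.Agent.Q255.MK
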