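import Pool.Agent.Q255.MK.Stm
import Pool.Agent.Q255.FG.Fam4

/-!
# Project MK, second part: large values of almost every twist (lower bounds), statements
-/

set_option autoImplicit false

open MeasureTheory Finset

namespace Pool.Agent.Q255.MK

open Q289.PAM Pool.Agent.Q255.RM Pool.Agent.Q255.FG

/-- `n ↦ n^(-it)` -/
noncomputable def tw (t : ℝ) (n : ℕ) : ℂ := (n : ℂ) ^ (-(t * Complex.I) : ℂ)

/-- the Euler product over the primes `p ≤ N` at `1/2 + δ` -/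
noncomputable def EP (ω : Om) (N : ℕ) (a : ℕ → ℂ) (δ : ℝ) : ℂ :=
  ∏ p ∈ (range (N + 1)).filter Nat.Prime, (1 - f ω p * a p * (((p : ℝ) ^ (-(1 / 2 + δ)) : ℝ) : ℂ))⁻¹

/-- **HMT**: high moments over the integers `d ≤ T`. Proof. `(∑ c p p^(-id))^m = ∑_{n ≤ Y^m} α_n n^(-id)` and
`∑ ‖α_n‖² ≤ m! (∑ ‖c p‖²)^m` (`pow_al`, `sum_al`, `tup` in `Pool.Agent.Q299.FG.Tup`); the discrete mean value
`∑_{d ≤ T} ‖A(d)‖² ≤ C (T + M) (1 + log M)² ∑_{n ≤ M} ‖α_n‖²` follows from `‖A(d)‖² ≤ ∫_d^(d+1) (‖A‖² + 2 ‖A‖ ‖A'‖)` and a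
mean value theorem for Dirichlet polynomials (`Pool.Agent.Y96.SX.mv` in `Pool.Agent.Y96.SX.MV`; `A'` has the
coefficients `-i α_n log n`). -/
def S_HMT : Prop :=
  ∃ C : ℝ, 0 < C ∧ ∀ (T : ℕ), 1 ≤ T → ∀ (P : Finset ℕ) (Y m : ℕ) (c : ℕ → ℂ),
    (∀ p ∈ P, p.Prime ∧ p ≤ Y) → Y ^ m ≤ T →
    ∑ d ∈ Icc 1 T, ‖∑ p ∈ P, c p * tw d p‖ ^ (2 * m) ≤
      C * T * (1 + Real.log T) ^ 2 * (Nat.factorial m) * (∑ p ∈ P, ‖c p‖ ^ 2) ^ m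

open Classical in
/-- **BAD**: as `S_BLK` of `Pool.Agent.Q255.FG.Stm` with `T = N`, `b = 1`, `X = {tw d : d ≤ N}`, but with the factor
`C (1 + log N)²` in place of `60` (copy `Pool.Agent.Q162.FG.BLK` with this factor: `block`, `asymB`, `split`, `blk`). -/
def S_BAD : Prop :=
  ∀ η : ℝ, 0 < η → η < 1 / 8 → ∀ ε : ℝ, 0 < ε → ∃ N₀ : ℕ, ∀ N : ℕ, N₀ ≤ N →
    (((Icc 1 N).filter fun d : ℕ => Real.exp (-(Real.log N ^ (η / 2))) <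
      ‖∑ p ∈ mid N η, (((p : ℝ) ^ (-(1 + 2 * dl N)) : ℝ) : ℂ) * tw d p‖).card : ℝ) ≤ (N : ℝ) ^ ε

/-- **LTM**: `S_LT` of `Pool.Agent.Q255.FG.Stm` with the `δ` of `M` for the sums up to `N`, `M ≤ N ≤ 2M` (same proof, see
`Pool.Agent.Q162.FG.LT`; the logarithms of `M` and `N` differ by at most `log 2`; the weaker exponent `-5` leaves
room). -/
def S_LTM : Prop :=
  ∃ M₀ : ℕ, ∀ M N : ℕ, M₀ ≤ M → M ≤ N → N ≤ 2 * M → ∀ a : ℕ → ℂ, CM a →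
    PT.real {ω | 1 ≤ ‖∑ n ∈ Icc 1 N, f ω n * a n * (((n : ℝ) ^ (-(1 / 2 + dl M)) : ℝ) : ℂ) - EP ω N a (dl M)‖} ≤
      (M : ℝ) ^ (-5 : ℝ)

/-- **TAIL**: the primes between `M` and `2M` do not matter. Proof. `‖∏ (1 - z_p)⁻¹‖ ≥ exp (∑ (Re z_p - 2 ‖z_p‖²))` (`S_LG`,
theorem `lg` in `Pool.Agent.Q154.FG.One`), `∑_{M < p ≤ 2M} ‖z_p‖² ≤ M^(-2 δ)`, `δ = dl M`, is tiny, so it is enough that
`∑ Re z_p ≥ -1/2`. With `λ = exp (4 √(L l))`, `L = log M`, `l = log L`: `λ ‖z_p‖ ≤ 1`, and by `S_EXPM` (2)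
(`Pool.Agent.Q211.FG.EXPM`) `E exp (-λ ∑ Re z_p) ≤ exp (λ² M^(-2δ)) ≤ exp 1` since `M^(-2δ) = exp (-10 √(L l))`; Markov:
the probability of `∑ Re z_p < -1/2` is at most `exp (1 - λ/2) ≤ M^(-5)`. -/
def S_TAIL : Prop :=
  ∃ M₀ : ℕ, ∀ M N : ℕ, M₀ ≤ M → M ≤ N → N ≤ 2 * M → ∀ a : ℕ → ℂ, (∀ n, ‖a n‖ ≤ 1) →
    PT.real {ω | ‖∏ p ∈ (Ioc M N).filter Nat.Prime,
      (1 - f ω p * a p * (((p : ℝ) ^ (-(1 / 2 + dl M)) : ℝ) : ℂ))⁻¹‖ < 1 / 2} ≤ (M : ℝ) ^ (-5 : ℝ)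

/-- **POIS**: the Poisson kernel reproduces Dirichlet polynomials: for `λ ≥ 0`
`∫ exp (-i λ u) δ / (π (δ² + u²)) du = exp (-λ δ)` (Fourier transform of the Cauchy density; grep Poisson / Cauchy in the
library, or Mathlib's Fourier inversion for `exp (-|x|)`), so with `λ = log n`:
`n^(-1/2-δ) n^(-ix) = ∫ n^(-1/2) n^(-i(x+u)) P_δ(u) du`. -/
def S_POIS : Prop :=
  ∀ (ω : Om) (N : ℕ) (x δ : ℝ), 0 < δ →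
    ‖∑ n ∈ Icc 1 N, f ω n * tw x n * (((n : ℝ) ^ (-(1 / 2 + δ)) : ℝ) : ℂ)‖ ≤
      ∫ u : ℝ, ‖∑ n ∈ Icc 1 N, f ω n * g (x + u) n‖ * (δ / (Real.pi * (δ ^ 2 + u ^ 2)))

end Pool.Agent.Q255.MK
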